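import Pool.Agent.Helper76.VA.Stm

/-!
# Module ANA: the choice of the parameters
-/

set_option autoImplicit false

namespace Pool.Agent.Helper76.VA

open Finset

lemma ana_mem {q y X u : ℕ} : u ∈ U q y X ↔
    (1 ≤ u ∧ u ≤ X) ∧ ∀ p ∈ u.primeFactors, p ≤ y ∧ p ≠ q := by
  unfold U
  rw [Finset.mem_filter, Finset.mem_Icc]

/-- upper bound for the number of smooth numbers -/
lemma ana_ub (q y X : ℕ) : (U q y X).card ≤ (Nat.log 2 X + 1) ^ (Nat.primeCounting y) := by
  classical
  have h : (U q y X).card ≤
      ((Nat.primesLE y).finsupp fun _ => Finset.range (Nat.log 2 X + 1)).card := by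
    refine Finset.card_le_card_of_injOn (fun u => u.factorization) ?_ ?_
    · intro u hu
      obtain ⟨⟨hu1, hu2⟩, hu3⟩ := ana_mem.mp hu
      have hmem : u.factorization ∈
          (Nat.primesLE y).finsupp fun _ => Finset.range (Nat.log 2 X + 1) := by
        rw [Finset.mem_finsupp_iff]
        refine ⟨fun p hp => ?_, fun p hp => ?_⟩
        · rw [Nat.support_factorization] at hp
          exact Nat.mem_primesLE.mpr ⟨(hu3 p hp).1, Nat.prime_of_mem_primeFactors hp⟩
        · rw [Finset.mem_range, Nat.lt_succ_iff]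
          have hp2 := (Nat.mem_primesLE.mp hp).2.two_le
          have h1 := Nat.ordProj_le p (n := u) (by omega)
          refine Nat.le_log_of_pow_le (by norm_num) ?_
          exact (Nat.pow_le_pow_left hp2 _).trans (h1.trans hu2)
      exact_mod_cast hmem
    · intro u hu u' hu' h
      have h1 := (ana_mem.mp (Finset.mem_coe.mp hu)).1.1
      have h2 := (ana_mem.mp (Finset.mem_coe.mp hu')).1.1
      exact Nat.eq_of_factorization_eq (by omega) (by omega) (fun p => by
        have h3 : u.factorization = u'.factorization := h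
        rw [h3])
  rw [Finset.card_finsupp] at h
  simpa using h

/-- lower bound for the number of smooth numbers -/
lemma ana_lb (q y X m : ℕ) (hq : q.Prime) (hqy : q ≤ y)
    (hX : y ^ (m * (Nat.primeCounting y - 1)) ≤ X) :
    (m + 1) ^ (Nat.primeCounting y - 1) ≤ (U q y X).card := by
  classical
  have hcard : ((Nat.primesLE y).erase q).card = Nat.primeCounting y - 1 := by
    rw [Finset.card_erase_of_mem (Nat.mem_primesLE.mpr ⟨hqy, hq⟩)]
    simp
  have h : ((((Nat.primesLE y).erase q).finsupp fun _ => Finset.range (m + 1)).card) ≤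
      (U q y X).card := by
    refine Finset.card_le_card_of_injOn (fun f => f.prod (· ^ ·)) ?_ ?_
    · intro f hf
      obtain ⟨hf1, hf2⟩ := Finset.mem_finsupp_iff.mp (Finset.mem_coe.mp hf)
      have hpr : ∀ p ∈ f.support, p.Prime := fun p hp =>
        (Nat.mem_primesLE.mp (Finset.mem_of_mem_erase (hf1 hp))).2
      have hfac := Nat.prod_pow_factorization_eq_self hpr
      have hpos : 0 < f.prod (· ^ ·) := by
        refine Finset.prod_pos fun p hp => ?_
        exact pow_pos (hpr p hp).pos _
      have hmem : f.prod (· ^ ·) ∈ U q y X := by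
        refine ana_mem.mpr ⟨⟨hpos, ?_⟩, ?_⟩
        · have h1 : f.prod (· ^ ·) = ∏ p ∈ (Nat.primesLE y).erase q, p ^ f p := by
            refine Finset.prod_subset hf1 fun p _ hp => ?_
            rw [Finsupp.notMem_support_iff.mp hp]
            exact pow_zero p
          rw [h1]
          refine le_trans ?_ hX
          calc ∏ p ∈ (Nat.primesLE y).erase q, p ^ f p ≤
              ∏ p ∈ (Nat.primesLE y).erase q, y ^ m := by
                refine Finset.prod_le_prod' fun p hp => ?_
                have hp1 := Nat.mem_primesLE.mp (Finset.mem_of_mem_erase hp)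
                have h2 := Finset.mem_range.mp (hf2 p hp)
                have hy0 : 0 < y := lt_of_lt_of_le hp1.2.pos hp1.1
                exact (Nat.pow_le_pow_left hp1.1 _).trans
                  (Nat.pow_le_pow_right hy0 (by omega))
            _ = y ^ (m * (Nat.primeCounting y - 1)) := by
                rw [Finset.prod_const, hcard, ← pow_mul]
        · intro p hp
          rw [← Nat.support_factorization, hfac] at hp
          have h2 := hf1 hp
          rw [Finset.mem_erase, Nat.mem_primesLE] at h2
          exact ⟨h2.2.1, h2.1⟩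
      exact_mod_cast hmem
    · intro f hf f' hf' h
      have h1 : ∀ f : ℕ →₀ ℕ,
          f ∈ (((Nat.primesLE y).erase q).finsupp fun _ => Finset.range (m + 1)) →
          (f.prod (· ^ ·)).factorization = f := by
        intro f hf
        obtain ⟨hf1, hf2⟩ := Finset.mem_finsupp_iff.mp hf
        exact Nat.prod_pow_factorization_eq_self fun p hp =>
          (Nat.mem_primesLE.mp (Finset.mem_of_mem_erase (hf1 hp))).2
      rw [← h1 f (Finset.mem_coe.mp hf), ← h1 f' (Finset.mem_coe.mp hf')]
      exact congrArg Nat.factorization h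
  rw [Finset.card_finsupp, Finset.prod_const, hcard] at h
  simpa using h

/-- `log t ≤ 2 √t` -/
lemma ana_log_le {t : ℝ} (ht : 0 < t) : Real.log t ≤ 2 * Real.sqrt t := by
  have h1 : t = Real.sqrt t * Real.sqrt t := (Real.mul_self_sqrt ht.le).symm
  have h2 : 0 < Real.sqrt t := Real.sqrt_pos.mpr ht
  have h3 := Real.log_le_sub_one_of_pos h2
  have h4 : Real.log t = 2 * Real.log (Real.sqrt t) := by
    rw [Real.log_sqrt ht.le]; ring
  rw [h4]
  linarith

/-- Chebyshev: `π(y) log y ≤ 5 y` -/
lemma ana_cheb_ub {y : ℕ} (hy : 2 ≤ y) : (Nat.primeCounting y : ℝ) * Real.log y ≤ 5 * y := by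
  have hy1 : (1 : ℝ) < y := by exact_mod_cast (by omega : 1 < y)
  have hy0 : (0 : ℝ) < y := by linarith
  have h1 := Chebyshev.pi_le_log4_mul_div hy1
  rw [Nat.floor_natCast] at h1
  have hlog : 0 < Real.log y := Real.log_pos hy1
  have hls : Real.log (Real.sqrt y) = Real.log y / 2 := by
    rw [Real.log_sqrt hy0.le]
  rw [hls] at h1
  have h2 := mul_le_mul_of_nonneg_right h1 hlog.le
  refine h2.trans ?_
  have h3 : (Real.log 4 * y / (Real.log y / 2) + Real.sqrt y) * Real.log y =
      2 * Real.log 4 * y + Real.sqrt y * Real.log y := by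
    field_simp
  rw [h3]
  have h4 : Real.log 4 = 2 * Real.log 2 := by
    rw [show (4 : ℝ) = 2 ^ 2 by norm_num, Real.log_pow]; norm_num
  have h5 := Real.log_two_lt_d9
  have h6 := ana_log_le hy0
  have h7 : Real.sqrt y * Real.log y ≤ 2 * y := by
    have h8 := mul_le_mul_of_nonneg_left h6 (Real.sqrt_nonneg (y : ℝ))
    have h9 : Real.sqrt y * (2 * Real.sqrt y) = 2 * y := by
      have := Real.mul_self_sqrt hy0.le
      linarith
    linarith
  nlinarith

/-- Chebyshev: `π(y) log y ≥ y / 4` -/
lemma ana_cheb_lb {y : ℕ} (hy : 100 ≤ y) : (y : ℝ) / 4 ≤ (Nat.primeCounting y : ℝ) * Real.log y := by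
  have hy1 : (100 : ℝ) ≤ y := by exact_mod_cast hy
  have hlog : 0 < Real.log y := Real.log_pos (by linarith)
  have h1 := Chebyshev.pi_ge y
  rw [div_le_iff₀ hlog] at h1
  refine le_trans ?_ h1
  have h2 := Real.log_two_gt_d9
  have h3 := ana_log_le (t := (y : ℝ) + 1) (by linarith)
  have h4 : Real.sqrt ((y : ℝ) + 1) ≤ y / 8 + 1/10 := by
    rw [Real.sqrt_le_left (by linarith)]
    nlinarith
  nlinarith

theorem ana : S_ANA := by
  refine ⟨3 / 1600, by norm_num, ?_⟩
  intro q C hq
  set t₀ : ℝ := 4000000 + 1000 * |C| + 1000 * q with ht₀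
  have hq0 : (2 : ℝ) ≤ q := by exact_mod_cast hq.two_le
  have hC0 := abs_nonneg C
  have ht₀0 : 0 ≤ t₀ := by positivity
  refine ⟨t₀ ^ 3, ?_⟩
  intro H hH
  have hH0 : 0 ≤ H := le_trans (by positivity) hH
  set t : ℝ := H ^ (1 / 3 : ℝ) with ht
  have htt : t₀ ≤ t := by
    have h1 : t₀ = (t₀ ^ 3) ^ (1 / 3 : ℝ) := by
      rw [← Real.rpow_natCast, ← Real.rpow_mul ht₀0]
      norm_num
    rw [h1]
    exact Real.rpow_le_rpow (by positivity) hH (by norm_num)
  have htH : t ^ 3 = H := by
    rw [ht, ← Real.rpow_natCast, ← Real.rpow_mul hH0]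
    norm_num
  have htH2 : H ^ (2 / 3 : ℝ) = t ^ 2 := by
    rw [ht, ← Real.rpow_natCast, ← Real.rpow_mul hH0]
    norm_num
  have ht1 : 4000000 ≤ t := by
    have : 0 ≤ 1000 * |C| + 1000 * q := by positivity
    linarith
  have ht0 : 0 < t := by linarith
  have hCt : |C| ≤ t / 1000 := by
    have : 0 ≤ 1000 * (q : ℝ) := by positivity
    linarith
  have hqt : (q : ℝ) ≤ t / 1000 := by
    have : 0 ≤ 1000 * |C| := by positivity
    linarith
  have hlogH : Real.log H = 3 * Real.log t := by
    rw [← htH, Real.log_pow]; norm_num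
  have hlogt : Real.log t ≤ t / 1000 := by
    have h1 := ana_log_le ht0
    have h2 : Real.sqrt t ≤ t / 2000 := by
      rw [Real.sqrt_le_left (by positivity)]
      nlinarith
    linarith
  have hlogt0 : 1 ≤ Real.log t := by
    rw [Real.le_log_iff_exp_le ht0]
    have := Real.exp_one_lt_d9
    linarith
  -- the number y
  set y : ℕ := ⌊t ^ 2 / 100⌋₊ with hy
  have hy_le : (y : ℝ) ≤ t ^ 2 / 100 := Nat.floor_le (by positivity)
  have hy_ge : t ^ 2 / 200 ≤ y := by
    have h1 := Nat.lt_floor_add_one (t ^ 2 / 100)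
    rw [← hy] at h1
    nlinarith
  have hyt : t ≤ y := by nlinarith
  have hqy : q ≤ y := by
    have : (q : ℝ) ≤ y := by linarith
    exact_mod_cast this
  have hy100 : 100 ≤ y := by
    have : (100 : ℝ) ≤ y := by linarith
    exact_mod_cast this
  have hy0 : (0 : ℝ) < y := by linarith
  have hlogy0 : 0 < Real.log y := Real.log_pos (by linarith)
  have hlogy : Real.log y ≤ 2 * Real.log t - 2 * Real.log 10 := by
    have h1 := Real.log_le_log hy0 hy_le
    rw [Real.log_div (by positivity) (by norm_num), Real.log_pow,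
      show (100 : ℝ) = 10 ^ 2 by norm_num, Real.log_pow] at h1
    norm_num at h1
    linarith
  -- the number X
  have hexp : 1 ≤ Real.exp (H - C) := by
    rw [← Real.exp_zero]
    refine Real.exp_le_exp.mpr ?_
    have := le_abs_self C
    rw [← htH]
    nlinarith
  set X : ℕ := ⌊Real.exp (H - C)⌋₊ with hX
  have hX1 : 1 ≤ X := Nat.le_floor (by exact_mod_cast hexp)
  have hX1' : (1 : ℝ) ≤ X := by exact_mod_cast hX1
  have hXle : (X : ℝ) ≤ Real.exp (H - C) := Nat.floor_le (Real.exp_pos _).le
  have hXge : Real.exp (H - C) ≤ 2 * X := by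
    have h1 := Nat.lt_floor_add_one (Real.exp (H - C))
    rw [← hX] at h1
    linarith
  have hlogX : Real.log X ≤ H - C := by
    have := Real.log_le_log (by linarith) hXle
    rwa [Real.log_exp] at this
  have hlog2 : Real.log 2 ≤ 1 := by
    have := Real.log_two_lt_d9
    linarith
  have hlogX2 : H - C - 1 ≤ Real.log X := by
    have := Real.log_le_log (Real.exp_pos _) hXge
    rw [Real.log_exp, Real.log_mul (by norm_num) (by positivity)] at this
    linarith
  have hHt : t * 16000000000000 ≤ H := by
    rw [← htH]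
    have h1 : 4000000 * 4000000 ≤ t * t := mul_le_mul ht1 ht1 (by norm_num) ht0.le
    have h2 := mul_le_mul_of_nonneg_left h1 ht0.le
    have h3 : t ^ 3 = t * (t * t) := by ring
    rw [h3]
    linarith
  have hcC := le_abs_self C
  have hcC' := neg_abs_le C
  -- the number r of primes
  set r : ℕ := Nat.primeCounting y with hr
  have hr_ub := ana_cheb_ub (y := y) (by omega)
  have hr_lb := ana_cheb_lb hy100
  rw [← hr] at hr_ub hr_lb
  have hr_le : (r : ℝ) ≤ y := by
    have h2 : Nat.primeCounting y ≤ y := by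
      have h3 : (Nat.primesLE y).card ≤ (Finset.Icc 1 y).card :=
        Finset.card_le_card fun p hp => Finset.mem_Icc.mpr
          ⟨(Nat.mem_primesLE.mp hp).2.one_le, (Nat.mem_primesLE.mp hp).1⟩
      simpa using h3
    exact_mod_cast h2
  refine ⟨y, X, hqy, by omega, hX1, hlogX, ?_, ?_⟩
  · -- upper bound
    have h1 : ((U q y X).card : ℝ) ≤ ((Nat.log 2 X : ℝ) + 1) ^ r := by
      exact_mod_cast ana_ub q y X
    have h2 : (Nat.log 2 X : ℝ) * (1 / 2) ≤ Real.log X := by
      have h3 : (2 : ℝ) ^ (Nat.log 2 X) ≤ X := by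
        exact_mod_cast Nat.pow_log_le_self 2 (by omega)
      have h4 := Real.log_le_log (by positivity) h3
      rw [Real.log_pow] at h4
      have h5 := Real.log_two_gt_d9
      have h6 : (0 : ℝ) ≤ Nat.log 2 X := Nat.cast_nonneg _
      nlinarith
    have h3 : (Nat.log 2 X : ℝ) + 1 ≤ t ^ 4 := by
      have h4 : t ^ 4 = t * H := by rw [← htH]; ring
      rw [h4]
      nlinarith
    have h4 : Real.log ((U q y X).card) ≤ r * (4 * Real.log t) := by
      have h5 : (0 : ℝ) < (U q y X).card := by
        have : 1 ∈ U q y X := ana_mem.mpr ⟨⟨le_refl _, hX1⟩, by simp⟩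
        exact_mod_cast Finset.card_pos.mpr ⟨1, this⟩
      have h6 := Real.log_le_log h5 h1
      rw [Real.log_pow] at h6
      have h7 := Real.log_le_log (by positivity) h3
      rw [Real.log_pow] at h7
      refine h6.trans (mul_le_mul_of_nonneg_left ?_ (Nat.cast_nonneg _))
      exact_mod_cast h7
    have h5 : (r : ℝ) * (4 * Real.log t) ≤ (t ^ 2 / 100) * (4 * (t / 1000)) :=
      mul_le_mul (hr_le.trans hy_le) (by linarith) (by linarith) (by positivity)
    have h6 : (t ^ 2 / 100) * (4 * (t / 1000)) = H / 25000 := by rw [← htH]; ring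
    linarith
  · -- lower bound
    have hXq : (q : ℝ) ≤ X := by
      have h1 : Real.exp (Real.log q) ≤ Real.exp (Real.log X) := by
        refine Real.exp_le_exp.mpr ?_
        have := Real.log_le_sub_one_of_pos (show (0 : ℝ) < q by linarith)
        linarith
      rwa [Real.exp_log (by linarith), Real.exp_log (by linarith)] at h1
    have hXq' : q ≤ X := by exact_mod_cast hXq
    set X' : ℕ := X / q with hX'
    have hX'1 : 1 ≤ X' := (Nat.one_le_div_iff hq.pos).mpr hXq'
    have hX'1' : (1 : ℝ) ≤ X' := by exact_mod_cast hX'1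
    have hX'ge : (X : ℝ) ≤ 2 * q * X' := by
      have h1 : X < q * (X' + 1) := by
        have := Nat.lt_mul_div_succ X hq.pos
        simpa [hX'] using this
      have h2 : (X : ℝ) < q * (X' + 1) := by exact_mod_cast h1
      nlinarith
    set L : ℝ := Real.log X' with hL
    have hLge : t ^ 3 / 2 ≤ L := by
      have h1 := Real.log_le_log (by linarith) hX'ge
      rw [Real.log_mul (by positivity) (by positivity),
        Real.log_mul (by norm_num) (by positivity)] at h1
      have h2 := Real.log_le_sub_one_of_pos (show (0 : ℝ) < q by linarith)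
      rw [htH]
      linarith
    -- r ≥ 2
    have hW : t / 1 * 1000 * Real.log t ≤ t ^ 2 := by nlinarith
    have hr_lb2 : t ^ 2 / 1600 ≤ r * Real.log t := by
      have h10 : 0 ≤ Real.log 10 := Real.log_nonneg (by norm_num)
      have h1 : (r : ℝ) * Real.log y ≤ r * (2 * Real.log t) :=
        mul_le_mul_of_nonneg_left (by linarith) (Nat.cast_nonneg _)
      linarith
    have hr2 : (2 : ℝ) ≤ r := by
      by_contra hcon
      push Not at hcon
      nlinarith
    have hr2' : 2 ≤ r := by exact_mod_cast hr2
    have hr' : ((r - 1 : ℕ) : ℝ) = r - 1 := by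
      rw [Nat.cast_sub (by omega)]; norm_num
    -- the exponent bound
    set z : ℝ := (r - 1) * Real.log y with hz
    have hz0 : 0 < z := mul_pos (by linarith) hlogy0
    have hzle : z ≤ t ^ 2 / 20 := by
      have h1 : z ≤ r * Real.log y := by
        rw [hz]
        nlinarith
      linarith
    set m : ℕ := ⌊L / z⌋₊ with hm
    have hL0 : 0 ≤ L := le_trans (by positivity) hLge
    have hmz : (m : ℝ) * z ≤ L := by
      have h1 := Nat.floor_le (show 0 ≤ L / z by positivity)
      rw [← hm, le_div_iff₀ hz0] at h1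
      exact h1
    have hm1 : 10 * t ≤ (m : ℝ) + 1 := by
      have h1 := Nat.lt_floor_add_one (L / z)
      rw [← hm, div_lt_iff₀ hz0] at h1
      by_contra hcon
      push Not at hcon
      have h2 : ((m : ℝ) + 1) * z ≤ 10 * t * (t ^ 2 / 20) :=
        mul_le_mul hcon.le hzle hz0.le (by positivity)
      have h3 : 10 * t * (t ^ 2 / 20) = t ^ 3 / 2 := by ring
      linarith
    have hpow : y ^ (m * (r - 1)) ≤ X' := by
      have h1 : ((y : ℝ)) ^ (m * (r - 1)) ≤ X' := by
        rw [← Real.log_le_log_iff (by positivity) (by linarith), Real.log_pow]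
        push_cast
        rw [hr']
        have h2 : (m : ℝ) * ((r : ℝ) - 1) * Real.log y = m * z := by rw [hz]; ring
        rw [h2]
        exact hmz
      exact_mod_cast h1
    have hU := ana_lb q y X' m hq hqy (by rw [← hr]; exact hpow)
    rw [← hr] at hU
    have hU' : ((m : ℝ) + 1) ^ (r - 1) ≤ (U q y X').card := by exact_mod_cast hU
    have hlogU : ((r : ℝ) - 1) * (Real.log 10 + Real.log t) ≤ Real.log ((U q y X').card) := by
      have h1 := Real.log_le_log (by positivity) hU'
      rw [Real.log_pow, hr'] at h1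
      refine le_trans ?_ h1
      refine mul_le_mul_of_nonneg_left ?_ (by linarith)
      rw [← Real.log_mul (by norm_num) (by positivity)]
      exact Real.log_le_log (by positivity) hm1
    -- the primorial
    have hth : Real.log (primorial y) ≤ r * Real.log y := by
      have h1 := Chebyshev.theta_le_pi_mul_log y
      rw [Chebyshev.theta_eq_log_primorial, Nat.floor_natCast] at h1
      exact h1
    have h10 : 1 ≤ Real.log 10 := by
      rw [Real.le_log_iff_exp_le (by norm_num)]
      have := Real.exp_one_lt_d9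
      linarith
    have h36 : Real.log 36 ≤ 2 * Real.log 10 := by
      rw [show (36 : ℝ) = 6 ^ 2 by norm_num, Real.log_pow]
      have := Real.log_le_log (show (0 : ℝ) < 6 by norm_num) (show (6 : ℝ) ≤ 10 by norm_num)
      push_cast
      linarith
    rw [htH2, hlogH]
    have hW1 : 3 / 1600 * (t ^ 2 / (3 * Real.log t)) = (t ^ 2 / Real.log t) / 1600 := by
      field_simp
    rw [hW1]
    set W : ℝ := t ^ 2 / Real.log t with hWdef
    have hlt : 0 < Real.log t := by linarith
    have hWr : W / 1600 ≤ r := by
      rw [hWdef, div_div, div_le_iff₀ (by positivity)]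
      linarith
    have hWt : 1000 * t ≤ W := by
      rw [hWdef, le_div_iff₀ hlt]
      linarith
    have hr0 : (0 : ℝ) ≤ r := Nat.cast_nonneg _
    have e1 : (r : ℝ) * Real.log y ≤ r * (2 * Real.log t - 2 * Real.log 10) :=
      mul_le_mul_of_nonneg_left hlogy hr0
    have e2 : (r : ℝ) * Real.log 36 ≤ r * (2 * Real.log 10) :=
      mul_le_mul_of_nonneg_left h36 hr0
    have e3 : ((r : ℝ) - 1) * (Real.log 10 + Real.log t) =
        r * Real.log 10 + r * Real.log t - Real.log 10 - Real.log t := by ring
    have e4 : (r : ℝ) * (2 * Real.log t - 2 * Real.log 10) =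
        2 * (r * Real.log t) - 2 * (r * Real.log 10) := by ring
    have e5 : (r : ℝ) * (2 * Real.log 10) = 2 * (r * Real.log 10) := by ring
    have e6 : (r : ℝ) ≤ r * Real.log 10 := by nlinarith
    have h10' : Real.log 10 ≤ 9 := by
      have := Real.log_le_sub_one_of_pos (show (0 : ℝ) < 10 by norm_num)
      linarith
    rw [e3] at hlogU
    rw [e4] at e1
    rw [e5] at e2
    linarith

end Pool.Agent.Helper76.VA
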