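import Pool.Agent.Helper76.VA.Stm

/-!
# Module CORE
-/

set_option autoImplicit false

namespace Pool.Agent.Helper76.VA

open Finset

theorem core_ceil (k N : ℕ) (hk : 1 ≤ k) (hN : 1 ≤ N) :
    ∃ l : ℕ, 1 ≤ l ∧ (l - 1) * N < k ∧ l ≤ k ∧ k ≤ l * N := by
  refine ⟨(k - 1) / N + 1, Nat.le_add_left 1 _, ?_, ?_, ?_⟩
  · have := Nat.div_mul_le_self (k - 1) N
    simp only [Nat.add_sub_cancel]
    omega
  · have := Nat.div_le_self (k - 1) N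
    omega
  · have := Nat.lt_div_mul_add (a := k - 1) hN
    rw [add_mul, one_mul]
    omega

theorem core_few (hP : S_POLY) {q δ k l : ℕ} {Q : Polynomial ℤ} (hq : q.Prime)
    (hd : Q.natDegree ≤ δ) (hc : ∃ i, ¬ (q : ℤ) ∣ Q.coeff i) (hl : (l - 1) * (δ + 1).choose 2 < k)
    (T : Finset ℤ) (hT : ∀ c ∈ T, ∃ w : ℤ, w % (q : ℤ) ^ l = c ∧ (q : ℤ) ^ k ∣ Q.eval w) :
    T.card ≤ δ := by
  by_contra hlt
  obtain ⟨T', hT', hcard⟩ := Finset.exists_subset_card_eq (show δ + 1 ≤ T.card by omega)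
  choose! f hf using hT
  let e := T'.equivFinOfCardEq hcard
  obtain ⟨i, j, hij, hdvd⟩ := hP q δ k l Q hq hd hc hl (fun m => f (e.symm m).1)
    (fun m => (hf _ (hT' (e.symm m).2)).2)
  apply hij
  have h1 := (hf _ (hT' (e.symm i).2)).1
  have h2 := (hf _ (hT' (e.symm j).2)).1
  have h3 : f (e.symm i).1 % (q : ℤ) ^ l = f (e.symm j).1 % (q : ℤ) ^ l :=
    Int.emod_eq_emod_iff_emod_sub_eq_zero.2 (Int.emod_eq_zero_of_dvd hdvd)
  rw [h1, h2] at h3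
  exact e.symm.injective (Subtype.ext h3)

theorem core_edge_natDegree (R : Finset (ℕ × ℕ)) (δ : ℕ) (hR : ∀ x ∈ R, x.1 + x.2 ≤ δ)
    (g : ℕ × ℕ → ℤ) (p r : ℕ) : (edge R g p r).natDegree ≤ δ := by
  unfold edge
  refine Polynomial.natDegree_sum_le_of_forall_le _ _ fun x hx => ?_
  refine (Polynomial.natDegree_C_mul_X_pow_le _ _).trans ?_
  have h1 := hR x (Finset.mem_of_mem_filter x hx)
  have h2 := Nat.div_le_self x.2 r
  omega

theorem core_edge_eval (R : Finset (ℕ × ℕ)) (g g' : ℕ × ℕ → ℤ) (p r : ℕ) (m : ℤ)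
    (h : ∀ x ∈ R, m ∣ g x - g' x) (w : ℤ) : m ∣ (edge R g p r).eval w - (edge R g' p r).eval w := by
  unfold edge
  rw [Polynomial.eval_finsetSum, Polynomial.eval_finsetSum, ← Finset.sum_sub_distrib]
  refine Finset.dvd_sum fun x hx => ?_
  rw [Polynomial.eval_mul, Polynomial.eval_mul, Polynomial.eval_C, Polynomial.eval_C, ← sub_mul]
  exact (h x (Finset.mem_of_mem_filter x hx)).mul_right _

theorem core_edge_coeff (R : Finset (ℕ × ℕ)) (g g' : ℕ × ℕ → ℤ) (p r : ℕ) (m : ℤ)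
    (h : ∀ x ∈ R, m ∣ g x - g' x) (e : ℕ) :
    m ∣ (edge R g p r).coeff e - (edge R g' p r).coeff e := by
  unfold edge
  rw [Polynomial.finsetSum_coeff, Polynomial.finsetSum_coeff, ← Finset.sum_sub_distrib]
  refine Finset.dvd_sum fun x hx => ?_
  rw [Polynomial.coeff_C_mul, Polynomial.coeff_C_mul, ← sub_mul]
  exact (h x (Finset.mem_of_mem_filter x hx)).mul_right _

/-- the power of `q` in a nonzero integer -/
theorem core_split {q : ℕ} (hq : q.Prime) (A : ℤ) (hA : A ≠ 0) :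
    ∃ (ν : ℕ) (A' : ℤ), A = (q : ℤ) ^ ν * A' ∧ ¬ (q : ℤ) ∣ A' := by
  have hfin : FiniteMultiplicity (q : ℤ) A := by
    rw [Int.finiteMultiplicity_iff]
    exact ⟨by simpa using hq.one_lt.ne', hA⟩
  obtain ⟨c, h1, h2⟩ := hfin.exists_eq_pow_mul_and_not_dvd
  exact ⟨_, c, h1, h2⟩

theorem core_pow_le {q : ℕ} (hq : q.Prime) {A A' : ℤ} {ν l : ℕ} (h : A = (q : ℤ) ^ ν * A')
    (hA' : ¬ (q : ℤ) ∣ A') : (q : ℤ) ^ l ∣ A ↔ l ≤ ν := by
  constructor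
  · intro hd
    by_contra hlt
    apply hA'
    have h1 : (q : ℤ) ^ (ν + 1) ∣ (q : ℤ) ^ ν * A' :=
      (pow_dvd_pow _ (by omega)).trans (h ▸ hd)
    rw [pow_succ] at h1
    exact Int.dvd_of_mul_dvd_mul_left (pow_ne_zero _ (by exact_mod_cast hq.ne_zero)) h1
  · intro hle
    rw [h]
    exact (pow_dvd_pow _ hle).mul_right _

theorem core_val_unique {q : ℕ} (hq : q.Prime) {A A' : ℤ} {ν : ℕ} (h : A = (q : ℤ) ^ ν * A')
    (hA' : ¬ (q : ℤ) ∣ A') : padicValInt q A = ν := by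
  have := Fact.mk hq
  have hA0 : A' ≠ 0 := by
    rintro rfl
    exact hA' (dvd_zero _)
  have hq0 : (q : ℤ) ^ ν ≠ 0 := pow_ne_zero _ (by exact_mod_cast hq.ne_zero)
  rw [h, padicValInt.mul hq0 hA0]
  have e1 : padicValInt q A' = 0 := padicValInt.eq_zero_of_not_dvd hA'
  have e2 : padicValInt q ((q : ℤ) ^ ν) = ν := by
    have : ((q : ℤ) ^ ν) = ((q ^ ν : ℕ) : ℤ) := by push_cast; rfl
    rw [this, padicValInt.of_nat, padicValNat.prime_pow]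
  rw [e1, e2, add_zero]

/-- the property of the colour `c = (p, r, w mod q ^ n)` of a pair -/
def CoreCol (q δ : ℕ) (R : Finset (ℕ × ℕ)) (g₁ : ℕ × ℕ → ℤ) (n₂ n₃ : ℕ) (A σ : ℤ)
    (c : ℕ × ℕ × ℤ) : Prop :=
  1 ≤ c.2.1 ∧ c.2.1 < c.1 ∧ c.1 ≤ δ ∧ (∃ i, ¬ (q : ℤ) ∣ (edge R g₁ c.1 c.2.1).coeff i) ∧
  (∃ w : ℤ, w % (q : ℤ) ^ n₃ = c.2.2 ∧ (q : ℤ) ^ n₂ ∣ (edge R g₁ c.1 c.2.1).eval w) ∧
  ∃ (ν κ : ℕ) (A' σ' : ℤ), A = (q : ℤ) ^ ν * A' ∧ σ = (q : ℤ) ^ κ * σ' ∧ ¬ (q : ℤ) ∣ A' ∧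
    ¬ (q : ℤ) ∣ σ' ∧ c.2.1 * κ = c.1 * ν ∧ c.2.2 * A' ^ c.1 ≡ σ' ^ c.2.1 [ZMOD (q : ℤ) ^ n₃]

theorem core_pair (hT : S_TIE) {q δ : ℕ} {R : Finset (ℕ × ℕ)} (hq : q.Prime)
    (hR : ∀ x ∈ R, x.1 + x.2 ≤ δ) (hne : R.Nonempty) (g g₁ : ℕ × ℕ → ℤ) (A σ : ℤ) (k l n₂ n₃ : ℕ)
    (hg : ∀ x ∈ R, ¬ (q : ℤ) ∣ g x) (hgg : ∀ x ∈ R, (q : ℤ) ^ l ∣ g₁ x - g x)
    (hl1 : 1 ≤ l) (hn2 : n₂ ≤ l / δ) (hn3 : n₃ ≤ n₂) (hA : (q : ℤ) ^ l ∣ A)
    (hA' : ¬ (q : ℤ) ^ k ∣ A) (hs : (q : ℤ) ^ k ∣ σ) (hs0 : σ ≠ 0)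
    (h0 : ∑ x ∈ R, g x * (A ^ x.1 * σ ^ x.2) = 0) :
    ∃ c, CoreCol q δ R g₁ n₂ n₃ A σ c := by
  have hA0 : A ≠ 0 := by
    rintro rfl
    exact hA' (dvd_zero _)
  obtain ⟨ν, A', eA, nA⟩ := core_split hq A hA0
  obtain ⟨κ, σ', eσ, nσ⟩ := core_split hq σ hs0
  have hlν : l ≤ ν := (core_pow_le hq eA nA).1 hA
  have hνk : ν < k := by
    by_contra hlt
    exact hA' ((core_pow_le hq eA nA).2 (by omega))
  have hkκ : k ≤ κ := (core_pow_le hq eσ nσ).1 hs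
  obtain ⟨p, r, hr, hrp, hpd, hcop, hrk, hdeg, hcoef, hw⟩ :=
    hT q δ R g ν κ A' σ' hq hR hne hg nA nσ (by omega) (by omega) (by rw [← eA, ← eσ]; exact h0)
  have hcopA : IsCoprime (A' ^ p) ((q : ℤ) ^ (ν / r)) := by
    apply IsCoprime.pow
    rw [isCoprime_comm]
    exact (Nat.prime_iff_prime_int.1 hq).coprime_iff_not_dvd.2 nA
  obtain ⟨u, v, huv⟩ := hcopA
  have hw1 : (σ' ^ r * u) * A' ^ p ≡ σ' ^ r [ZMOD (q : ℤ) ^ (ν / r)] := by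
    rw [Int.modEq_iff_dvd]
    refine ⟨σ' ^ r * v, ?_⟩
    linear_combination σ' ^ r * (-huv)
  have hd1 : (q : ℤ) ^ (ν / r) ∣ (edge R g p r).eval (σ' ^ r * u) := hw _ hw1
  have hrδ : r ≤ δ := by omega
  have hle : n₂ ≤ ν / r := by
    refine hn2.trans ?_
    exact (Nat.div_le_div_right hlν).trans (Nat.div_le_div_left hrδ hr)
  have hn2l : n₂ ≤ l := hn2.trans (Nat.div_le_self _ _)
  have hd2 : (q : ℤ) ^ n₂ ∣ (edge R g₁ p r).eval (σ' ^ r * u) := by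
    have e1 := (pow_dvd_pow (q : ℤ) hn2l).trans
      (core_edge_eval R g₁ g p r _ hgg (σ' ^ r * u))
    have e2 := (pow_dvd_pow (q : ℤ) hle).trans hd1
    have := dvd_add e1 e2
    rwa [sub_add_cancel] at this
  refine ⟨(p, r, (σ' ^ r * u) % (q : ℤ) ^ n₃), hr, hrp, hpd, ?_, ⟨_, rfl, hd2⟩, ν, κ, A', σ', eA,
    eσ, nA, nσ, hrk, ?_⟩
  · obtain ⟨i, hi⟩ := hcoef
    refine ⟨i, fun hd => hi ?_⟩
    have e1 := (dvd_pow_self (q : ℤ) (by omega : l ≠ 0)).trans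
      (core_edge_coeff R g₁ g p r _ hgg i)
    have := dvd_sub hd e1
    rwa [sub_sub_cancel] at this
  · have h2 : (σ' ^ r * u) * A' ^ p ≡ σ' ^ r [ZMOD (q : ℤ) ^ n₃] :=
      hw1.of_dvd (pow_dvd_pow _ (hn3.trans hle))
    exact ((Int.mod_modEq (σ' ^ r * u) ((q : ℤ) ^ n₃)).mul_right _).trans h2

/-- the symmetric form of the colour condition -/
theorem core_sym {q p r n : ℕ} {c A' σ' : ℤ} (h : c * A' ^ p ≡ σ' ^ r [ZMOD (q : ℤ) ^ n]) :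
    ∃ ε : ℤ, (ε = 1 ∨ ε = -1) ∧ (-σ') ^ r ≡ ε * c * (-A') ^ p [ZMOD (q : ℤ) ^ n] := by
  refine ⟨(-1) ^ (p + r), neg_one_pow_eq_or ℤ _, ?_⟩
  have h1 := (h.symm.mul_left ((-1) ^ r))
  have e1 : (-1 : ℤ) ^ r * σ' ^ r = (-σ') ^ r := by
    rw [← mul_pow]
    congr 1
    ring
  have e2 : (-1 : ℤ) ^ r * (c * A' ^ p) = (-1) ^ (p + r) * c * (-A') ^ p := by
    have e3 : (-A') ^ p = (-1) ^ p * A' ^ p := by
      rw [← mul_pow]
      congr 1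
      ring
    have e4 : (-1 : ℤ) ^ p * (-1) ^ p = 1 := by
      rw [← mul_pow]
      simp
    rw [e3, pow_add]
    linear_combination -((-1 : ℤ) ^ r * c * A' ^ p) * e4
  rw [e1, e2] at h1
  exact h1

theorem core_nat (hPOLY : S_POLY) (hTREE : S_TREE) (hRAM : S_RAM) (hTIE : S_TIE) (hTRI : S_TRI)
    (q δ : ℕ) (R : Finset (ℕ × ℕ)) (hq : q.Prime) (hq2 : q ≠ 2) (hδ1 : 1 ≤ δ) (hδq : δ < q)
    (hR : ∀ x ∈ R, x.1 + x.2 ≤ δ) (hR0 : ∃ e, (e, 0) ∈ R) :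
    ∃ M k₀ : ℕ, ∀ k, k₀ ≤ k → ∀ (a s : ℕ → ℤ) (g : ℕ → ℕ × ℕ → ℤ),
      (∀ i < M, ∀ x ∈ R, ¬ (q : ℤ) ∣ g i x) →
      (∀ i < M, ∀ j < M, ∀ l ≤ k, (q : ℤ) ^ l ∣ a i - a j → ∀ x ∈ R, (q : ℤ) ^ l ∣ g i x - g j x) →
      (∀ i < M, ∀ j < M, i ≠ j → ¬ (q : ℤ) ^ k ∣ a i - a j) →
      (∀ i < M, ∀ j < M, (q : ℤ) ^ k ∣ s i - s j) → (∀ i < M, ∀ j < M, i ≠ j → s i ≠ s j) →
      (∀ i < M, ∀ j < M, i ≠ j →
        ∑ x ∈ R, g i x * ((a i - a j) ^ x.1 * (s i - s j) ^ x.2) = 0) → False := by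
  set N := (δ + 1).choose 2 with hN
  have hN1 : 1 ≤ N := Nat.choose_pos (by omega)
  set B := 2 * N ^ 2 * δ with hB
  obtain ⟨M₁, hM₁⟩ := hRAM (δ * (δ + 1) ^ 2) (q ^ B + 1)
  refine ⟨δ * M₁ + 2, 2 * N * δ + 1, ?_⟩
  intro k hk a s g hg1 hg2 ha hs hs' h0
  have hqZ : (q : ℤ) ≠ 0 := by exact_mod_cast hq.ne_zero
  -- the parameters
  obtain ⟨l, hl1, hl2, hl3, hl4⟩ := core_ceil k N (by omega) hN1
  have hlδ : 2 * δ ≤ l := by
    by_contra hlt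
    have h1 : l * N ≤ (2 * δ) * N := Nat.mul_le_mul_right _ (by omega)
    have h2 : 2 * δ * N = 2 * N * δ := by ring
    omega
  set n₂ := l / δ with hn2
  have hn2' : 1 ≤ n₂ := (Nat.one_le_div_iff (by omega)).2 (by omega)
  obtain ⟨n₃, hn31, hn32, hn33, hn34⟩ := core_ceil n₂ N hn2' hN1
  have hkB : k ≤ B * n₃ := by
    have e1 : l ≤ 2 * (δ * n₂) := by
      have h1 := Nat.div_add_mod l δ
      have h2 := Nat.mod_lt l (show 0 < δ by omega)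
      rw [← hn2] at h1
      have h3 : δ * 1 ≤ δ * n₂ := Nat.mul_le_mul_left _ hn2'
      omega
    calc k ≤ l * N := hl4
      _ ≤ 2 * (δ * n₂) * N := Nat.mul_le_mul_right _ e1
      _ ≤ 2 * (δ * (n₃ * N)) * N := by gcongr
      _ = B * n₃ := by rw [hB]; ring
  obtain ⟨e₀, he₀⟩ := hR0
  have hRne : R.Nonempty := ⟨_, he₀⟩
  -- step 1
  set M := δ * M₁ + 2 with hM
  set Q : Polynomial ℤ := ∑ x ∈ R.filter (fun x => x.2 = 0),
    Polynomial.C (g 0 x) * Polynomial.X ^ x.1 with hQ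
  have hQd : Q.natDegree ≤ δ := by
    refine Polynomial.natDegree_sum_le_of_forall_le _ _ fun x hx => ?_
    refine (Polynomial.natDegree_C_mul_X_pow_le _ _).trans ?_
    have h1 := hR x (Finset.mem_of_mem_filter x hx)
    omega
  have hQc : ∃ i, ¬ (q : ℤ) ∣ Q.coeff i := by
    refine ⟨e₀, ?_⟩
    have : Q.coeff e₀ = g 0 (e₀, 0) := by
      rw [hQ, Polynomial.finsetSum_coeff, Finset.sum_eq_single (e₀, 0)]
      · rw [Polynomial.coeff_C_mul, Polynomial.coeff_X_pow]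
        simp
      · intro x hx hne
        rw [Polynomial.coeff_C_mul, Polynomial.coeff_X_pow, if_neg, mul_zero]
        rintro rfl
        exact hne (Prod.ext rfl (Finset.mem_filter.1 hx).2)
      · intro h
        exact (h (Finset.mem_filter.2 ⟨he₀, rfl⟩)).elim
    rw [this]
    exact hg1 0 (by omega) _ he₀
  have hQe : ∀ j < M, j ≠ 0 → (q : ℤ) ^ k ∣ Q.eval (a 0 - a j) := by
    intro j hj hj0
    have h1 := h0 0 (by omega) j hj (Ne.symm hj0)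
    rw [← Finset.sum_filter_add_sum_filter_not R (fun x => x.2 = 0)] at h1
    have h2 : Q.eval (a 0 - a j) = ∑ x ∈ R.filter (fun x => x.2 = 0),
        g 0 x * ((a 0 - a j) ^ x.1 * (s 0 - s j) ^ x.2) := by
      rw [hQ, Polynomial.eval_finsetSum]
      refine Finset.sum_congr rfl fun x hx => ?_
      rw [(Finset.mem_filter.1 hx).2]
      simp
    rw [h2, eq_neg_of_add_eq_zero_left h1, dvd_neg]
    refine Finset.dvd_sum fun x hx => ?_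
    have h3 := (Finset.mem_filter.1 hx).2
    exact (((hs 0 (by omega) j hj).trans (dvd_pow_self _ h3)).mul_left _).mul_left _
  set J := Finset.Ico 1 M with hJ
  have hJne : (J.image fun j => (a 0 - a j) % (q : ℤ) ^ l).Nonempty := by
    refine (Finset.Nonempty.image ?_ _)
    exact ⟨1, Finset.mem_Ico.2 ⟨le_refl _, by omega⟩⟩
  have hJc : (J.image fun j => (a 0 - a j) % (q : ℤ) ^ l).card ≤ δ := by
    refine core_few hPOLY hq hQd hQc hl2 _ fun c hc => ?_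
    obtain ⟨j, hj, rfl⟩ := Finset.mem_image.1 hc
    rw [hJ, Finset.mem_Ico] at hj
    exact ⟨_, rfl, hQe j hj.2 (by omega)⟩
  obtain ⟨y, -, hy⟩ := Finset.exists_le_card_fiber_of_mul_le_card_of_maps_to
    (s := J) (t := J.image fun j => (a 0 - a j) % (q : ℤ) ^ l)
    (f := fun j => (a 0 - a j) % (q : ℤ) ^ l) (n := M₁)
    (fun j hj => Finset.mem_image_of_mem _ hj) hJne (by
      calc (J.image fun j => (a 0 - a j) % (q : ℤ) ^ l).card * M₁ ≤ δ * M₁ :=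
            Nat.mul_le_mul_right _ hJc
        _ ≤ J.card := by rw [hJ, Nat.card_Ico]; omega)
  set K := J.filter (fun j => (a 0 - a j) % (q : ℤ) ^ l = y) with hK
  have hKM : ∀ i ∈ K, i < M := fun i hi => by
    have := (Finset.mem_filter.1 hi).1
    rw [hJ, Finset.mem_Ico] at this
    exact this.2
  have hKl : ∀ i ∈ K, ∀ j ∈ K, (q : ℤ) ^ l ∣ a i - a j := by
    intro i hi j hj
    have h1 := (Finset.mem_filter.1 hi).2
    have h2 := (Finset.mem_filter.1 hj).2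
    have h3 : (a 0 - a j) % (q : ℤ) ^ l = (a 0 - a i) % (q : ℤ) ^ l := by rw [h1, h2]
    have h4 := Int.dvd_of_emod_eq_zero (Int.emod_eq_emod_iff_emod_sub_eq_zero.1 h3)
    have h5 : a 0 - a j - (a 0 - a i) = a i - a j := by ring
    rwa [h5] at h4
  -- step 2
  by_cases hKne : K.Nonempty
  swap
  · rw [Finset.not_nonempty_iff_eq_empty] at hKne
    rw [hKne, Finset.card_empty] at hy
    obtain ⟨t, ht1, ht2, -⟩ := hM₁ ℕ ∅ (fun _ _ => 0) ∅ (by simpa using hy) (by simp) (by simp)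
    rw [Finset.subset_empty.1 ht1, Finset.card_empty] at ht2
    omega
  obtain ⟨i₁, hi₁⟩ := hKne
  have hpair : ∀ i j, ∃ c, i ∈ K → j ∈ K → i ≠ j →
      CoreCol q δ R (g i₁) n₂ n₃ (a i - a j) (s i - s j) c := by
    intro i j
    by_cases h : i ∈ K ∧ j ∈ K ∧ i ≠ j
    · obtain ⟨hi, hj, hij⟩ := h
      obtain ⟨c, hc⟩ := core_pair hTIE hq hR hRne (g i) (g i₁) (a i - a j) (s i - s j) k l n₂ n₃
        (hg1 i (hKM i hi))
        (hg2 i₁ (hKM _ hi₁) i (hKM i hi) l hl3 (hKl _ hi₁ _ hi))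
        hl1 le_rfl hn33 (hKl i hi j hj) (ha i (hKM i hi) j (hKM j hj) hij)
        (hs i (hKM i hi) j (hKM j hj)) (sub_ne_zero.2 (hs' i (hKM i hi) j (hKM j hj) hij))
        (h0 i (hKM i hi) j (hKM j hj) hij)
      exact ⟨c, fun _ _ _ => hc⟩
    · exact ⟨0, fun h1 h2 h3 => absurd ⟨h1, h2, h3⟩ h⟩
  choose col hcol using hpair
  set W : Finset (ℕ × ℕ × ℤ) :=
    ((K ×ˢ K).filter (fun t => t.1 < t.2)).image (fun t => col t.1 t.2) with hW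
  have hWm : ∀ c ∈ W, ∃ i ∈ K, ∃ j ∈ K, i < j ∧ col i j = c := by
    intro c hc
    obtain ⟨t, ht, rfl⟩ := Finset.mem_image.1 hc
    obtain ⟨h1, h2⟩ := Finset.mem_filter.1 ht
    rw [Finset.mem_product] at h1
    exact ⟨t.1, h1.1, t.2, h1.2, h2, rfl⟩
  have hWc : W.card ≤ δ * (δ + 1) ^ 2 := by
    have h1 := Finset.card_le_mul_card_image (f := fun c : ℕ × ℕ × ℤ => (c.1, c.2.1)) W δ ?_
    · refine h1.trans (Nat.mul_le_mul_left _ ?_)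
      have h2 : W.image (fun c : ℕ × ℕ × ℤ => (c.1, c.2.1)) ⊆
          Finset.range (δ + 1) ×ˢ Finset.range (δ + 1) := by
        intro t ht
        obtain ⟨c, hc, rfl⟩ := Finset.mem_image.1 ht
        obtain ⟨i, hi, j, hj, hij, rfl⟩ := hWm c hc
        obtain ⟨e1, e2, e3, -⟩ := hcol i j hi hj hij.ne
        rw [Finset.mem_product, Finset.mem_range, Finset.mem_range]
        constructor <;> dsimp only <;> omega
      refine (Finset.card_le_card h2).trans ?_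
      rw [Finset.card_product, Finset.card_range, pow_two]
    · intro t ht
      obtain ⟨c, hc, rfl⟩ := Finset.mem_image.1 ht
      obtain ⟨i, hi, j, hj, hij, rfl⟩ := hWm c hc
      obtain ⟨-, -, -, e4, -⟩ := hcol i j hi hj hij.ne
      have h3 : (W.filter (fun x => (x.1, x.2.1) = ((col i j).1, (col i j).2.1))).card =
          ((W.filter (fun x => (x.1, x.2.1) = ((col i j).1, (col i j).2.1))).image
            (fun x => x.2.2)).card := by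
        symm
        apply Finset.card_image_of_injOn
        intro x hx x' hx' hxx
        have h5 := (Finset.mem_filter.1 (Finset.mem_coe.1 hx)).2
        have h6 := (Finset.mem_filter.1 (Finset.mem_coe.1 hx')).2
        have h7 := h5.trans h6.symm
        rw [Prod.mk.injEq] at h7
        exact Prod.ext h7.1 (Prod.ext h7.2 hxx)
      rw [h3]
      refine core_few hPOLY hq (core_edge_natDegree R δ hR (g i₁) (col i j).1 (col i j).2.1) e4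
        hn32 _ fun c hc => ?_
      obtain ⟨x, hx, rfl⟩ := Finset.mem_image.1 hc
      obtain ⟨hx1, hx2⟩ := Finset.mem_filter.1 hx
      obtain ⟨i', hi', j', hj', hij', rfl⟩ := hWm x hx1
      obtain ⟨-, -, -, -, e5, -⟩ := hcol i' j' hi' hj' hij'.ne
      rw [Prod.mk.injEq] at hx2
      rwa [hx2.1, hx2.2] at e5
  -- step 3
  obtain ⟨t, htK, htc, γ, hγ⟩ := hM₁ (ℕ × ℕ × ℤ) K col W hy hWc (fun i hi j hj hij =>
    Finset.mem_image.2 ⟨(i, j), Finset.mem_filter.2 ⟨Finset.mem_product.2 ⟨hi, hj⟩, hij⟩, rfl⟩)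
  obtain ⟨p, r, c⟩ := γ
  have hfacts : ∀ i ∈ t, ∀ j ∈ t, i ≠ j → 1 ≤ r ∧ r < p ∧ p ≤ δ ∧
      ∃ (ν κ : ℕ) (α φ ε : ℤ), (ε = 1 ∨ ε = -1) ∧ a i - a j = (q : ℤ) ^ ν * α ∧
        s i - s j = (q : ℤ) ^ κ * φ ∧ ¬ (q : ℤ) ∣ α ∧ ¬ (q : ℤ) ∣ φ ∧ r * κ = p * ν ∧
        φ ^ r ≡ ε * c * α ^ p [ZMOD (q : ℤ) ^ n₃] := by
    intro i hi j hj hij
    rcases lt_or_gt_of_ne hij with hlt | hlt
    · have h1 := hcol i j (htK hi) (htK hj) hij
      rw [hγ i hi j hj hlt] at h1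
      obtain ⟨e1, e2, e3, -, -, ν, κ, A', σ', f1, f2, f3, f4, f5, f6⟩ := h1
      refine ⟨e1, e2, e3, ν, κ, A', σ', 1, Or.inl rfl, f1, f2, f3, f4, f5, ?_⟩
      rw [one_mul]
      exact f6.symm
    · have h1 := hcol j i (htK hj) (htK hi) hij.symm
      rw [hγ j hj i hi hlt] at h1
      obtain ⟨e1, e2, e3, -, -, ν, κ, A', σ', f1, f2, f3, f4, f5, f6⟩ := h1
      obtain ⟨ε, hε, hcong⟩ := core_sym f6
      refine ⟨e1, e2, e3, ν, κ, -A', -σ', ε, hε, ?_, ?_, by rwa [dvd_neg], by rwa [dvd_neg], f5,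
        hcong⟩
      · rw [← neg_sub, f1]; ring
      · rw [← neg_sub, f2]; ring
  have hinj : Set.InjOn a (t : Set ℕ) := by
    intro i hi j hj hij
    by_contra hne
    apply ha i (hKM i (htK hi)) j (hKM j (htK hj)) hne
    rw [hij, sub_self]
    exact dvd_zero _
  obtain ⟨x, hx, y', hy', z, hz, ν, Δ, hΔ1, hΔn, hxy, hxz, hyz, v1, v2, v3⟩ :=
    hTREE q n₃ B k (t.image a) hq hn31 hkB (by
      rw [Finset.card_image_of_injOn hinj]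
      omega) (by
      intro x hx y hy hne
      obtain ⟨i, hi, rfl⟩ := Finset.mem_image.1 hx
      obtain ⟨j, hj, rfl⟩ := Finset.mem_image.1 hy
      exact ha i (hKM i (htK hi)) j (hKM j (htK hj)) (fun h => hne (by rw [h])))
  obtain ⟨X, hX, rfl⟩ := Finset.mem_image.1 hx
  obtain ⟨Y, hY, rfl⟩ := Finset.mem_image.1 hy'
  obtain ⟨Z, hZ, rfl⟩ := Finset.mem_image.1 hz
  obtain ⟨hr1, hrp, hpδ, ν₁, κ₁, α, φ, ε₁, hε₁, a1, b1, c1, d1, e1, f1⟩ :=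
    hfacts X hX Y hY (fun h => hxy (by rw [h]))
  obtain ⟨-, -, -, ν₂, κ₂, β, ψ, ε₂, hε₂, a2, b2, c2, d2, e2, f2⟩ :=
    hfacts X hX Z hZ (fun h => hxz (by rw [h]))
  obtain ⟨-, -, -, ν₃, κ₃, γ', ω', ε₃, -, a3, b3, c3, d3, e3, -⟩ :=
    hfacts Y hY Z hZ (fun h => hyz (by rw [h]))
  have w1 : ν₁ = ν := by rw [← v1, core_val_unique hq a1 c1]
  have w2 : ν₂ = ν := by rw [← v2, core_val_unique hq a2 c2]
  have w3 : ν₃ = ν + Δ := by rw [← v3, core_val_unique hq a3 c3]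
  subst w1 w3
  rw [w2] at a2 e2
  have hκ : κ₂ = κ₁ := Nat.eq_of_mul_eq_mul_left (show 0 < r by omega) (e2.trans e1.symm)
  rw [hκ] at b2
  have hκ3 : κ₁ + Δ < κ₃ := by
    have h1 : r * (κ₁ + Δ) < r * κ₃ := by
      rw [e3, mul_add, mul_add, e1]
      have := Nat.mul_lt_mul_of_pos_right hrp (show 0 < Δ by omega)
      omega
    exact lt_of_mul_lt_mul_left h1 (Nat.zero_le _)
  obtain ⟨Δ', hΔ'⟩ : ∃ Δ', κ₃ = κ₁ + Δ' := ⟨κ₃ - κ₁, by omega⟩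
  have g1 : α - β = (q : ℤ) ^ Δ * (-γ') := by
    have h1 : (q : ℤ) ^ ν₁ * (α - β) = (q : ℤ) ^ ν₁ * ((q : ℤ) ^ Δ * (-γ')) := by
      rw [pow_add] at a3
      linear_combination a2 - a1 - a3
    exact mul_left_cancel₀ (pow_ne_zero _ hqZ) h1
  have g2 : φ - ψ = (q : ℤ) ^ Δ' * (-ω') := by
    have h1 : (q : ℤ) ^ κ₁ * (φ - ψ) = (q : ℤ) ^ κ₁ * ((q : ℤ) ^ Δ' * (-ω')) := by
      rw [hΔ', pow_add] at b3
      linear_combination b2 - b1 - b3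
    exact mul_left_cancel₀ (pow_ne_zero _ hqZ) h1
  obtain ⟨k1, k2⟩ := hTRI q p r n₃ Δ Δ' α β φ ψ (-γ') (-ω') hq hq2
    (Nat.not_dvd_of_pos_of_lt (by omega) (by omega)) (by omega) hΔ1 hΔn (by omega) c1 c2 d1 d2
    (by rwa [dvd_neg]) g1 g2
  have h1 : φ ^ r * β ^ p ≡ ε₁ * c * α ^ p * β ^ p [ZMOD (q : ℤ) ^ n₃] := f1.mul_right _
  have h2 : ψ ^ r * α ^ p ≡ ε₂ * c * β ^ p * α ^ p [ZMOD (q : ℤ) ^ n₃] := f2.mul_right _
  rcases hε₁ with rfl | rfl <;> rcases hε₂ with rfl | rfl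
  · exact k1 (h1.trans ((by ring_nf; rfl : (1 : ℤ) * c * α ^ p * β ^ p ≡ 1 * c * β ^ p * α ^ p
      [ZMOD (q : ℤ) ^ n₃]).trans h2.symm))
  · refine k2 (h1.trans ?_)
    have h3 := h2.neg.symm
    refine Int.ModEq.trans ?_ h3
    ring_nf
    rfl
  · refine k2 (h1.trans ?_)
    have h3 := h2.neg.symm
    refine Int.ModEq.trans ?_ h3
    ring_nf
    rfl
  · refine k1 (h1.trans ?_)
    refine Int.ModEq.trans ?_ h2.symm
    ring_nf
    rfl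

/-- MODULE CORE -/
theorem core (hPOLY : S_POLY) (hTREE : S_TREE) (hRAM : S_RAM) (hTIE : S_TIE) (hTRI : S_TRI) :
    S_CORE := by
  intro q δ R hq hq2 hδ1 hδq hR hR0
  obtain ⟨M, k₀, H⟩ := core_nat hPOLY hTREE hRAM hTIE hTRI q δ R hq hq2 hδ1 hδq hR hR0
  refine ⟨M, k₀, fun k hk a s g h1 h2 h3 h4 h5 => ?_⟩
  by_contra hcon
  push Not at hcon
  obtain ⟨a', ea⟩ : ∃ a' : ℕ → ℤ, ∀ i (hi : i < M), a' i = a ⟨i, hi⟩ :=
    ⟨fun n => if h : n < M then a ⟨n, h⟩ else 0, fun i hi => dif_pos hi⟩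
  obtain ⟨s', es⟩ : ∃ s' : ℕ → ℤ, ∀ i (hi : i < M), s' i = s ⟨i, hi⟩ :=
    ⟨fun n => if h : n < M then s ⟨n, h⟩ else 0, fun i hi => dif_pos hi⟩
  obtain ⟨g', eg⟩ : ∃ g' : ℕ → ℕ × ℕ → ℤ, ∀ i (hi : i < M), g' i = g ⟨i, hi⟩ :=
    ⟨fun n => if h : n < M then g ⟨n, h⟩ else 0, fun i hi => dif_pos hi⟩
  refine H k hk a' s' g' ?_ ?_ ?_ ?_ ?_ ?_
  · intro i hi
    rw [eg i hi]
    exact h1 _
  · intro i hi j hj l hl hd
    rw [ea i hi, ea j hj] at hd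
    rw [eg i hi, eg j hj]
    exact h2 _ _ l hl hd
  · intro i hi j hj hij
    rw [ea i hi, ea j hj]
    exact h3 _ _ (fun h => hij (Fin.mk.inj_iff.1 h))
  · intro i hi j hj
    rw [es i hi, es j hj]
    exact h4 _ _
  · intro i hi j hj hij
    rw [es i hi, es j hj]
    exact h5 _ _ (fun h => hij (Fin.mk.inj_iff.1 h))
  · intro i hi j hj hij
    rw [es i hi, es j hj, ea i hi, ea j hj, eg i hi]
    exact hcon _ _ (fun h => hij (Fin.mk.inj_iff.1 h))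

end Pool.Agent.Helper76.VA
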