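import Pool.Agent.Helper76.VA.Stm

/-!
# Module ENE: the additive energy of `S`-units (helper2)
-/

set_option autoImplicit false

namespace Pool.Agent.Helper76.VA.ENE

open Finset

/-- Cauchy-Schwarz for the number of solutions of `f x = g y` -/
theorem cs {α β γ : Type} [DecidableEq γ] (X : Finset α) (Y : Finset β) (f : α → γ) (g : β → γ) :
    (((X ×ˢ Y).filter fun t => f t.1 = g t.2).card : ℝ) ≤
      √(((X ×ˢ X).filter fun t => f t.1 = f t.2).card : ℝ) *
        √(((Y ×ˢ Y).filter fun t => g t.1 = g t.2).card : ℝ) := by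
  classical
  set Z : Finset γ := X.image f ∪ Y.image g with hZ
  have key : ∀ (α' β' : Type) (X' : Finset α') (Y' : Finset β') (f' : α' → γ) (g' : β' → γ),
      (∀ x ∈ X', f' x ∈ Z) →
      (((X' ×ˢ Y').filter fun t => f' t.1 = g' t.2).card : ℝ) =
        ∑ z ∈ Z, ((X'.filter fun x => f' x = z).card : ℝ) * ((Y'.filter fun y => g' y = z).card : ℝ) := by
    intro α' β' X' Y' f' g' h
    have h1 := card_eq_sum_card_fiberwise (s := (X' ×ˢ Y').filter fun t => f' t.1 = g' t.2)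
      (t := Z) (f := fun t => f' t.1) (fun t ht => by
        have ht' := mem_filter.1 (mem_coe.1 ht)
        exact mem_coe.2 (h _ (mem_product.1 ht'.1).1))
    rw [h1]
    push_cast
    refine sum_congr rfl fun z _ => ?_
    rw [← Nat.cast_mul, ← card_product]
    congr 2
    ext t
    simp only [mem_filter, mem_product]
    constructor
    · rintro ⟨⟨⟨h1, h2⟩, h3⟩, h4⟩
      exact ⟨⟨h1, h4⟩, h2, by rw [← h3, h4]⟩
    · rintro ⟨⟨h1, h2⟩, h3, h4⟩
      exact ⟨⟨⟨h1, h3⟩, by rw [h2, h4]⟩, h2⟩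
  have hX : ∀ x ∈ X, f x ∈ Z := fun x hx => mem_union_left _ (mem_image_of_mem f hx)
  have hY : ∀ y ∈ Y, g y ∈ Z := fun y hy => mem_union_right _ (mem_image_of_mem g hy)
  rw [key _ _ X Y f g hX, key _ _ X X f f hX, key _ _ Y Y g g hY]
  have h := Real.sum_mul_le_sqrt_mul_sqrt Z (fun z => ((X.filter fun x => f x = z).card : ℝ))
    (fun z => ((Y.filter fun y => g y = z).card : ℝ))
  refine h.trans (le_of_eq ?_)
  congr 2 <;> exact sum_congr rfl fun z _ => by ring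

/-- the additive energy of a set of natural numbers -/
def EE (A : Finset ℕ) : ℕ := (((A ×ˢ A) ×ˢ (A ×ˢ A)).filter
  fun t : (ℕ × ℕ) × (ℕ × ℕ) => t.1.1 + t.1.2 = t.2.1 + t.2.2).card

/-- solutions of `a - c = d - b` -/
def DD (A B : Finset ℕ) : ℕ := (((A ×ˢ A) ×ˢ (B ×ˢ B)).filter
  fun t : (ℕ × ℕ) × (ℕ × ℕ) => (t.1.1 : ℤ) - t.1.2 = t.2.1 - t.2.2).card

/-- solutions of `a + c = d + b` -/
def SS (A B : Finset ℕ) : ℕ := (((A ×ˢ A) ×ˢ (B ×ˢ B)).filter
  fun t : (ℕ × ℕ) × (ℕ × ℕ) => t.1.1 + t.1.2 = t.2.1 + t.2.2).card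

theorem ss_le (A B : Finset ℕ) : (SS A B : ℝ) ≤ √(EE A) * √(EE B) :=
  cs (A ×ˢ A) (B ×ˢ B) (fun x => x.1 + x.2) (fun x => x.1 + x.2)

theorem dd_self (A : Finset ℕ) : DD A A ≤ EE A := by
  refine card_le_card_of_injOn (fun t => ((t.1.1, t.2.2), (t.2.1, t.1.2))) ?_ ?_
  · intro t ht
    simp only [DD, coe_filter, mem_product, Set.mem_ofPred_eq] at ht ⊢
    refine ⟨⟨⟨ht.1.1.1, ht.1.2.2⟩, ht.1.2.1, ht.1.1.2⟩, ?_⟩
    have := ht.2
    omega
  · rintro ⟨⟨a, b⟩, c, d⟩ _ ⟨⟨a', b'⟩, c', d'⟩ _ h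
    simp only [Prod.mk.injEq] at h ⊢
    tauto

theorem dd_le (A B : Finset ℕ) : (DD A B : ℝ) ≤ √(EE A) * √(EE B) := by
  have h := cs (A ×ˢ A) (B ×ˢ B) (fun x => (x.1 : ℤ) - x.2) (fun x => (x.1 : ℤ) - x.2)
  refine h.trans ?_
  gcongr
  · exact dd_self A
  · exact dd_self B

/-- two of the four numbers in `a + b = c + d` have the same valuation -/
theorem val {p : ℕ} (hp : p.Prime) {a b c d : ℕ} (ha : a ≠ 0) (hb : b ≠ 0) (hc : c ≠ 0)
    (hd : d ≠ 0) (h : a + b = c + d) :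
    padicValNat p a = padicValNat p b ∨ padicValNat p a = padicValNat p c ∨
    padicValNat p a = padicValNat p d ∨ padicValNat p b = padicValNat p c ∨
    padicValNat p b = padicValNat p d ∨ padicValNat p c = padicValNat p d := by
  have := Fact.mk hp
  -- one number cannot have a smaller valuation than the three others
  have key : ∀ x y z w : ℕ, x ≠ 0 → y ≠ 0 → z ≠ 0 → w ≠ 0 →
      ((x : ℤ) = y + z - w ∨ (x : ℤ) = y - z + w ∨ (x : ℤ) = y + z + w ∨ (x : ℤ) = - y + z + w) →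
      padicValNat p x < padicValNat p y → padicValNat p x < padicValNat p z →
      padicValNat p x < padicValNat p w → False := by
    intro x y z w hx hy hz hw hh h1 h2 h3
    have d1 : ((p ^ (padicValNat p x + 1) : ℕ) : ℤ) ∣ y :=
      Int.natCast_dvd_natCast.2 ((padicValNat_dvd_iff_le hy).2 h1)
    have d2 : ((p ^ (padicValNat p x + 1) : ℕ) : ℤ) ∣ z :=
      Int.natCast_dvd_natCast.2 ((padicValNat_dvd_iff_le hz).2 h2)
    have d3 : ((p ^ (padicValNat p x + 1) : ℕ) : ℤ) ∣ w :=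
      Int.natCast_dvd_natCast.2 ((padicValNat_dvd_iff_le hw).2 h3)
    have d4 : ((p ^ (padicValNat p x + 1) : ℕ) : ℤ) ∣ x := by
      rcases hh with hh | hh | hh | hh <;> rw [hh]
      · exact dvd_sub (dvd_add d1 d2) d3
      · exact dvd_add (dvd_sub d1 d2) d3
      · exact dvd_add (dvd_add d1 d2) d3
      · exact dvd_add (dvd_add ((dvd_neg).2 d1) d2) d3
    have d5 := Int.natCast_dvd_natCast.1 d4
    have := (padicValNat_dvd_iff_le hx).1 d5
    omega
  by_contra hne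
  push Not at hne
  obtain ⟨n1, n2, n3, n4, n5, n6⟩ := hne
  have hz : (a : ℤ) + b = c + d := by exact_mod_cast h
  have ka := key a c d b ha hc hd hb (Or.inl (by linarith))
  have kb := key b c d a hb hc hd ha (Or.inl (by linarith))
  have kc := key c a b d hc ha hb hd (Or.inl (by linarith))
  have kd := key d a b c hd ha hb hc (Or.inl (by linarith))
  by_contra _
  rcases lt_or_gt_of_ne n1 with h1 | h1 <;> rcases lt_or_gt_of_ne n2 with h2 | h2 <;>
    rcases lt_or_gt_of_ne n3 with h3 | h3 <;> rcases lt_or_gt_of_ne n4 with h4 | h4 <;>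
    rcases lt_or_gt_of_ne n5 with h5 | h5 <;> rcases lt_or_gt_of_ne n6 with h6 | h6 <;>
    first
      | exact ka (by omega) (by omega) (by omega)
      | exact kb (by omega) (by omega) (by omega)
      | exact kc (by omega) (by omega) (by omega)
      | exact kd (by omega) (by omega) (by omega)

/-- the part with valuation `j` -/
def Pt (p : ℕ) (A : Finset ℕ) (j : ℕ) : Finset ℕ := A.filter fun a => padicValNat p a = j

theorem step {p : ℕ} (hp : p.Prime) (A : Finset ℕ) (hA : ∀ a ∈ A, a ≠ 0) :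
    (EE A : ℝ) ≤ 6 * (√(EE A) * ∑ j ∈ A.image (padicValNat p), √(EE (Pt p A j))) := by
  classical
  set J := A.image (padicValNat p) with hJ
  set Q := ((A ×ˢ A) ×ˢ (A ×ˢ A)).filter
    fun t : (ℕ × ℕ) × (ℕ × ℕ) => t.1.1 + t.1.2 = t.2.1 + t.2.2 with hQ
  -- the six kinds of quadruples
  set q12 : ℕ → Finset ((ℕ × ℕ) × (ℕ × ℕ)) := fun j =>
    Q.filter fun t => t.1.1 ∈ Pt p A j ∧ t.1.2 ∈ Pt p A j
  set q13 : ℕ → Finset ((ℕ × ℕ) × (ℕ × ℕ)) := fun j =>
    Q.filter fun t => t.1.1 ∈ Pt p A j ∧ t.2.1 ∈ Pt p A j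
  set q14 : ℕ → Finset ((ℕ × ℕ) × (ℕ × ℕ)) := fun j =>
    Q.filter fun t => t.1.1 ∈ Pt p A j ∧ t.2.2 ∈ Pt p A j
  set q23 : ℕ → Finset ((ℕ × ℕ) × (ℕ × ℕ)) := fun j =>
    Q.filter fun t => t.1.2 ∈ Pt p A j ∧ t.2.1 ∈ Pt p A j
  set q24 : ℕ → Finset ((ℕ × ℕ) × (ℕ × ℕ)) := fun j =>
    Q.filter fun t => t.1.2 ∈ Pt p A j ∧ t.2.2 ∈ Pt p A j
  set q34 : ℕ → Finset ((ℕ × ℕ) × (ℕ × ℕ)) := fun j =>
    Q.filter fun t => t.2.1 ∈ Pt p A j ∧ t.2.2 ∈ Pt p A j
  have hsub : Q ⊆ J.biUnion fun j => q12 j ∪ q13 j ∪ q14 j ∪ q23 j ∪ q24 j ∪ q34 j := by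
    intro t ht
    have ht' := ht
    rw [hQ, mem_filter, mem_product, mem_product, mem_product] at ht
    obtain ⟨⟨⟨h1, h2⟩, h3, h4⟩, h5⟩ := ht
    have hv := val hp (hA _ h1) (hA _ h2) (hA _ h3) (hA _ h4) h5
    have m : ∀ x ∈ A, ∀ y ∈ A, padicValNat p x = padicValNat p y →
        padicValNat p y ∈ J ∧ x ∈ Pt p A (padicValNat p y) ∧ y ∈ Pt p A (padicValNat p y) :=
      fun x hx y hy h => ⟨mem_image_of_mem _ hy, mem_filter.2 ⟨hx, h⟩, mem_filter.2 ⟨hy, rfl⟩⟩
    rw [mem_biUnion]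
    rcases hv with h | h | h | h | h | h
    · obtain ⟨e1, e2, e3⟩ := m _ h1 _ h2 h
      exact ⟨_, e1, by simp only [mem_union]; simp only [q12, mem_filter]; tauto⟩
    · obtain ⟨e1, e2, e3⟩ := m _ h1 _ h3 h
      exact ⟨_, e1, by simp only [mem_union]; simp only [q13, mem_filter]; tauto⟩
    · obtain ⟨e1, e2, e3⟩ := m _ h1 _ h4 h
      exact ⟨_, e1, by simp only [mem_union]; simp only [q14, mem_filter]; tauto⟩
    · obtain ⟨e1, e2, e3⟩ := m _ h2 _ h3 h
      exact ⟨_, e1, by simp only [mem_union]; simp only [q23, mem_filter]; tauto⟩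
    · obtain ⟨e1, e2, e3⟩ := m _ h2 _ h4 h
      exact ⟨_, e1, by simp only [mem_union]; simp only [q24, mem_filter]; tauto⟩
    · obtain ⟨e1, e2, e3⟩ := m _ h3 _ h4 h
      exact ⟨_, e1, by simp only [mem_union]; simp only [q34, mem_filter]; tauto⟩
  have b12 : ∀ j, (q12 j).card ≤ SS (Pt p A j) A := by
    intro j
    refine card_le_card fun t ht => ?_
    simp only [q12, hQ, mem_filter, mem_product] at ht ⊢
    tauto
  have b34 : ∀ j, (q34 j).card ≤ SS (Pt p A j) A := by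
    intro j
    refine card_le_card_of_injOn (fun t => (t.2, t.1)) ?_ ?_
    · intro t ht
      simp only [q34, hQ, coe_filter, mem_filter, mem_product, Set.mem_ofPred_eq] at ht ⊢
      have := ht.1.2
      exact ⟨⟨ht.2, ht.1.1.1⟩, this.symm⟩
    · rintro ⟨⟨a, b⟩, c, d⟩ _ ⟨⟨a', b'⟩, c', d'⟩ _ h
      simp only [Prod.mk.injEq] at h ⊢
      tauto
  have bD : ∀ (q : Finset ((ℕ × ℕ) × (ℕ × ℕ))) (j : ℕ)
      (φ : (ℕ × ℕ) × (ℕ × ℕ) → (ℕ × ℕ) × (ℕ × ℕ)), Set.InjOn φ q →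
      (∀ t ∈ q, (φ t).1.1 ∈ Pt p A j ∧ (φ t).1.2 ∈ Pt p A j ∧ (φ t).2.1 ∈ A ∧ (φ t).2.2 ∈ A ∧
        ((φ t).1.1 : ℤ) - (φ t).1.2 = (φ t).2.1 - (φ t).2.2) → q.card ≤ DD (Pt p A j) A := by
    intro q j φ hφ h
    refine card_le_card_of_injOn φ ?_ hφ
    intro t ht
    obtain ⟨h1, h2, h3, h4, h5⟩ := h t ht
    simp only [coe_filter, mem_product, Set.mem_ofPred_eq]
    exact ⟨⟨⟨h1, h2⟩, h3, h4⟩, h5⟩
  have b13 : ∀ j, (q13 j).card ≤ DD (Pt p A j) A := by
    intro j
    refine bD _ j (fun t => ((t.1.1, t.2.1), (t.2.2, t.1.2))) ?_ ?_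
    · rintro ⟨⟨a, b⟩, c, d⟩ _ ⟨⟨a', b'⟩, c', d'⟩ _ h
      simp only [Prod.mk.injEq] at h ⊢
      tauto
    · intro t ht
      simp only [q13, hQ, mem_filter, mem_product] at ht
      refine ⟨ht.2.1, ht.2.2, ht.1.1.2.2, ht.1.1.1.2, ?_⟩
      have := ht.1.2
      push_cast [← @Nat.cast_inj ℤ] at this
      show (t.1.1 : ℤ) - t.2.1 = t.2.2 - t.1.2
      linarith
  have b14 : ∀ j, (q14 j).card ≤ DD (Pt p A j) A := by
    intro j
    refine bD _ j (fun t => ((t.1.1, t.2.2), (t.2.1, t.1.2))) ?_ ?_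
    · rintro ⟨⟨a, b⟩, c, d⟩ _ ⟨⟨a', b'⟩, c', d'⟩ _ h
      simp only [Prod.mk.injEq] at h ⊢
      tauto
    · intro t ht
      simp only [q14, hQ, mem_filter, mem_product] at ht
      refine ⟨ht.2.1, ht.2.2, ht.1.1.2.1, ht.1.1.1.2, ?_⟩
      have := ht.1.2
      push_cast [← @Nat.cast_inj ℤ] at this
      show (t.1.1 : ℤ) - t.2.2 = t.2.1 - t.1.2
      linarith
  have b23 : ∀ j, (q23 j).card ≤ DD (Pt p A j) A := by
    intro j
    refine bD _ j (fun t => ((t.1.2, t.2.1), (t.2.2, t.1.1))) ?_ ?_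
    · rintro ⟨⟨a, b⟩, c, d⟩ _ ⟨⟨a', b'⟩, c', d'⟩ _ h
      simp only [Prod.mk.injEq] at h ⊢
      tauto
    · intro t ht
      simp only [q23, hQ, mem_filter, mem_product] at ht
      refine ⟨ht.2.1, ht.2.2, ht.1.1.2.2, ht.1.1.1.1, ?_⟩
      have := ht.1.2
      push_cast [← @Nat.cast_inj ℤ] at this
      show (t.1.2 : ℤ) - t.2.1 = t.2.2 - t.1.1
      linarith
  have b24 : ∀ j, (q24 j).card ≤ DD (Pt p A j) A := by
    intro j
    refine bD _ j (fun t => ((t.1.2, t.2.2), (t.2.1, t.1.1))) ?_ ?_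
    · rintro ⟨⟨a, b⟩, c, d⟩ _ ⟨⟨a', b'⟩, c', d'⟩ _ h
      simp only [Prod.mk.injEq] at h ⊢
      tauto
    · intro t ht
      simp only [q24, hQ, mem_filter, mem_product] at ht
      refine ⟨ht.2.1, ht.2.2, ht.1.1.2.1, ht.1.1.1.1, ?_⟩
      have := ht.1.2
      push_cast [← @Nat.cast_inj ℤ] at this
      show (t.1.2 : ℤ) - t.2.2 = t.2.1 - t.1.1
      linarith
  have hcard : Q.card ≤ ∑ j ∈ J, (2 * SS (Pt p A j) A + 4 * DD (Pt p A j) A) := by
    refine (card_le_card hsub).trans (card_biUnion_le.trans (sum_le_sum fun j _ => ?_))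
    have u1 := card_union_le (q12 j ∪ q13 j ∪ q14 j ∪ q23 j ∪ q24 j) (q34 j)
    have u2 := card_union_le (q12 j ∪ q13 j ∪ q14 j ∪ q23 j) (q24 j)
    have u3 := card_union_le (q12 j ∪ q13 j ∪ q14 j) (q23 j)
    have u4 := card_union_le (q12 j ∪ q13 j) (q14 j)
    have u5 := card_union_le (q12 j) (q13 j)
    have := b12 j; have := b13 j; have := b14 j; have := b23 j; have := b24 j; have := b34 j
    omega
  have hE : (EE A : ℝ) = Q.card := rfl
  rw [hE]
  calc (Q.card : ℝ) ≤ ((∑ j ∈ J, (2 * SS (Pt p A j) A + 4 * DD (Pt p A j) A) : ℕ) : ℝ) := by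
        exact_mod_cast hcard
    _ = ∑ j ∈ J, (2 * (SS (Pt p A j) A : ℝ) + 4 * (DD (Pt p A j) A : ℝ)) := by push_cast; rfl
    _ ≤ ∑ j ∈ J, 6 * (√(EE A) * √(EE (Pt p A j))) := by
        refine sum_le_sum fun j _ => ?_
        have h1 := ss_le (Pt p A j) A
        have h2 := dd_le (Pt p A j) A
        nlinarith
    _ = 6 * (√(EE A) * ∑ j ∈ J, √(EE (Pt p A j))) := by
        rw [mul_sum, mul_sum]

theorem bound (S : Finset ℕ) : ∀ A : Finset ℕ, (∀ a ∈ A, a ≠ 0) →
    (∀ p : ℕ, p.Prime → p ∉ S → ∀ a ∈ A, ∀ b ∈ A, padicValNat p a = padicValNat p b) →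
    √(EE A) ≤ 6 ^ S.card * A.card := by
  classical
  induction S using Finset.induction_on with
  | empty =>
    intro A hA h
    have hsub : A.card ≤ 1 := by
      rw [card_le_one]
      intro a ha b hb
      refine Nat.eq_of_factorization_eq (hA a ha) (hA b hb) fun p => ?_
      by_cases hp : p.Prime
      · rw [Nat.factorization_def _ hp, Nat.factorization_def _ hp]
        exact h p hp (notMem_empty p) a ha b hb
      · rw [Nat.factorization_eq_zero_of_not_prime _ hp, Nat.factorization_eq_zero_of_not_prime _ hp]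
    have h1 : EE A ≤ (A.card * A.card) * (A.card * A.card) := by
      refine (card_filter_le _ _).trans ?_
      rw [card_product, card_product]
    rw [card_empty, pow_zero, one_mul]
    interval_cases hc : A.card
    · have : EE A = 0 := by omega
      rw [this]
      simp
    · have : EE A ≤ 1 := by omega
      rw [Nat.cast_one, ← Real.sqrt_one]
      exact Real.sqrt_le_sqrt (by exact_mod_cast this)
  | insert p S hpS ih =>
    intro A hA h
    by_cases hp : p.Prime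
    · have h1 := step hp A hA
      have h2 : ∀ j, √(EE (Pt p A j)) ≤ 6 ^ S.card * (Pt p A j).card := by
        intro j
        refine ih _ (fun a ha => hA a (mem_filter.1 ha).1) ?_
        intro q hq hqS a ha b hb
        by_cases hqp : q = p
        · subst hqp
          rw [(mem_filter.1 ha).2, (mem_filter.1 hb).2]
        · have hq' : q ∉ insert p S := by
            rw [mem_insert]
            rintro (h' | h')
            · exact hqp h'
            · exact hqS h'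
          exact h q hq hq' a (mem_filter.1 ha).1 b (mem_filter.1 hb).1
      have h3 : ∑ j ∈ A.image (padicValNat p), √(EE (Pt p A j)) ≤ 6 ^ S.card * A.card := by
        calc _ ≤ ∑ j ∈ A.image (padicValNat p), 6 ^ S.card * ((Pt p A j).card : ℝ) :=
              sum_le_sum fun j _ => h2 j
          _ = 6 ^ S.card * ((∑ j ∈ A.image (padicValNat p), (Pt p A j).card : ℕ) : ℝ) := by
              rw [← mul_sum]; push_cast; rfl
          _ = _ := by
              congr 2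
              exact (card_eq_sum_card_image (padicValNat p) A).symm
      rw [card_insert_of_notMem hpS, pow_succ]
      set e := √(EE A : ℝ) with he
      have he0 : 0 ≤ e := Real.sqrt_nonneg _
      have hee : (EE A : ℝ) = e * e := (Real.mul_self_sqrt (Nat.cast_nonneg _)).symm
      rw [hee] at h1
      rcases he0.eq_or_lt with h0 | h0
      · rw [← h0]
        exact mul_nonneg (mul_nonneg (pow_nonneg (by norm_num) _) (by norm_num)) (Nat.cast_nonneg _)
      · have h4 : e ≤ 6 * ∑ j ∈ A.image (padicValNat p), √(EE (Pt p A j)) := by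
          have : e * e ≤ e * (6 * ∑ j ∈ A.image (padicValNat p), √(EE (Pt p A j))) := by
            linarith
          exact le_of_mul_le_mul_left this h0
        linarith
    · have h1 := ih A hA fun q hq hqS => h q hq (by
        rw [mem_insert]
        rintro (rfl | h')
        · exact hp hq
        · exact hqS h')
      rw [card_insert_of_notMem hpS]
      refine h1.trans ?_
      gcongr
      · norm_num
      · omega

theorem sunit {S A : Finset ℕ} (hA : ∀ a ∈ A, a ≠ 0 ∧ ∀ p, p.Prime → p ∣ a → p ∈ S) :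
    √(EE A) ≤ 6 ^ S.card * A.card := by
  refine bound S A (fun a ha => (hA a ha).1) ?_
  intro p hp hpS a ha b hb
  rw [padicValNat.eq_zero_of_not_dvd fun h => hpS ((hA a ha).2 p hp h),
    padicValNat.eq_zero_of_not_dvd fun h => hpS ((hA b hb).2 p hp h)]

theorem ene (S A B : Finset ℕ)
    (hA : ∀ a ∈ A, a ≠ 0 ∧ ∀ p, p.Prime → p ∣ a → p ∈ S)
    (hB : ∀ a ∈ B, a ≠ 0 ∧ ∀ p, p.Prime → p ∣ a → p ∈ S) :
    (((A ×ˢ B) ×ˢ (A ×ˢ B)).filter
      (fun t : (ℕ × ℕ) × (ℕ × ℕ) => t.1.1 + t.1.2 = t.2.1 + t.2.2)).card ≤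
      36 ^ S.card * (A.card * B.card) := by
  have h1 : (((A ×ˢ B) ×ˢ (A ×ˢ B)).filter
      (fun t : (ℕ × ℕ) × (ℕ × ℕ) => t.1.1 + t.1.2 = t.2.1 + t.2.2)).card ≤ DD A B := by
    refine card_le_card_of_injOn (fun t => ((t.1.1, t.2.1), (t.2.2, t.1.2))) ?_ ?_
    · intro t ht
      simp only [coe_filter, mem_product, Set.mem_ofPred_eq] at ht ⊢
      refine ⟨⟨⟨ht.1.1.1, ht.1.2.1⟩, ht.1.2.2, ht.1.1.2⟩, ?_⟩
      have := ht.2
      push_cast [← @Nat.cast_inj ℤ] at this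
      linarith
    · rintro ⟨⟨a, b⟩, c, d⟩ _ ⟨⟨a', b'⟩, c', d'⟩ _ h
      simp only [Prod.mk.injEq] at h ⊢
      tauto
  have h2 := dd_le A B
  have h3 := sunit hA
  have h4 := sunit hB
  have h5 : (DD A B : ℝ) ≤ ((36 ^ S.card * (A.card * B.card) : ℕ) : ℝ) := by
    calc (DD A B : ℝ) ≤ √(EE A) * √(EE B) := h2
      _ ≤ (6 ^ S.card * A.card) * (6 ^ S.card * B.card) :=
          mul_le_mul h3 h4 (Real.sqrt_nonneg _) (by positivity)
      _ = ((36 ^ S.card * (A.card * B.card) : ℕ) : ℝ) := by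
          push_cast
          rw [show (36 : ℝ) = 6 * 6 by norm_num, mul_pow]
          ring
  exact h1.trans (by exact_mod_cast h5)

end Pool.Agent.Helper76.VA.ENE

namespace Pool.Agent.Helper76.VA

/-- MODULE ENE: additive energy of `S`-units -/
theorem ene : S_ENE := fun S A B hA hB => ENE.ene S A B hA hB

end Pool.Agent.Helper76.VA

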