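import Pool.Agent.Helper76.VA.FinB

/-!
# Assembly, the end
-/

set_option autoImplicit false

namespace Pool.Agent.Helper76.VA

open Finset NumberField Pool.Agent.W222.ABCD

theorem card_primes (y : ℕ) :
    ((range (y + 1)).filter Nat.Prime).card = Nat.primeCounting y := by
  rw [Nat.primeCounting, Nat.primeCounting', Nat.count_eq_card_filter_range]

/-- the combinatorial part: an integral point -/
theorem point (hSUM : S_SUM) (hRES : S_RES) {m f f' : ℕ} (e4 : Fin m ≃ Fin 4 ⊕ Fin f)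
    (e2 : Fin m ≃ Fin 2 ⊕ Fin f') (G : MvPolynomial (Fin m) ℤ)
    (g4 : MvPolynomial (Fin 4) ℤ) (g2 : MvPolynomial (Fin 2) ℤ) (D D2 D4 B q y X M k₀ : ℕ)
    (x₀ y₀ : ℤ)
    (hD2 : ∀ v : Fin 2 → ℤ, MvPolynomial.eval v g2 ≠ 0 → ∀ T : ℤ, T ≠ 0 →
      ∃ e : Fin f' → ℕ, (∀ i, e i ≤ D2) ∧
        MvPolynomial.eval (Sum.elim v fun i => T * 2 ^ e i) (MvPolynomial.rename e2 G) ≠ 0)
    (hTW : ∀ Q : ℕ, B ≤ Q → ∀ a a' : ℕ, 0 < a → 0 < a' → a ≠ a' → Nat.Coprime a Q →
      Nat.Coprime a' Q → (a : ℤ) ≡ a' [ZMOD Q] →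
      ∃ e ≤ D, MvPolynomial.eval ![(2 : ℤ) ^ e * a, -((2 : ℤ) ^ e * a')] g2 ≠ 0)
    (hD4 : ∀ v : Fin 4 → ℤ, MvPolynomial.eval v g4 ≠ 0 → ∀ T : ℤ, T ≠ 0 →
      ∃ e : Fin f → ℕ, (∀ i, e i ≤ D4) ∧
        MvPolynomial.eval (Sum.elim v fun i => T * 2 ^ e i) (MvPolynomial.rename e4 G) ≠ 0)
    (hq : q.Prime) (hq2 : q ≠ 2) (hqy : q ≤ y) (h2y : 2 ≤ y)
    (hx₀ : ¬ (q : ℤ) ∣ x₀) (hy₀ : ¬ (q : ℤ) ∣ y₀)
    (hGEN : ∀ k, k₀ ≤ k → ∀ (a b : Fin M → ℤ), (∀ i, a i ≡ x₀ [ZMOD q]) →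
      (∀ i, b i ≡ y₀ [ZMOD q]) → (∀ i j, i ≠ j → ¬ (q : ℤ) ^ k ∣ a i - a j) →
      (∀ i j, (q : ℤ) ^ k ∣ (a i + b i) - (a j + b j)) →
      (∀ i j, i ≠ j → a i + b i ≠ a j + b j) →
      ∃ i j, i ≠ j ∧ MvPolynomial.eval ![a i, b i, -a j, -b j] g4 ≠ 0)
    (C w : ℝ) (hw : 0 ≤ w)
    (hC : (k₀ + 4) * Real.log q + Real.log (M + 1) + Real.log (B + 1) +
      (D2 + D4 + D) * Real.log 2 ≤ C)
    (hX1 : 1 ≤ X)
    (hU : C + 2 * Real.log (U q y X).card ≤ Real.log X)
    (hU1 : w + Real.log (primorial y) +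
      (Nat.primeCounting y : ℝ) * Real.log 36 + C ≤ 2 * Real.log (U q y (X / q)).card) :
    ∃ k : ℕ, w + Real.log (primorial y) + Real.log q ≤ k * Real.log q ∧
    ∃ z : Fin m → ℤ, MvPolynomial.eval z G ≠ 0 ∧ (∀ i, z i ≠ 0) ∧
      (∀ i, |z i| ≤ ((2 ^ D * X : ℕ) : ℤ)) ∧
      (∀ i, ∀ p : ℕ, p.Prime → (p : ℤ) ∣ z i → p ∣ primorial y) ∧
      (q : ℤ) ^ k ∣ ∑ i, z i ∧ (∃ i, ¬ (q : ℤ) ∣ z i) := by
  classical
  have hq1 : 1 < q := hq.one_lt
  have hlq : 0 < Real.log q := Real.log_pos (by exact_mod_cast hq1)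
  have hl2 : 0 < Real.log 2 := Real.log_pos (by norm_num)
  have hlM : 0 ≤ Real.log ((M : ℝ) + 1) := Real.log_nonneg (by
    have : (0 : ℝ) ≤ M := Nat.cast_nonneg M
    linarith)
  have hlB : 0 ≤ Real.log ((B : ℝ) + 1) := Real.log_nonneg (by
    have : (0 : ℝ) ≤ B := Nat.cast_nonneg B
    linarith)
  have hprim : 0 ≤ Real.log (primorial y) := Real.log_nonneg (by
    exact_mod_cast primorial_pos y)
  obtain ⟨S, hS⟩ : ∃ S : Finset ℕ, S = (range (y + 1)).filter Nat.Prime := ⟨_, rfl⟩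
  have hScard : S.card = Nat.primeCounting y := by rw [hS, card_primes]
  obtain ⟨A, hA⟩ : ∃ A : Finset ℕ, A = Uc q y X x₀ := ⟨_, rfl⟩
  obtain ⟨Bs, hBs⟩ : ∃ Bs : Finset ℕ, Bs = Uc q y X y₀ := ⟨_, rfl⟩
  have hAU : ∀ a ∈ A, a ∈ U q y X ∧ (a : ℤ) ≡ x₀ [ZMOD q] := by
    intro a ha
    rw [hA, Uc, mem_filter] at ha
    exact ha
  have hBU : ∀ a ∈ Bs, a ∈ U q y X ∧ (a : ℤ) ≡ y₀ [ZMOD q] := by
    intro a ha
    rw [hBs, Uc, mem_filter] at ha
    exact ha
  have hSU : ∀ a ∈ U q y X, a ≠ 0 ∧ ∀ p, p.Prime → p ∣ a → p ∈ S := by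
    intro a ha
    refine ⟨by have := mem_U.1 ha; omega, fun p hp hpa => ?_⟩
    rw [hS, mem_filter, mem_range]
    exact ⟨by have := (prime_of_dvd ha hp hpa).1; omega, hp⟩
  obtain ⟨T, hT, hTinj, hTcard⟩ := hSUM S A Bs (fun a ha => hSU a (hAU a ha).1)
    (fun a ha => hSU a (hBU a ha).1)
  have h1 := hRES q y X x₀ hq hqy hx₀
  have h2 := hRES q y X y₀ hq hqy hy₀
  rw [← hA] at h1
  rw [← hBs] at h2
  -- positivity of `U q y (X / q)`
  have hU1pos : 0 < (U q y (X / q)).card := by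
    rcases Nat.eq_zero_or_pos (U q y (X / q)).card with h | h
    · exfalso
      rw [h] at hU1
      simp only [Nat.cast_zero, Real.log_zero, mul_zero] at hU1
      have h36 : 0 ≤ (Nat.primeCounting y : ℝ) * Real.log 36 :=
        mul_nonneg (Nat.cast_nonneg _) (Real.log_nonneg (by norm_num))
      have hCpos : 0 < C := by
        have h3 : 0 ≤ ((k₀ : ℝ) + 0) * Real.log q := by positivity
        have h4 : 0 ≤ ((D2 : ℝ) + D4 + D) * Real.log 2 := by positivity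
        nlinarith
      linarith
    · exact h
  have hApos : 0 < A.card := by
    rcases Nat.eq_zero_or_pos A.card with h | h
    · rw [h] at h1
      omega
    · exact h
  have hBpos : 0 < Bs.card := by
    rcases Nat.eq_zero_or_pos Bs.card with h | h
    · rw [h] at h2
      omega
    · exact h
  have hTpos : 0 < T.card := by
    rcases Nat.eq_zero_or_pos T.card with h | h
    · rw [h, mul_zero] at hTcard
      have := Nat.mul_pos hApos hBpos
      omega
    · exact h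
  -- the inequality for `T`
  have hmul : (U q y (X / q)).card * (U q y (X / q)).card ≤ q ^ 2 * (36 ^ S.card * T.card) := by
    calc (U q y (X / q)).card * (U q y (X / q)).card ≤ (q * A.card) * (q * Bs.card) :=
          Nat.mul_le_mul h1 h2
      _ = q ^ 2 * (A.card * Bs.card) := by ring
      _ ≤ q ^ 2 * (36 ^ S.card * T.card) := Nat.mul_le_mul_left _ hTcard
  have hlog : 2 * Real.log (U q y (X / q)).card ≤
      2 * Real.log q + ((Nat.primeCounting y : ℝ) * Real.log 36 + Real.log T.card) := by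
    have hc : ((U q y (X / q)).card : ℝ) * (U q y (X / q)).card ≤
        (q : ℝ) ^ 2 * (36 ^ S.card * T.card) := by exact_mod_cast hmul
    have hU1' : (0 : ℝ) < (U q y (X / q)).card := by exact_mod_cast hU1pos
    have hT' : (0 : ℝ) < T.card := by exact_mod_cast hTpos
    have hq' : (0 : ℝ) < q := by exact_mod_cast hq.pos
    have := Real.log_le_log (by positivity) hc
    rw [Real.log_mul hU1'.ne' hU1'.ne', Real.log_mul (by positivity) (by positivity),
      Real.log_mul (by positivity) hT'.ne', Real.log_pow, Real.log_pow, hScard] at this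
    push_cast at this
    linarith
  obtain ⟨k, hk⟩ : ∃ k : ℕ, k = Nat.log q (T.card / (M + 1)) := ⟨_, rfl⟩
  have hTk : T.card < (M + 1) * q ^ (k + 1) := by
    have h3 := Nat.lt_pow_succ_log_self hq1 (T.card / (M + 1))
    rw [← hk, Nat.div_lt_iff_lt_mul (by omega)] at h3
    rw [Nat.mul_comm]
    exact h3
  have hTk' : Real.log T.card ≤ Real.log ((M : ℝ) + 1) + (k + 1) * Real.log q := by
    have hT' : (0 : ℝ) < T.card := by exact_mod_cast hTpos
    have hc : (T.card : ℝ) ≤ ((M : ℝ) + 1) * (q : ℝ) ^ (k + 1) := by exact_mod_cast hTk.le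
    have := Real.log_le_log hT' hc
    rw [Real.log_mul (by positivity) (by positivity), Real.log_pow] at this
    push_cast at this
    exact this
  have hkl : w + Real.log (primorial y) + C ≤ 3 * Real.log q + Real.log ((M : ℝ) + 1) +
      k * Real.log q := by
    linarith
  have hk₀ : (0 : ℝ) ≤ k₀ * Real.log q := by positivity
  have hDD : (0 : ℝ) ≤ (D2 + D4 + D) * Real.log 2 := by positivity
  have hkk : w + Real.log (primorial y) + Real.log q + k₀ * Real.log q +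
      Real.log ((B : ℝ) + 1) ≤ k * Real.log q := by
    linarith
  refine ⟨k, by linarith, ?_⟩
  have hkk₀ : k₀ ≤ k := by
    have h3 : (k₀ : ℝ) * Real.log q ≤ k * Real.log q := by linarith
    have h4 := le_of_mul_le_mul_right h3 hlq
    exact_mod_cast h4
  have hk1 : 1 ≤ k := by
    have h3 : (1 : ℝ) * Real.log q ≤ k * Real.log q := by linarith
    have h4 := le_of_mul_le_mul_right h3 hlq
    exact_mod_cast h4
  have hBk : B ≤ q ^ k := by
    have h3 : Real.log ((B : ℝ) + 1) ≤ Real.log ((q : ℝ) ^ k) := by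
      rw [Real.log_pow]
      linarith
    have h4 : (B : ℝ) + 1 ≤ (q : ℝ) ^ k :=
      (Real.log_le_log_iff (by positivity) (by positivity)).1 h3
    have h5 : (B : ℝ) ≤ (q : ℝ) ^ k := by linarith
    exact_mod_cast h5
  have hTm : T.card / (M + 1) ≠ 0 := by
    intro h
    rw [h] at hk
    simp at hk
    omega
  have hqT : q ^ k * (M + 1) ≤ T.card := by
    have h3 := Nat.pow_log_le_self q hTm
    rw [← hk] at h3
    exact (Nat.le_div_iff_mul_le (by omega)).1 h3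
  -- the upper bound for `q ^ k`
  have hTU : T.card ≤ (U q y X).card ^ 2 := by
    calc T.card ≤ (A ×ˢ Bs).card := card_le_card hT
      _ = A.card * Bs.card := card_product _ _
      _ ≤ (U q y X).card * (U q y X).card :=
          Nat.mul_le_mul (card_le_card fun a ha => (hAU a ha).1) (card_le_card fun a ha => (hBU a ha).1)
      _ = (U q y X).card ^ 2 := by ring
  have hqkU : q ^ k ≤ (U q y X).card ^ 2 := by
    refine le_trans ?_ hTU
    refine le_trans ?_ hqT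
    exact Nat.le_mul_of_pos_right _ (by omega)
  have hUpos : 0 < (U q y X).card := by
    rcases Nat.eq_zero_or_pos (U q y X).card with h | h
    · rw [h] at hqkU
      have := Nat.pow_pos (n := k) hq.pos
      simp at hqkU
      omega
    · exact h
  have hkU : k * Real.log q ≤ 2 * Real.log (U q y X).card := by
    have hc : (q : ℝ) ^ k ≤ ((U q y X).card : ℝ) ^ 2 := by exact_mod_cast hqkU
    have hq' : (0 : ℝ) < q := by exact_mod_cast hq.pos
    have := Real.log_le_log (by positivity) hc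
    rw [Real.log_pow, Real.log_pow] at this
    push_cast at this
    exact this
  have hXk : ∀ E : ℕ, (E : ℝ) * Real.log 2 ≤ (D2 + D4 + D) * Real.log 2 → q ^ k * 2 ^ E ≤ X := by
    intro E hE
    have hq' : (0 : ℝ) < q := by exact_mod_cast hq.pos
    have hX' : (0 : ℝ) < X := by exact_mod_cast hX1
    have h3 : Real.log ((q : ℝ) ^ k * 2 ^ E) ≤ Real.log X := by
      rw [Real.log_mul (by positivity) (by positivity), Real.log_pow, Real.log_pow]
      linarith
    have h4 := (Real.log_le_log_iff (by positivity) hX').1 h3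
    exact_mod_cast h4
  have hX2 : q ^ k * 2 ^ D2 ≤ X := hXk D2 (by
    refine mul_le_mul_of_nonneg_right ?_ hl2.le
    have : (0 : ℝ) ≤ D4 := Nat.cast_nonneg _
    have : (0 : ℝ) ≤ D := Nat.cast_nonneg _
    linarith)
  have hX4 : q ^ k * 2 ^ D4 ≤ X := hXk D4 (by
    refine mul_le_mul_of_nonneg_right ?_ hl2.le
    have : (0 : ℝ) ≤ D2 := Nat.cast_nonneg _
    have : (0 : ℝ) ≤ D := Nat.cast_nonneg _
    linarith)
  by_cases hcase : ∃ u ∈ U q y X, ∃ u' ∈ U q y X, u ≠ u' ∧ (q : ℤ) ^ k ∣ (u : ℤ) - u'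
  · obtain ⟨u, hu, u', hu', hne, hcong⟩ := hcase
    exact caseA e2 G g2 D D2 B q y X k u u' hD2 hTW hq hq2 hqy h2y hBk hX2 hu hu' hne hcong
  · have hcase' : ∀ u ∈ U q y X, ∀ u' ∈ U q y X, (q : ℤ) ^ k ∣ (u : ℤ) - u' → u = u' := by
      intro u hu u' hu' h
      by_contra hne
      exact hcase ⟨u, hu, u', hu', hne, h⟩
    have hqk : 0 < q ^ k := Nat.pow_pos hq.pos
    obtain ⟨r, hr, hfib⟩ := Finset.exists_lt_card_fiber_of_mul_lt_card_of_maps_to
      (s := T) (t := range (q ^ k)) (f := fun t => (t.1 + t.2) % q ^ k) (n := M)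
      (fun t _ => by
        rw [mem_range]
        exact Nat.mod_lt _ hqk)
      (by
        rw [card_range]
        calc q ^ k * M < q ^ k * (M + 1) := by
              exact Nat.mul_lt_mul_of_pos_left (by omega) hqk
          _ ≤ T.card := hqT)
    obtain ⟨Fb, hFb⟩ : ∃ Fb : Finset (ℕ × ℕ), Fb = T.filter fun t => (t.1 + t.2) % q ^ k = r :=
      ⟨_, rfl⟩
    rw [← hFb] at hfib
    have hFbT : ∀ t ∈ Fb, t ∈ T ∧ (t.1 + t.2) % q ^ k = r := by
      intro t ht
      rw [hFb, mem_filter] at ht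
      exact ht
    let σ : Fin M → ℕ × ℕ := fun i => ((Fb.equivFin.symm (Fin.castLE hfib.le i) : Fb) : ℕ × ℕ)
    have hσ : ∀ i, σ i ∈ Fb := fun i => (Fb.equivFin.symm (Fin.castLE hfib.le i)).2
    have hσinj : ∀ i j, σ i = σ j → i = j := by
      intro i j h
      have h3 := Subtype.ext h
      have h4 := Fb.equivFin.symm.injective h3
      exact Fin.castLE_injective _ h4
    have hmem : ∀ i, (σ i).1 ∈ A ∧ (σ i).2 ∈ Bs := by
      intro i
      have := hT (hFbT _ (hσ i)).1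
      rw [mem_product] at this
      exact this
    have hsum : ∀ i j, (q : ℤ) ^ k ∣ (((σ i).1 : ℤ) + (σ i).2) - ((σ j).1 + (σ j).2) := by
      intro i j
      have h3 := (hFbT _ (hσ i)).2
      have h4 := (hFbT _ (hσ j)).2
      have h5 : ((σ j).1 + (σ j).2) ≡ ((σ i).1 + (σ i).2) [MOD q ^ k] := by
        unfold Nat.ModEq
        rw [h3, h4]
      have h6 := (Nat.modEq_iff_dvd.1 h5)
      push_cast at h6
      exact h6
    obtain ⟨i, j, hij, hev⟩ := hGEN k hkk₀ (fun i => ((σ i).1 : ℤ)) (fun i => ((σ i).2 : ℤ))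
      (fun i => (hAU _ (hmem i).1).2) (fun i => (hBU _ (hmem i).2).2)
      (by
        intro i j hij h
        have h3 := hcase' _ (hAU _ (hmem i).1).1 _ (hAU _ (hmem j).1).1 h
        have h4 : (q : ℤ) ^ k ∣ ((σ i).2 : ℤ) - (σ j).2 := by
          have h5 := hsum i j
          have h6 := dvd_sub h5 h
          have h7 : (((σ i).1 : ℤ) + (σ i).2) - ((σ j).1 + (σ j).2) -
              (((σ i).1 : ℤ) - (σ j).1) = ((σ i).2 : ℤ) - (σ j).2 := by ring
          rwa [h7] at h6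
        have h5 := hcase' _ (hBU _ (hmem i).2).1 _ (hBU _ (hmem j).2).1 h4
        exact hij (hσinj i j (Prod.ext h3 h5)))
      hsum
      (by
        intro i j hij h
        have h3 : (σ i).1 + (σ i).2 = (σ j).1 + (σ j).2 := by exact_mod_cast h
        exact hij (hσinj i j (hTinj _ (hFbT _ (hσ i)).1 _ (hFbT _ (hσ j)).1 h3)))
    exact caseB e4 G g4 D D4 q y X k (σ i).1 (σ i).2 (σ j).1 (σ j).2 hD4 hq hqy h2y hX4
      (hAU _ (hmem i).1).1 (hBU _ (hmem i).2).1 (hAU _ (hmem j).1).1 (hBU _ (hmem j).2).1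
      (hsum i j) hev

theorem fin_ (hSUM : S_SUM) (hRES : S_RES) (hANA : S_ANA) (hGEN : S_GEN) (hTWO : S_TWO)
    (hFRE : S_FRE) (hRED : S_RED) (hHT : S_HT) : S_FIN := by
  obtain ⟨c, hc, hANA⟩ := hANA
  refine ⟨c, hc, ?_⟩
  intro K _ _ n hn L _ _ F hF
  obtain ⟨f, rfl⟩ : ∃ f, n = 4 + f + 1 := ⟨n - 5, by omega⟩
  haveI : CharZero L := charZero_of_injective_algebraMap (algebraMap K L).injective
  obtain ⟨G, hG0, hG⟩ := hRED L (4 + f) F (by omega) hF
  let e4 : Fin (4 + f) ≃ Fin 4 ⊕ Fin f := finSumFinEquiv.symm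
  let e2 : Fin (4 + f) ≃ Fin 2 ⊕ Fin (2 + f) :=
    (finCongr (by omega : 4 + f = 2 + (2 + f))).trans finSumFinEquiv.symm
  have hr4 : MvPolynomial.rename e4 G ≠ 0 := by
    intro h
    exact hG0 (MvPolynomial.rename_injective _ e4.injective (by rw [h, map_zero]))
  have hr2 : MvPolynomial.rename e2 G ≠ 0 := by
    intro h
    exact hG0 (MvPolynomial.rename_injective _ e2.injective (by rw [h, map_zero]))
  obtain ⟨g4, hg4, D4, hD4⟩ := hFRE 4 f _ hr4
  obtain ⟨g2, hg2, D2, hD2⟩ := hFRE 2 (2 + f) _ hr2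
  obtain ⟨q, M, k₀, x₀, y₀, hq, hq2, hx₀, hy₀, hGEN⟩ := hGEN g4 hg4
  obtain ⟨D, B, hTW⟩ := hTWO g2 hg2
  obtain ⟨C, hC⟩ : ∃ C : ℝ, C = (k₀ + 4) * Real.log q + Real.log (M + 1) + Real.log (B + 1) +
      (D2 + D4 + D) * Real.log 2 + Real.log ((4 + f : ℕ) : ℝ) := ⟨_, rfl⟩
  obtain ⟨H₀, hH₀⟩ := hANA q C hq
  refine ⟨max H₀ 1, fun H hH => ?_⟩
  have hH1 : 1 ≤ H := (le_max_right _ _).trans hH
  obtain ⟨y, X, hqy, h2y, hX1, hXH, hU, hU1⟩ := hH₀ H ((le_max_left _ _).trans hH)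
  have hw : 0 ≤ c * (H ^ (2 / 3 : ℝ) / Real.log H) :=
    mul_nonneg hc.le (div_nonneg (Real.rpow_nonneg (by linarith) _) (Real.log_nonneg hH1))
  have hl4 : 0 ≤ Real.log ((4 + f : ℕ) : ℝ) := Real.log_nonneg (by
    have : (1 : ℕ) ≤ 4 + f := by omega
    exact_mod_cast this)
  obtain ⟨k, hk, z, hz1, hz2, hz3, hz4, hz5, hz6⟩ := point hSUM hRES e4 e2 G g4 g2 D D2 D4 B q y X
    M k₀ x₀ y₀ hD2 hTW hD4 hq hq2 hqy h2y hx₀ hy₀ hGEN C _ hw (by linarith) hX1 hU hU1
  obtain ⟨z', h1, h2, h3, h4, h5⟩ := finish hHT (K := K) (L := L) F G hG z hz1 hz2 (2 ^ D * X)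
    (primorial y) q k hz3 (by omega) hq (primorial_pos y).ne' hz4 hz5 hz6
  refine ⟨z', h1, h2, h3, ?_, by linarith⟩
  refine h4.trans ?_
  have hX' : (0 : ℝ) < X := by exact_mod_cast hX1
  have hf' : (0 : ℝ) < ((4 + f : ℕ) : ℝ) := by
    have : 0 < 4 + f := by omega
    exact_mod_cast this
  have e : (((4 + f) * (2 ^ D * X) : ℕ) : ℝ) = ((4 + f : ℕ) : ℝ) * (2 ^ D * X) := by
    push_cast
    ring
  rw [e, Real.log_mul hf'.ne' (by positivity), Real.log_mul (by positivity) hX'.ne', Real.log_pow]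
  have hlq : 0 < Real.log q := Real.log_pos (by exact_mod_cast hq.one_lt)
  have hl2 : 0 < Real.log 2 := Real.log_pos (by norm_num)
  have hlM : 0 ≤ Real.log ((M : ℝ) + 1) := Real.log_nonneg (by
    have : (0 : ℝ) ≤ M := Nat.cast_nonneg M
    linarith)
  have hlB : 0 ≤ Real.log ((B : ℝ) + 1) := Real.log_nonneg (by
    have : (0 : ℝ) ≤ B := Nat.cast_nonneg B
    linarith)
  have a1 : (0 : ℝ) ≤ (k₀ + 4) * Real.log q := by positivity
  have a2 : (0 : ℝ) ≤ (D2 + D4) * Real.log 2 := by positivity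
  have a3 : ((D2 : ℝ) + D4 + D) * Real.log 2 = (D2 + D4) * Real.log 2 + D * Real.log 2 := by ring
  linarith

end Pool.Agent.Helper76.VA
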