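import Pool.Agent.Helper76.VA.StmH

/-!
# Assembly
-/

set_option autoImplicit false

namespace Pool.Agent.Helper76.VA

open Finset NumberField Pool.Agent.W222.ABCD

theorem mem_U {q y X u : ℕ} : u ∈ U q y X ↔ (1 ≤ u ∧ u ≤ X) ∧ ∀ p ∈ u.primeFactors, p ≤ y ∧ p ≠ q := by
  simp [U, mem_filter, mem_Icc]

theorem prime_dvd_primorial {p y : ℕ} (hp : p.Prime) (h : p ≤ y) : p ∣ primorial y := by
  unfold primorial
  apply Finset.dvd_prod_of_mem (fun p => p)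
  simp only [mem_filter, mem_range]
  exact ⟨by omega, hp⟩

/-- the end of the proof, for a given integral point -/
theorem finish (hHT : S_HT) {K : Type} [Field K] [NumberField K] {m : ℕ} {L : Type} [Field L]
    [Algebra K L] (F : MvPolynomial (Fin (m + 1)) L) (G : MvPolynomial (Fin m) ℤ)
    (hG : ∀ z : Fin m → ℤ, MvPolynomial.eval z G ≠ 0 →
      ∑ i, z i ≠ 0 ∧
      MvPolynomial.eval (fun i => ((Fin.snoc (α := fun _ => ℤ) z (-∑ i, z i) i : ℤ) : L)) F ≠ 0)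
    (z : Fin m → ℤ) (hz : MvPolynomial.eval z G ≠ 0) (hz0 : ∀ i, z i ≠ 0) (Z N q k : ℕ)
    (hZ : ∀ i, |z i| ≤ (Z : ℤ)) (hm : 1 ≤ m) (hq : q.Prime) (hN : N ≠ 0)
    (hp : ∀ i, ∀ p : ℕ, p.Prime → (p : ℤ) ∣ z i → p ∣ N) (hk : (q : ℤ) ^ k ∣ ∑ i, z i)
    (hi : ∃ i, ¬ (q : ℤ) ∣ z i) :
    ∃ z : Fin (m + 1) → K, (∀ i, z i ≠ 0) ∧ ∑ i, z i = 0 ∧
      MvPolynomial.eval (fun i => algebraMap K L (z i)) F ≠ 0 ∧
      height z ≤ Real.log ((m * Z : ℕ) : ℝ) ∧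
      rad z + k * Real.log q ≤ height z + Real.log N + Real.log q := by
  obtain ⟨h1, h2⟩ := hG z hz
  obtain ⟨w, hw⟩ : ∃ w : Fin (m + 1) → ℤ, w = Fin.snoc (α := fun _ => ℤ) z (-∑ i, z i) := ⟨_, rfl⟩
  have hwc : ∀ i : Fin m, w i.castSucc = z i := by
    intro i
    rw [hw, Fin.snoc_castSucc]
  have hwl : w (Fin.last m) = -∑ i, z i := by
    rw [hw, Fin.snoc_last]
  have hw0 : ∀ i, w i ≠ 0 := by
    intro i
    refine Fin.lastCases ?_ (fun j => ?_) i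
    · rw [hwl]
      simpa using h1
    · rw [hwc]
      exact hz0 j
  obtain ⟨ha, hb⟩ := hHT K m w hw0
  refine ⟨fun i => (w i : K), ?_, ?_, ?_, ?_, ?_⟩
  · intro i
    exact Int.cast_ne_zero.2 (hw0 i)
  · rw [← Int.cast_sum, Fin.sum_univ_castSucc, hwl]
    have : ∑ i : Fin m, w i.castSucc = ∑ i, z i := sum_congr rfl fun i _ => hwc i
    rw [this]
    simp
  · have e : (fun i => algebraMap K L ((w i : ℤ) : K)) = fun i =>
        ((Fin.snoc (α := fun _ => ℤ) z (-∑ i, z i) i : ℤ) : L) := by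
      funext i
      rw [map_intCast, hw]
    rw [e]
    exact h2
  · refine ha (m * Z) ?_
    intro i
    refine Fin.lastCases ?_ (fun j => ?_) i
    · rw [hwl, abs_neg]
      calc |∑ i, z i| ≤ ∑ i, |z i| := abs_sum_le_sum_abs _ _
        _ ≤ ∑ _i : Fin m, (Z : ℤ) := sum_le_sum fun i _ => hZ i
        _ = ((m * Z : ℕ) : ℤ) := by simp
    · rw [hwc]
      refine (hZ j).trans ?_
      push_cast
      have : (1 : ℤ) ≤ m := by exact_mod_cast hm
      nlinarith [Int.natCast_nonneg Z]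
  · refine hb q k N hq hN ?_ ?_ ?_
    · intro i p hp1 hp2
      rw [hwc] at hp2
      exact hp i p hp1 hp2
    · rw [hwl, dvd_neg]
      exact hk
    · obtain ⟨i, hi⟩ := hi
      exact ⟨i.castSucc, by rwa [hwc]⟩

/-- a prime dividing a coordinate is at most `y` -/
theorem prime_of_dvd {q y X u : ℕ} (hu : u ∈ U q y X) {p : ℕ} (hp : p.Prime) (h : p ∣ u) :
    p ≤ y ∧ p ≠ q := by
  rw [mem_U] at hu
  exact hu.2 p (Nat.mem_primeFactors.2 ⟨hp, h, by omega⟩)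

theorem not_dvd_of_mem {q y X u : ℕ} (hu : u ∈ U q y X) (hq : q.Prime) : ¬ q ∣ u := fun h =>
  (prime_of_dvd hu hq h).2 rfl

theorem prime_dvd_two_pow {p e : ℕ} (hp : p.Prime) (h : p ∣ 2 ^ e) : p = 2 :=
  (Nat.prime_dvd_prime_iff_eq hp Nat.prime_two).1 (hp.dvd_of_dvd_pow h)

end Pool.Agent.Helper76.VA
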