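import Pool.Agent.Helper76.VA.FinA

/-!
# Assembly, the two cases
-/

set_option autoImplicit false

namespace Pool.Agent.Helper76.VA

open Finset NumberField Pool.Agent.W222.ABCD

/-- Case A: two different units congruent modulo `q ^ k` -/
theorem caseA {m f' : ℕ} (e2 : Fin m ≃ Fin 2 ⊕ Fin f') (G : MvPolynomial (Fin m) ℤ)
    (g2 : MvPolynomial (Fin 2) ℤ) (D D2 B q y X k u u' : ℕ)
    (hD2 : ∀ v : Fin 2 → ℤ, MvPolynomial.eval v g2 ≠ 0 → ∀ T : ℤ, T ≠ 0 →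
      ∃ e : Fin f' → ℕ, (∀ i, e i ≤ D2) ∧
        MvPolynomial.eval (Sum.elim v fun i => T * 2 ^ e i) (MvPolynomial.rename e2 G) ≠ 0)
    (hTW : ∀ Q : ℕ, B ≤ Q → ∀ a a' : ℕ, 0 < a → 0 < a' → a ≠ a' → Nat.Coprime a Q →
      Nat.Coprime a' Q → (a : ℤ) ≡ a' [ZMOD Q] →
      ∃ e ≤ D, MvPolynomial.eval ![(2 : ℤ) ^ e * a, -((2 : ℤ) ^ e * a')] g2 ≠ 0)
    (hq : q.Prime) (hq2 : q ≠ 2) (hqy : q ≤ y) (h2y : 2 ≤ y) (hB : B ≤ q ^ k)
    (hX : q ^ k * 2 ^ D2 ≤ X) (hu : u ∈ U q y X) (hu' : u' ∈ U q y X) (hne : u ≠ u')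
    (hcong : (q : ℤ) ^ k ∣ u - u') :
    ∃ z : Fin m → ℤ, MvPolynomial.eval z G ≠ 0 ∧ (∀ i, z i ≠ 0) ∧
      (∀ i, |z i| ≤ ((2 ^ D * X : ℕ) : ℤ)) ∧
      (∀ i, ∀ p : ℕ, p.Prime → (p : ℤ) ∣ z i → p ∣ primorial y) ∧
      (q : ℤ) ^ k ∣ ∑ i, z i ∧ (∃ i, ¬ (q : ℤ) ∣ z i) := by
  have hu1 := mem_U.1 hu
  have hu1' := mem_U.1 hu'
  have hcop : Nat.Coprime u (q ^ k) :=
    ((Nat.Prime.coprime_iff_not_dvd hq).2 (not_dvd_of_mem hu hq)).symm.pow_right k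
  have hcop' : Nat.Coprime u' (q ^ k) :=
    ((Nat.Prime.coprime_iff_not_dvd hq).2 (not_dvd_of_mem hu' hq)).symm.pow_right k
  obtain ⟨e, he, hev⟩ := hTW (q ^ k) hB u u' (by omega) (by omega) hne hcop hcop'
    (by
      rw [Int.modEq_comm, Int.modEq_iff_dvd]
      exact_mod_cast hcong)
  have hT : ((q : ℤ) ^ k) ≠ 0 := pow_ne_zero _ (by exact_mod_cast hq.ne_zero)
  obtain ⟨e', he', hev'⟩ := hD2 _ hev ((q : ℤ) ^ k) hT
  rw [MvPolynomial.eval_rename] at hev'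
  obtain ⟨w, hw⟩ : ∃ w : Fin 2 ⊕ Fin f' → ℤ, w = Sum.elim ![(2 : ℤ) ^ e * u, -((2 : ℤ) ^ e * u')]
    (fun i => (q : ℤ) ^ k * 2 ^ e' i) := ⟨_, rfl⟩
  rw [← hw] at hev'
  have h2 : (2 : ℤ) ^ e ≤ 2 ^ D := pow_le_pow_right₀ (by norm_num) he
  have h2D : (1 : ℤ) ≤ 2 ^ D := one_le_pow₀ (by norm_num)
  have hXc : ((q : ℤ) ^ k * 2 ^ D2) ≤ X := by exact_mod_cast hX
  have hw0 : ∀ s, w s ≠ 0 ∧ |w s| ≤ ((2 ^ D * X : ℕ) : ℤ) ∧
      ∀ p : ℕ, p.Prime → (p : ℤ) ∣ w s → p ∣ primorial y := by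
    intro s
    rw [hw]
    have hkey : ∀ t : ℕ, t ∈ U q y X → ((2 : ℤ) ^ e * t ≠ 0 ∧
        (2 : ℤ) ^ e * t ≤ ((2 ^ D * X : ℕ) : ℤ) ∧ 0 ≤ (2 : ℤ) ^ e * t ∧
        ∀ p : ℕ, p.Prime → (p : ℤ) ∣ (2 : ℤ) ^ e * t → p ∣ primorial y) := by
      intro t ht
      have ht1 := mem_U.1 ht
      have ht0 : (0 : ℤ) < t := by exact_mod_cast (by omega : 0 < t)
      have htX : (t : ℤ) ≤ X := by exact_mod_cast ht1.1.2
      refine ⟨by positivity, ?_, by positivity, ?_⟩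
      · push_cast
        exact mul_le_mul h2 htX ht0.le (by positivity)
      · intro p hp hpd
        have hpd' : p ∣ 2 ^ e * t := by exact_mod_cast hpd
        rcases (Nat.Prime.dvd_mul hp).1 hpd' with h | h
        · rw [prime_dvd_two_pow hp h]
          exact prime_dvd_primorial Nat.prime_two h2y
        · exact prime_dvd_primorial hp (prime_of_dvd ht hp h).1
    rcases s with s | s
    · fin_cases s
      · obtain ⟨a1, a2, a3, a4⟩ := hkey u hu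
        refine ⟨a1, ?_, a4⟩
        show |(2 : ℤ) ^ e * u| ≤ _
        rw [abs_of_nonneg a3]
        exact a2
      · obtain ⟨a1, a2, a3, a4⟩ := hkey u' hu'
        refine ⟨neg_ne_zero.2 a1, ?_, ?_⟩
        · show |-((2 : ℤ) ^ e * u')| ≤ _
          rw [abs_neg, abs_of_nonneg a3]
          exact a2
        · intro p hp hpd
          exact a4 p hp ((dvd_neg).1 hpd)
    · refine ⟨mul_ne_zero hT (by positivity), ?_, ?_⟩
      · show |(q : ℤ) ^ k * 2 ^ e' s| ≤ _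
        rw [abs_of_nonneg (by positivity)]
        have h3 : (2 : ℤ) ^ e' s ≤ 2 ^ D2 := pow_le_pow_right₀ (by norm_num) (he' s)
        have h4 : (q : ℤ) ^ k * 2 ^ e' s ≤ X :=
          (mul_le_mul_of_nonneg_left h3 (by positivity)).trans hXc
        have h5 : (X : ℤ) ≤ 2 ^ D * X := by
          nlinarith [Int.natCast_nonneg X]
        push_cast
        linarith
      · intro p hp hpd
        have hpd' : p ∣ q ^ k * 2 ^ e' s := by
          have : (p : ℤ) ∣ ((q ^ k * 2 ^ e' s : ℕ) : ℤ) := by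
            push_cast
            exact hpd
          exact_mod_cast this
        rcases (Nat.Prime.dvd_mul hp).1 hpd' with h | h
        · rw [(Nat.prime_dvd_prime_iff_eq hp hq).1 (hp.dvd_of_dvd_pow h)]
          exact prime_dvd_primorial hq hqy
        · rw [prime_dvd_two_pow hp h]
          exact prime_dvd_primorial Nat.prime_two h2y
  refine ⟨w ∘ e2, hev', fun i => (hw0 _).1, fun i => (hw0 _).2.1, fun i => (hw0 _).2.2, ?_, ?_⟩
  · have h3 : ∑ i, (w ∘ e2) i = ∑ s, w s := Equiv.sum_comp e2 w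
    rw [h3, Fintype.sum_sum_type, hw]
    apply dvd_add
    · simp only [Sum.elim_inl, Fin.sum_univ_two, Matrix.cons_val_zero, Matrix.cons_val_one]
      have : (2 : ℤ) ^ e * u + -((2 : ℤ) ^ e * u') = 2 ^ e * (u - u') := by ring
      rw [this]
      exact Dvd.dvd.mul_left hcong _
    · exact dvd_sum fun i _ => Dvd.intro _ rfl
  · refine ⟨e2.symm (Sum.inl 0), ?_⟩
    show ¬ (q : ℤ) ∣ w (e2 (e2.symm (Sum.inl 0)))
    rw [Equiv.apply_symm_apply, hw]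
    show ¬ (q : ℤ) ∣ (2 : ℤ) ^ e * u
    intro h
    have h' : q ∣ 2 ^ e * u := by exact_mod_cast h
    rcases (Nat.Prime.dvd_mul hq).1 h' with h | h
    · exact hq2 (prime_dvd_two_pow hq h)
    · exact not_dvd_of_mem hu hq h

/-- Case B: two pairs of units with congruent sums -/
theorem caseB {m f : ℕ} (e4 : Fin m ≃ Fin 4 ⊕ Fin f) (G : MvPolynomial (Fin m) ℤ)
    (g4 : MvPolynomial (Fin 4) ℤ) (D D4 q y X k a b a' b' : ℕ)
    (hD4 : ∀ v : Fin 4 → ℤ, MvPolynomial.eval v g4 ≠ 0 → ∀ T : ℤ, T ≠ 0 →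
      ∃ e : Fin f → ℕ, (∀ i, e i ≤ D4) ∧
        MvPolynomial.eval (Sum.elim v fun i => T * 2 ^ e i) (MvPolynomial.rename e4 G) ≠ 0)
    (hq : q.Prime) (hqy : q ≤ y) (h2y : 2 ≤ y)
    (hX : q ^ k * 2 ^ D4 ≤ X) (ha : a ∈ U q y X) (hb : b ∈ U q y X) (ha' : a' ∈ U q y X)
    (hb' : b' ∈ U q y X) (hcong : (q : ℤ) ^ k ∣ ((a : ℤ) + b) - (a' + b'))
    (hev : MvPolynomial.eval ![(a : ℤ), b, -a', -b'] g4 ≠ 0) :
    ∃ z : Fin m → ℤ, MvPolynomial.eval z G ≠ 0 ∧ (∀ i, z i ≠ 0) ∧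
      (∀ i, |z i| ≤ ((2 ^ D * X : ℕ) : ℤ)) ∧
      (∀ i, ∀ p : ℕ, p.Prime → (p : ℤ) ∣ z i → p ∣ primorial y) ∧
      (q : ℤ) ^ k ∣ ∑ i, z i ∧ (∃ i, ¬ (q : ℤ) ∣ z i) := by
  have hT : ((q : ℤ) ^ k) ≠ 0 := pow_ne_zero _ (by exact_mod_cast hq.ne_zero)
  obtain ⟨e', he', hev'⟩ := hD4 _ hev ((q : ℤ) ^ k) hT
  rw [MvPolynomial.eval_rename] at hev'
  obtain ⟨w, hw⟩ : ∃ w : Fin 4 ⊕ Fin f → ℤ, w = Sum.elim ![(a : ℤ), b, -a', -b']
    (fun i => (q : ℤ) ^ k * 2 ^ e' i) := ⟨_, rfl⟩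
  rw [← hw] at hev'
  have h2D : (1 : ℤ) ≤ 2 ^ D := one_le_pow₀ (by norm_num)
  have hXc : ((q : ℤ) ^ k * 2 ^ D4) ≤ X := by exact_mod_cast hX
  have hXD : (X : ℤ) ≤ ((2 ^ D * X : ℕ) : ℤ) := by
    push_cast
    nlinarith [Int.natCast_nonneg X]
  have hw0 : ∀ s, w s ≠ 0 ∧ |w s| ≤ ((2 ^ D * X : ℕ) : ℤ) ∧
      ∀ p : ℕ, p.Prime → (p : ℤ) ∣ w s → p ∣ primorial y := by
    intro s
    rw [hw]
    have hkey : ∀ t : ℕ, t ∈ U q y X → ((t : ℤ) ≠ 0 ∧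
        (t : ℤ) ≤ ((2 ^ D * X : ℕ) : ℤ) ∧ 0 ≤ (t : ℤ) ∧
        ∀ p : ℕ, p.Prime → (p : ℤ) ∣ t → p ∣ primorial y) := by
      intro t ht
      have ht1 := mem_U.1 ht
      have ht0 : (0 : ℤ) < t := by exact_mod_cast (by omega : 0 < t)
      have htX : (t : ℤ) ≤ X := by exact_mod_cast ht1.1.2
      refine ⟨ht0.ne', htX.trans hXD, ht0.le, ?_⟩
      intro p hp hpd
      have hpd' : p ∣ t := by exact_mod_cast hpd
      exact prime_dvd_primorial hp (prime_of_dvd ht hp hpd').1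
    rcases s with s | s
    · fin_cases s
      · obtain ⟨a1, a2, a3, a4⟩ := hkey a ha
        refine ⟨a1, ?_, a4⟩
        show |(a : ℤ)| ≤ _
        rw [abs_of_nonneg a3]
        exact a2
      · obtain ⟨a1, a2, a3, a4⟩ := hkey b hb
        refine ⟨a1, ?_, a4⟩
        show |(b : ℤ)| ≤ _
        rw [abs_of_nonneg a3]
        exact a2
      · obtain ⟨a1, a2, a3, a4⟩ := hkey a' ha'
        refine ⟨neg_ne_zero.2 a1, ?_, fun p hp hpd => a4 p hp ((dvd_neg).1 hpd)⟩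
        show |-(a' : ℤ)| ≤ _
        rw [abs_neg, abs_of_nonneg a3]
        exact a2
      · obtain ⟨a1, a2, a3, a4⟩ := hkey b' hb'
        refine ⟨neg_ne_zero.2 a1, ?_, fun p hp hpd => a4 p hp ((dvd_neg).1 hpd)⟩
        show |-(b' : ℤ)| ≤ _
        rw [abs_neg, abs_of_nonneg a3]
        exact a2
    · refine ⟨mul_ne_zero hT (by positivity), ?_, ?_⟩
      · show |(q : ℤ) ^ k * 2 ^ e' s| ≤ _
        rw [abs_of_nonneg (by positivity)]
        have h3 : (2 : ℤ) ^ e' s ≤ 2 ^ D4 := pow_le_pow_right₀ (by norm_num) (he' s)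
        have h4 : (q : ℤ) ^ k * 2 ^ e' s ≤ X :=
          (mul_le_mul_of_nonneg_left h3 (by positivity)).trans hXc
        linarith
      · intro p hp hpd
        have hpd' : p ∣ q ^ k * 2 ^ e' s := by
          have : (p : ℤ) ∣ ((q ^ k * 2 ^ e' s : ℕ) : ℤ) := by
            push_cast
            exact hpd
          exact_mod_cast this
        rcases (Nat.Prime.dvd_mul hp).1 hpd' with h | h
        · rw [(Nat.prime_dvd_prime_iff_eq hp hq).1 (hp.dvd_of_dvd_pow h)]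
          exact prime_dvd_primorial hq hqy
        · rw [prime_dvd_two_pow hp h]
          exact prime_dvd_primorial Nat.prime_two h2y
  refine ⟨w ∘ e4, hev', fun i => (hw0 _).1, fun i => (hw0 _).2.1, fun i => (hw0 _).2.2, ?_, ?_⟩
  · have h3 : ∑ i, (w ∘ e4) i = ∑ s, w s := Equiv.sum_comp e4 w
    rw [h3, Fintype.sum_sum_type, hw]
    apply dvd_add
    · have : ∑ i : Fin 4, (Sum.elim ![(a : ℤ), b, -a', -b']
          (fun i : Fin f => (q : ℤ) ^ k * 2 ^ e' i)) (Sum.inl i) = ((a : ℤ) + b) - (a' + b') := by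
        simp [Fin.sum_univ_four]
        ring
      rw [this]
      exact hcong
    · exact dvd_sum fun i _ => Dvd.intro _ rfl
  · refine ⟨e4.symm (Sum.inl 0), ?_⟩
    show ¬ (q : ℤ) ∣ w (e4 (e4.symm (Sum.inl 0)))
    rw [Equiv.apply_symm_apply, hw]
    show ¬ (q : ℤ) ∣ (a : ℤ)
    intro h
    have h' : q ∣ a := by exact_mod_cast h
    exact not_dvd_of_mem ha hq h'

end Pool.Agent.Helper76.VA
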