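import Pool.Agent.Helper76.VA.Stm

/-!
# Module FRE (helper40)
-/

set_option autoImplicit false

namespace Pool.Agent.Helper76.VA

open MvPolynomial

theorem fre_eval {m f : ℕ} (v : Fin m → ℤ) (t : Fin f → ℤ) (G : MvPolynomial (Fin m ⊕ Fin f) ℤ) :
    eval (Sum.elim v t) G =
      eval t (map (eval v) (sumAlgEquiv ℤ (Fin f) (Fin m) (rename Sum.swap G))) := by
  induction G using MvPolynomial.induction_on with
  | C a => simp
  | add p q hp hq => simp only [map_add, hp, hq]
  | mul_X p i hp =>
    rw [map_mul, map_mul, map_mul, map_mul, map_mul, hp]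
    congr 1
    rcases i with i | i <;> simp

theorem fre : S_FRE := by
  classical
  intro m f G hG
  set G' := sumAlgEquiv ℤ (Fin f) (Fin m) (rename Sum.swap G) with hG'
  have h0 : G' ≠ 0 := by
    rw [hG', ne_eq, EmbeddingLike.map_eq_zero_iff]
    intro h
    exact hG (rename_injective _ (Equiv.sumComm _ _).injective (by rw [map_zero]; exact h))
  obtain ⟨μ, hμ⟩ := MvPolynomial.ne_zero_iff.1 h0
  refine ⟨coeff μ G', hμ, G'.totalDegree, fun v hv T hT => ?_⟩
  set H : MvPolynomial (Fin f) ℤ := map (eval v) G' with hH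
  have hH0 : H ≠ 0 := by
    refine MvPolynomial.ne_zero_iff.2 ⟨μ, ?_⟩
    rw [hH, coeff_map]
    exact hv
  have htd : H.totalDegree ≤ G'.totalDegree := by
    refine Finset.sup_mono ?_
    exact MvPolynomial.support_map_subset _ _
  by_contra hcon
  push Not at hcon
  refine hH0 ?_
  have hinj : Function.Injective fun e : ℕ => T * 2 ^ e := by
    intro a b hab
    have h2 : (2 : ℤ) ^ a = 2 ^ b := mul_left_cancel₀ hT hab
    exact (pow_right_injective₀ (by norm_num : (0 : ℤ) < 2) (by norm_num)) h2
  refine MvPolynomial.eq_zero_of_eval_zero_at_prod_finset H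
    (fun _ => (Finset.range (G'.totalDegree + 1)).image fun e => T * 2 ^ e) ?_ ?_
  · intro i
    rw [Finset.card_image_of_injective _ hinj, Finset.card_range]
    exact Nat.lt_succ_of_le ((MvPolynomial.degreeOf_le_totalDegree H i).trans htd)
  · intro x hx
    have hx' : ∀ i, ∃ e, e ≤ G'.totalDegree ∧ T * 2 ^ e = x i := by
      intro i
      have h := hx i
      rw [Finset.mem_image] at h
      obtain ⟨e, he, hxe⟩ := h
      exact ⟨e, Nat.lt_succ_iff.1 (Finset.mem_range.1 he), hxe⟩
    choose e he hxe using hx'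
    have h := hcon e he
    have h3 : (fun i => T * 2 ^ e i) = x := funext hxe
    rw [h3, fre_eval] at h
    exact h

end Pool.Agent.Helper76.VA
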