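import Pool.Agent.Helper76.VA.Stm

/-!
# Module GEN: points outside the zero set of a polynomial, from CORE
-/

set_option autoImplicit false

namespace Pool.Agent.Helper76.VA

open Finset

/-- polynomials respect congruences -/
lemma gen_cong {σ : Type} (p : MvPolynomial σ ℤ) (n : ℤ) (v w : σ → ℤ)
    (h : ∀ i, n ∣ v i - w i) : n ∣ MvPolynomial.eval v p - MvPolynomial.eval w p := by
  induction p using MvPolynomial.induction_on with
  | C a => simp
  | add p p' h1 h2 =>
    have h3 : MvPolynomial.eval v (p + p') - MvPolynomial.eval w (p + p') =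
        (MvPolynomial.eval v p - MvPolynomial.eval w p) +
          (MvPolynomial.eval v p' - MvPolynomial.eval w p') := by
      rw [map_add, map_add]
      ring
    rw [h3]
    exact dvd_add h1 h2
  | mul_X p i hp =>
    rw [map_mul, map_mul, MvPolynomial.eval_X, MvPolynomial.eval_X]
    have h1 : MvPolynomial.eval v p * v i - MvPolynomial.eval w p * w i =
        (MvPolynomial.eval v p - MvPolynomial.eval w p) * v i +
          MvPolynomial.eval w p * (v i - w i) := by ring
    rw [h1]
    exact dvd_add (hp.mul_right _) ((h i).mul_left _)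

/-- the substitution `(x, y, A - x, s - A - y)` -/
noncomputable def genSub : MvPolynomial (Fin 4) ℤ →+* MvPolynomial (Fin 2) (MvPolynomial (Fin 2) ℤ) :=
  MvPolynomial.eval₂Hom (Int.castRingHom _)
    ![MvPolynomial.C (MvPolynomial.X 0), MvPolynomial.C (MvPolynomial.X 1),
      MvPolynomial.X 0 - MvPolynomial.C (MvPolynomial.X 0),
      MvPolynomial.X 1 - MvPolynomial.X 0 - MvPolynomial.C (MvPolynomial.X 1)]

/-- its inverse -/
noncomputable def genInv : MvPolynomial (Fin 2) (MvPolynomial (Fin 2) ℤ) →+* MvPolynomial (Fin 4) ℤ :=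
  MvPolynomial.eval₂Hom
    (MvPolynomial.eval₂Hom (Int.castRingHom _) ![MvPolynomial.X 0, MvPolynomial.X 1])
    ![MvPolynomial.X 0 + MvPolynomial.X 2,
      MvPolynomial.X 0 + MvPolynomial.X 1 + MvPolynomial.X 2 + MvPolynomial.X 3]

lemma genInv_genSub (G : MvPolynomial (Fin 4) ℤ) : genInv (genSub G) = G := by
  have h : genInv.comp genSub = RingHom.id _ := by
    refine MvPolynomial.ringHom_ext (fun r => ?_) (fun i => ?_)
    · simp [genInv, genSub]
    · fin_cases i <;> simp [genInv, genSub]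
      ring
  exact congrArg (fun f : MvPolynomial (Fin 4) ℤ →+* MvPolynomial (Fin 4) ℤ => f G) h

lemma eval_genSub (G : MvPolynomial (Fin 4) ℤ) (x y A s : ℤ) :
    MvPolynomial.eval ![x, y, A - x, s - A - y] G =
      MvPolynomial.eval₂Hom (MvPolynomial.eval ![x, y]) ![A, s] (genSub G) := by
  have h : (MvPolynomial.eval₂Hom (MvPolynomial.eval ![x, y]) ![A, s]).comp genSub =
      MvPolynomial.eval ![x, y, A - x, s - A - y] := by
    refine MvPolynomial.ringHom_ext (fun r => ?_) (fun i => ?_)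
    · simp [genSub]
    · fin_cases i <;> simp [genSub]
  exact (congrArg (fun f : MvPolynomial (Fin 4) ℤ →+* ℤ => f G) h).symm

/-- MODULE GEN -/
theorem gen (hcore : S_CORE) : S_GEN := by
  classical
  intro G hG
  set Gt := genSub G with hGt
  have hGt0 : Gt ≠ 0 := by
    intro h
    apply hG
    rw [← genInv_genSub G, ← hGt, h, map_zero]
  set S := Gt.support with hS
  have hSne : S.Nonempty := MvPolynomial.support_nonempty.mpr hGt0
  -- a point with all nonzero coefficients different from zero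
  set P : MvPolynomial (Fin 2) ℤ :=
    MvPolynomial.X 0 * MvPolynomial.X 1 * ∏ m ∈ S, Gt.coeff m with hP
  have hP0 : P ≠ 0 := by
    refine mul_ne_zero (mul_ne_zero (MvPolynomial.X_ne_zero _) (MvPolynomial.X_ne_zero _)) ?_
    refine Finset.prod_ne_zero_iff.mpr fun m hm => ?_
    exact MvPolynomial.mem_support_iff.mp hm
  obtain ⟨v, hv⟩ : ∃ v : Fin 2 → ℤ, MvPolynomial.eval v P ≠ 0 := by
    by_contra hcon
    push Not at hcon
    exact hP0 (MvPolynomial.funext fun v => by rw [hcon v, map_zero])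
  obtain ⟨f, hf, hfmin⟩ : ∃ f ∈ S, ∀ m ∈ S, f 1 ≤ m 1 :=
    Finset.exists_min_image S (fun m => m 1) hSne
  set δ : ℕ := 1 + ∑ m ∈ S, (m 0 + m 1) with hδ
  obtain ⟨q, hq1, hq⟩ := Nat.exists_infinite_primes (3 + δ + (MvPolynomial.eval v P).natAbs)
  have hqP : ¬ (q : ℤ) ∣ MvPolynomial.eval v P := by
    intro h
    have h1 := Int.natAbs_dvd_natAbs.mpr h
    rw [Int.natAbs_natCast] at h1
    have h2 := Nat.le_of_dvd (Int.natAbs_pos.mpr hv) h1
    omega
  have hevP : MvPolynomial.eval v P = v 0 * v 1 * ∏ m ∈ S, MvPolynomial.eval v (Gt.coeff m) := by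
    rw [hP, map_mul, map_mul, MvPolynomial.eval_X, MvPolynomial.eval_X, map_prod]
  have hx0 : ¬ (q : ℤ) ∣ v 0 := fun h => hqP (by
    rw [hevP]; exact (h.mul_right _).mul_right _)
  have hy0 : ¬ (q : ℤ) ∣ v 1 := fun h => hqP (by
    rw [hevP]; exact (h.mul_left _).mul_right _)
  have hcf : ∀ m ∈ S, ¬ (q : ℤ) ∣ MvPolynomial.eval v (Gt.coeff m) := fun m hm h => hqP (by
    rw [hevP]
    exact (h.trans (Finset.dvd_prod_of_mem (fun m => MvPolynomial.eval v (Gt.coeff m)) hm)).mul_left _)
  set R : Finset (ℕ × ℕ) := S.image (fun m => (m 0, m 1 - f 1)) with hR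
  have hinj : Set.InjOn (fun m : Fin 2 →₀ ℕ => (m 0, m 1 - f 1)) (S : Set (Fin 2 →₀ ℕ)) := by
    intro m hm m' hm' h
    have h0 : m 0 = m' 0 := congrArg Prod.fst h
    have h1 : m 1 - f 1 = m' 1 - f 1 := congrArg Prod.snd h
    have h2 := hfmin m hm
    have h3 := hfmin m' hm'
    ext i
    fin_cases i
    · exact h0
    · show m 1 = m' 1
      omega
  obtain ⟨M, k₀, hM⟩ := hcore q δ R hq (by omega) (by omega) (by omega)
    (by
      intro x hx
      rw [hR, Finset.mem_image] at hx
      obtain ⟨m, hm, rfl⟩ := hx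
      have h1 := Finset.single_le_sum (f := fun m : Fin 2 →₀ ℕ => m 0 + m 1)
        (fun _ _ => Nat.zero_le _) hm
      simp only at h1 ⊢
      omega)
    ⟨f 0, by
      rw [hR, Finset.mem_image]
      exact ⟨f, hf, by simp⟩⟩
  refine ⟨q, M, k₀, v 0, v 1, hq, by omega, hx0, hy0, ?_⟩
  intro k hk a b ha hb hak hs hsne
  -- the coefficient of a point of `R`
  set mm : ℕ × ℕ → (Fin 2 →₀ ℕ) := fun x => Finsupp.single 0 x.1 + Finsupp.single 1 (x.2 + f 1)
    with hmm
  have hmmS : ∀ m ∈ S, mm (m 0, m 1 - f 1) = m := by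
    intro m hm
    have h2 := hfmin m hm
    ext i
    fin_cases i
    · simp [hmm]
    · simp [hmm]
      omega
  obtain ⟨i, j, hij, hne⟩ := hM k hk a (fun i => a i + b i)
    (fun i x => MvPolynomial.eval ![a i, b i] (Gt.coeff (mm x)))
    (by
      intro i x hx h
      rw [hR, Finset.mem_image] at hx
      obtain ⟨m, hm, rfl⟩ := hx
      rw [hmmS m hm] at h
      refine hcf m hm ?_
      have h1 := gen_cong (Gt.coeff m) (q : ℤ) ![a i, b i] v (by
        intro u
        fin_cases u
        · exact (ha i).symm.dvd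
        · exact (hb i).symm.dvd)
      exact (dvd_sub_right h).mp h1)
    (by
      intro i j ℓ hℓ h x hx
      refine gen_cong _ _ _ _ ?_
      intro u
      fin_cases u
      · exact h
      · show (q : ℤ) ^ ℓ ∣ b i - b j
        have h1 : (q : ℤ) ^ ℓ ∣ (a i + b i) - (a j + b j) := (pow_dvd_pow _ hℓ).trans (hs i j)
        have h2 := dvd_sub h1 h
        have h3 : (a i + b i) - (a j + b j) - (a i - a j) = b i - b j := by ring
        rwa [h3] at h2)
    hak hs hsne
  refine ⟨i, j, hij, ?_⟩
  have hσ : a i + b i - (a j + b j) ≠ 0 := sub_ne_zero.mpr (hsne i j hij)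
  have hvec : (![a i, b i, -a j, -b j] : Fin 4 → ℤ) =
      ![a i, b i, (a i - a j) - a i, (a i + b i - (a j + b j)) - (a i - a j) - b i] := by
    congr 1
    funext u
    fin_cases u
    · rfl
    · show -a j = (a i - a j) - a i
      ring
    · show -b j = (a i + b i - (a j + b j)) - (a i - a j) - b i
      ring
  rw [hvec, eval_genSub, MvPolynomial.coe_eval₂Hom, MvPolynomial.eval₂_eq']
  rw [← hGt, ← hS]
  have hsum : ∑ d ∈ S, MvPolynomial.eval ![a i, b i] (Gt.coeff d) *
      ∏ u : Fin 2, (![a i - a j, a i + b i - (a j + b j)] : Fin 2 → ℤ) u ^ d u =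
      (a i + b i - (a j + b j)) ^ (f 1) * ∑ x ∈ R, MvPolynomial.eval ![a i, b i] (Gt.coeff (mm x)) *
        ((a i - a j) ^ x.1 * (a i + b i - (a j + b j)) ^ x.2) := by
    rw [hR, Finset.sum_image hinj, Finset.mul_sum]
    refine Finset.sum_congr rfl fun m hm => ?_
    rw [hmmS m hm, Fin.prod_univ_two]
    have h2 := hfmin m hm
    have h3 : (a i + b i - (a j + b j)) ^ (m 1) =
        (a i + b i - (a j + b j)) ^ (f 1) * (a i + b i - (a j + b j)) ^ (m 1 - f 1) := by
      rw [← pow_add]
      congr 1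
      omega
    simp only [Matrix.cons_val_zero, Matrix.cons_val_one]
    rw [h3]
    ring
  rw [hsum]
  exact mul_ne_zero (pow_ne_zero _ hσ) hne

end Pool.Agent.Helper76.VA
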