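import Pool.Agent.Helper76.VA.StmH

/-!
# Module HT (helper40)
-/

set_option autoImplicit false

namespace Pool.Agent.Helper76.VA

open Finset NumberField Pool.Agent.W222.ABCD

variable {K : Type} [Field K] [NumberField K]

theorem ht_fin {n : ℕ} (v : FinitePlace K) (z : Fin (n + 1) → ℤ) (hz : Finset.univ.gcd z = 1) :
    ⨆ i, v (z i : K) = 1 := by
  have hv : IsNonarchimedean (v ·) := FinitePlace.add_le v
  have H (n : ℤ) : v (n : K) ≤ 1 := IsNonarchimedean.apply_intCast_le_one hv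
  obtain ⟨f, hf⟩ := Finset.gcd_eq_sum_mul .univ z
  have hf' : v ((1 : ℤ) : K) = v (((∑ i, z i * f i : ℤ)) : K) := by
    rw [← hf, hz]
  simp_rw [Int.cast_one, map_one, Int.cast_sum, Int.cast_mul] at hf'
  replace hf := hf'.trans_le hv.apply_sum_univ_le
  obtain ⟨i, hi⟩ := exists_eq_ciSup_of_finite (f := fun i ↦ v ((z i : K) * f i))
  rw [← hi, map_mul] at hf
  replace hf : 1 ≤ v (z i : K) := hf.trans <| mul_le_of_le_one_right (apply_nonneg v _) (H _)
  exact le_antisymm (ciSup_le (H <| z ·)) <| Finite.le_ciSup_of_le i hf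

omit [NumberField K] in
theorem ht_inf (v : InfinitePlace K) (a : ℤ) : v (a : K) = |(a : ℝ)| := by
  rw [← Int.cast_abs]
  rcases Int.eq_nat_or_neg a with ⟨m, rfl | rfl⟩
  · rw [Int.cast_natCast, InfinitePlace.map_natCast]
    simp
  · rw [Int.cast_neg, Int.cast_natCast, InfinitePlace.coe_apply, AbsoluteValue.map_neg,
      ← InfinitePlace.coe_apply, InfinitePlace.map_natCast]
    simp

theorem ht_prim {n : ℕ} (z : Fin (n + 1) → ℤ) (hz : Finset.univ.gcd z = 1) :
    height (fun i => (z i : K)) = Real.log (⨆ i, |(z i : ℝ)|) := by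
  have hx : (fun i => (z i : K)) ≠ 0 := by
    intro h
    have h1 : ∀ i, z i = 0 := fun i => by
      have := congrFun h i
      simpa using this
    have h2 : Finset.univ.gcd z = 0 := Finset.gcd_eq_zero_iff.2 fun i _ => h1 i
    rw [h2] at hz
    exact zero_ne_one hz
  have h0 := finrank_pos' (K := K)
  rw [height, Height.logHeight_eq_log_mulHeight, NumberField.mulHeight_eq hx]
  simp only [ht_inf]
  rw [finprod_eq_one_of_forall_eq_one (fun v => ht_fin v z hz), mul_one,
    Finset.prod_pow_eq_pow_sum, InfinitePlace.sum_mult_eq, Real.log_pow, mul_div_cancel_left₀ _ h0.ne']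

theorem ht_smul {n : ℕ} (z : Fin (n + 1) → ℤ) (g : ℤ) (hg : g ≠ 0) :
    height (fun i => ((g * z i : ℤ) : K)) = height (fun i => (z i : K)) := by
  have hg' : (g : K) ≠ 0 := by exact_mod_cast hg
  have h1 : (fun i => ((g * z i : ℤ) : K)) = (g : K) • (fun i => (z i : K)) := by
    funext i
    simp
  rw [h1, height, height, Height.logHeight_eq_log_mulHeight, Height.logHeight_eq_log_mulHeight,
    Height.mulHeight_smul_eq_mulHeight _ hg']

theorem rad_smul {n : ℕ} (z : Fin (n + 1) → ℤ) (g : ℤ) (hg : g ≠ 0) :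
    rad (fun i => ((g * z i : ℤ) : K)) = rad (fun i => (z i : K)) := by
  classical
  have hg' : (g : K) ≠ 0 := by exact_mod_cast hg
  rw [rad, rad]
  congr 1
  refine finsum_congr fun v => ?_
  have hv : v.valuation K (g : K) ≠ 0 := (Valuation.ne_zero_iff _).2 hg'
  have h1 : (∀ i j, v.valuation K ((g * z i : ℤ) : K) = v.valuation K ((g * z j : ℤ) : K)) ↔
      ∀ i j, v.valuation K (z i : K) = v.valuation K (z j : K) := by
    refine forall_congr' fun i => forall_congr' fun j => ?_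
    rw [Int.cast_mul, Int.cast_mul, map_mul, map_mul]
    exact mul_right_inj' hv
  by_cases h : ∀ i j, v.valuation K (z i : K) = v.valuation K (z j : K)
  · rw [if_pos (h1.2 h), if_pos h]
  · rw [if_neg (fun h' => h (h1.1 h')), if_neg h]

omit [NumberField K] in
theorem ht_mem (P : Ideal (𝓞 K)) [P.IsPrime] (a : ℕ) (ha : a ≠ 0) (h : (a : 𝓞 K) ∈ P) :
    ∃ p : ℕ, p.Prime ∧ p ∣ a ∧ (p : 𝓞 K) ∈ P := by
  induction a using induction_on_primes with
  | zero => exact absurd rfl ha
  | one =>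
    exfalso
    rw [Nat.cast_one] at h
    exact (Ideal.IsPrime.ne_top ‹_›) ((Ideal.eq_top_iff_one _).2 h)
  | prime_mul p a hp ih =>
    rw [Nat.cast_mul] at h
    rcases Ideal.IsPrime.mem_or_mem ‹P.IsPrime› h with h1 | h1
    · exact ⟨p, hp, Dvd.intro _ rfl, h1⟩
    · obtain ⟨p', hp', hd, hm⟩ := ih (fun h0 => ha (by rw [h0, mul_zero])) h1
      exact ⟨p', hp', Dvd.dvd.mul_left hd p, hm⟩

theorem ht_val (v : IsDedekindDomain.HeightOneSpectrum (𝓞 K)) (a : ℤ) (ha : a ≠ 0) (N : ℕ)
    (hN : (N : 𝓞 K) ∉ v.asIdeal) (h : ∀ p : ℕ, p.Prime → (p : ℤ) ∣ a → p ∣ N) :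
    v.valuation K (a : K) = 1 := by
  have h1 : (a : 𝓞 K) ∉ v.asIdeal := by
    intro hm
    have hm' : ((a.natAbs : ℕ) : 𝓞 K) ∈ v.asIdeal := by
      rcases Int.natAbs_eq a with h2 | h2
      · rw [h2, Int.cast_natCast] at hm
        exact hm
      · rw [h2, Int.cast_neg, Int.cast_natCast] at hm
        exact (Ideal.neg_mem_iff _).1 hm
    obtain ⟨p, hp, hpa, hpm⟩ := ht_mem v.asIdeal a.natAbs (Int.natAbs_ne_zero.2 ha) hm'
    obtain ⟨c, hc⟩ := h p hp (Int.natCast_dvd.2 hpa)
    apply hN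
    rw [hc, Nat.cast_mul]
    exact Ideal.mul_mem_right _ _ hpm
  have h2 : v.valuation K (algebraMap (𝓞 K) K (a : 𝓞 K)) ≤ 1 :=
    v.valuation_le_one (K := K) (a : 𝓞 K)
  have h3 : ¬ v.valuation K (algebraMap (𝓞 K) K (a : 𝓞 K)) < 1 :=
    (v.valuation_lt_one_iff_mem (K := K) (a : 𝓞 K)).not.2 h1
  have h4 : (algebraMap (𝓞 K) K (a : 𝓞 K)) = (a : K) := map_intCast _ _
  rw [h4] at h2 h3
  exact le_antisymm h2 (not_lt.1 h3)

theorem ht : S_HT := by
  intro K _ _ n z hz
  set g := Finset.univ.gcd z with hg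
  obtain ⟨z', hz', hz1⟩ := Finset.extract_gcd z (Finset.univ_nonempty (α := Fin (n + 1)))
  have hzz : z = fun i => g * z' i := funext fun i => hz' i (mem_univ i)
  have hg0 : g ≠ 0 := by
    intro h0
    apply hz 0
    rw [hz' 0 (mem_univ 0), ← hg, h0, zero_mul]
  have hz'0 : ∀ i, z' i ≠ 0 := by
    intro i h0
    apply hz i
    rw [hz' i (mem_univ i), h0, mul_zero]
  have hh : height (fun i => (z i : K)) = height (fun i => (z' i : K)) := by
    rw [hzz]
    exact ht_smul z' g hg0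
  have hr : rad (fun i => (z i : K)) = rad (fun i => (z' i : K)) := by
    rw [hzz]
    exact rad_smul z' g hg0
  have hprim := ht_prim (K := K) z' hz1
  have hle : ∀ i, |(z' i : ℝ)| ≤ ⨆ i, |(z' i : ℝ)| := fun i => Finite.le_ciSup_of_le i le_rfl
  have hpos : 0 < ⨆ i, |(z' i : ℝ)| :=
    lt_of_lt_of_le (abs_pos.2 (by exact_mod_cast hz'0 0)) (hle 0)
  constructor
  · intro X hX
    rw [hh, hprim]
    refine Real.log_le_log hpos ?_
    refine ciSup_le fun i => ?_
    have h1 : |z' i| ≤ |z i| := by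
      rw [hzz]
      show |z' i| ≤ |g * z' i|
      rw [abs_mul]
      have : 1 ≤ |g| := Int.one_le_abs hg0
      nlinarith [abs_nonneg (z' i)]
    exact_mod_cast h1.trans (hX i)
  · intro q k N hq hN hpN hqk ⟨i₀, hi₀⟩
    have hqg : ¬ (q : ℤ) ∣ g := by
      intro h
      apply hi₀
      rw [hz' i₀ (mem_univ _)]
      exact Dvd.dvd.mul_right h _
    have hqk' : (q : ℤ) ^ k ∣ z' (Fin.last n) := by
      rw [hz' _ (mem_univ _)] at hqk
      refine IsCoprime.dvd_of_dvd_mul_left ?_ hqk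
      refine IsCoprime.pow_left ?_
      exact (Prime.coprime_iff_not_dvd (Nat.prime_iff_prime_int.1 hq)).2 hqg
    obtain ⟨m, hm⟩ := hqk'
    have hm0 : m ≠ 0 := by
      intro h0
      apply hz'0 (Fin.last n)
      rw [hm, h0, mul_zero]
    have hq0 : (0 : ℝ) < q := by exact_mod_cast hq.pos
    have hN0 : (0 : ℝ) < N := by exact_mod_cast Nat.pos_of_ne_zero hN
    have hmR : (0 : ℝ) < (m.natAbs : ℝ) := by
      exact_mod_cast Int.natAbs_pos.2 hm0
    have hrad : rad (fun i => (z' i : K)) ≤ Real.log ((N * q * m.natAbs : ℕ) : ℝ) := by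
      refine rad_le _ _ (mul_ne_zero (mul_ne_zero hN hq.ne_zero) (Int.natAbs_ne_zero.2 hm0)) ?_
      intro v hv i
      refine ht_val v (z' i) (hz'0 i) _ hv ?_
      intro p hp hpi
      rcases Fin.eq_castSucc_or_eq_last i with ⟨j, rfl⟩ | rfl
      · have h1 : p ∣ N := by
          refine hpN j p hp ?_
          rw [hz' _ (mem_univ _)]
          exact Dvd.dvd.mul_left hpi _
        exact (h1.mul_right q).mul_right _
      · rw [hm] at hpi
        rcases (Nat.prime_iff_prime_int.1 hp).dvd_or_dvd hpi with h1 | h1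
        · have h2 : p ∣ q := by
            have := (Nat.prime_iff_prime_int.1 hp).dvd_of_dvd_pow h1
            exact_mod_cast this
          exact (h2.mul_left N).mul_right _
        · exact (Int.natCast_dvd.1 h1).mul_left _
    have hlast : (q : ℝ) ^ k * m.natAbs ≤ ⨆ i, |(z' i : ℝ)| := by
      refine le_trans (le_of_eq ?_) (hle (Fin.last n))
      rw [hm]
      push_cast
      rw [abs_mul, abs_pow, Nat.abs_cast, Nat.cast_natAbs]
      push_cast
      rfl
    have hlog := Real.log_le_log (by positivity) hlast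
    rw [Real.log_mul (by positivity) (by positivity), Real.log_pow] at hlog
    rw [hr, hh, hprim]
    rw [Nat.cast_mul, Nat.cast_mul, Real.log_mul (by positivity) hmR.ne',
      Real.log_mul hN0.ne' hq0.ne'] at hrad
    linarith

end Pool.Agent.Helper76.VA
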