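import Pool.Agent.Helper76.VA.Stm

set_option autoImplicit false

namespace Pool.Agent.Helper76.VA

open Finset

theorem poly_count (δ : ℕ) : ∑ i : Fin (δ + 1), (Ioi i).card = (δ + 1).choose 2 := by
  have h1 : ∀ i : Fin (δ + 1), (Ioi i).card = δ - i := by
    intro i
    rw [Fin.card_Ioi]
    omega
  simp_rw [h1]
  rw [Fin.sum_univ_eq_sum_range (fun i => δ - i) (δ + 1), Nat.choose_two_right]
  have h2 := Finset.sum_range_reflect (fun i => i) (δ + 1)
  simp only [Nat.add_sub_cancel] at h2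
  rw [h2, Finset.sum_range_id]

theorem emult_le {q : ℤ} {ℓ : ℕ} {a : ℤ} (h : ¬ q ^ ℓ ∣ a) :
    emultiplicity q a ≤ ((ℓ - 1 : ℕ) : ℕ∞) := by
  have h1 := emultiplicity_lt_iff_not_dvd.2 h
  obtain ⟨m, hm⟩ := ENat.ne_top_iff_exists.1 (ne_top_of_lt h1)
  rw [← hm] at h1 ⊢
  have h2 : m < ℓ := by exact_mod_cast h1
  exact_mod_cast (by omega : m ≤ ℓ - 1)

theorem poly : S_POLY := by
  intro q δ k ℓ Q hq hdeg hco hk x hx
  obtain ⟨i0, hi0⟩ := hco
  by_contra hcon
  push Not at hcon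
  have hqp : Prime (q : ℤ) := Nat.prime_iff_prime_int.1 hq
  -- the determinant is not divisible by `q ^ k`
  have hdet : ¬ (q : ℤ) ^ k ∣ (Matrix.vandermonde x).det := by
    rw [← emultiplicity_lt_iff_not_dvd, Matrix.det_vandermonde,
      Finset.emultiplicity_prod hqp]
    have h1 : ∀ i ∈ (univ : Finset (Fin (δ + 1))), emultiplicity (q : ℤ)
        (∏ j ∈ Ioi i, (x j - x i)) ≤ (((Ioi i).card * (ℓ - 1) : ℕ) : ℕ∞) := by
      intro i _
      rw [Finset.emultiplicity_prod hqp]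
      refine (Finset.sum_le_card_nsmul _ _ (((ℓ - 1 : ℕ)) : ℕ∞) ?_).trans ?_
      · intro j hj
        rw [mem_Ioi] at hj
        exact emult_le (hcon j i hj.ne')
      · rw [nsmul_eq_mul]
        push_cast
        exact le_refl _
    refine (Finset.sum_le_sum h1).trans_lt ?_
    rw [← Nat.cast_sum, ← Finset.sum_mul, poly_count]
    exact_mod_cast (by rw [mul_comm]; exact hk)
  -- Cramer
  have hi0' : i0 < δ + 1 := by
    by_contra hc
    push Not at hc
    apply hi0
    rw [Polynomial.coeff_eq_zero_of_natDegree_lt (by omega)]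
    exact dvd_zero _
  set c : Fin (δ + 1) → ℤ := fun i => Q.coeff i with hc
  have hV : (Matrix.vandermonde x).mulVec c = fun j => Q.eval (x j) := by
    funext j
    rw [Matrix.mulVec, dotProduct]
    rw [Polynomial.eval_eq_sum_range' (n := δ + 1) (by omega)]
    rw [← Fin.sum_univ_eq_sum_range (fun i => Q.coeff i * x j ^ i) (δ + 1)]
    refine Finset.sum_congr rfl fun i _ => ?_
    rw [Matrix.vandermonde_apply, hc, mul_comm]
  have h2 : (Matrix.vandermonde x).adjugate.mulVec ((Matrix.vandermonde x).mulVec c) =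
      (Matrix.vandermonde x).det • c := by
    rw [Matrix.mulVec_mulVec, Matrix.adjugate_mul, Matrix.smul_mulVec, Matrix.one_mulVec]
  have h3 : (q : ℤ) ^ k ∣ (Matrix.vandermonde x).det * c ⟨i0, hi0'⟩ := by
    have h4 := congrFun h2 ⟨i0, hi0'⟩
    rw [Pi.smul_apply, smul_eq_mul] at h4
    rw [← h4, hV, Matrix.mulVec, dotProduct]
    exact Finset.dvd_sum fun j _ => Dvd.dvd.mul_left (hx j) _
  have h5 : IsCoprime ((q : ℤ) ^ k) (c ⟨i0, hi0'⟩) :=
    ((hqp.coprime_iff_not_dvd).2 hi0).pow_left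
  exact hdet (h5.dvd_of_dvd_mul_right h3)

end Pool.Agent.Helper76.VA
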