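import Pool.Agent.Helper76.VA.Stm

set_option autoImplicit false

namespace Pool.Agent.Helper76.VA

open Finset

/-- end-homogeneous sets -/
theorem ram_end (χ : ℕ) : ∀ n : ℕ, ∃ M : ℕ, ∀ (C : Type) [DecidableEq C] (s : Finset ℕ)
    (col : ℕ → ℕ → C) (W : Finset C), M ≤ s.card → W.card ≤ χ →
    (∀ i ∈ s, ∀ j ∈ s, i < j → col i j ∈ W) →
    ∃ t ⊆ s, t.card = n ∧ ∃ κ : ℕ → C, (∀ i ∈ t, κ i ∈ W) ∧
      ∀ i ∈ t, ∀ j ∈ t, i < j → col i j = κ i := by
  intro n
  induction n with
  | zero =>
    refine ⟨0, fun C _ s col W _ _ _ => ⟨∅, empty_subset _, rfl, fun _ => col 0 0, ?_, ?_⟩⟩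
    · intro i hi; exact absurd hi (by simp)
    · intro i hi; exact absurd hi (by simp)
  | succ n ih =>
    obtain ⟨M, hM⟩ := ih
    refine ⟨χ * M + 2, ?_⟩
    intro C _ s col W hs hW hcol
    have hne : s.Nonempty := card_pos.mp (by omega)
    set i₀ := s.min' hne with hi₀
    have hmem : i₀ ∈ s := s.min'_mem hne
    have hmin : ∀ j ∈ s, i₀ ≤ j := fun j hj => s.min'_le j hj
    have hcard : (s.erase i₀).card = s.card - 1 := card_erase_of_mem hmem
    have hlt : ∀ j ∈ s.erase i₀, i₀ < j := fun j hj =>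
      lt_of_le_of_ne (hmin j (mem_of_mem_erase hj)) (ne_of_mem_erase hj).symm
    obtain ⟨γ, hγ, hγc⟩ := exists_lt_card_fiber_of_mul_lt_card_of_maps_to (s := s.erase i₀)
      (t := W) (f := fun j => col i₀ j) (n := M)
      (fun j hj => hcol i₀ hmem j (mem_of_mem_erase hj) (hlt j hj)) (by
        rw [hcard]
        have : W.card * M ≤ χ * M := Nat.mul_le_mul_right M hW
        omega)
    obtain ⟨t, ht, htc, κ, hκ1, hκ2⟩ := hM C ((s.erase i₀).filter fun j => col i₀ j = γ) col W
      hγc.le hW (fun i hi j hj hij => hcol i (mem_of_mem_erase (mem_filter.mp hi).1) j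
        (mem_of_mem_erase (mem_filter.mp hj).1) hij)
    have hnot : i₀ ∉ t := fun h => notMem_erase i₀ s (mem_filter.mp (ht h)).1
    refine ⟨insert i₀ t, ?_, ?_, Function.update κ i₀ γ, ?_, ?_⟩
    · intro i hi
      rcases mem_insert.mp hi with h | h
      · rw [h]; exact hmem
      · exact mem_of_mem_erase (mem_filter.mp (ht h)).1
    · rw [card_insert_of_notMem hnot, htc]
    · intro i hi
      rcases mem_insert.mp hi with h | h
      · rw [h, Function.update_self]; exact hγ
      · have hne1 : i ≠ i₀ := fun h1 => hnot (by rw [← h1]; exact h)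
        rw [Function.update_of_ne hne1]; exact hκ1 i h
    · intro i hi j hj hij
      rcases mem_insert.mp hi with h | h
      · rcases mem_insert.mp hj with h' | h'
        · omega
        · rw [h, Function.update_self]
          exact (mem_filter.mp (ht h')).2
      · rcases mem_insert.mp hj with h' | h'
        · have := hlt i (mem_filter.mp (ht h)).1
          omega
        · have hne1 : i ≠ i₀ := fun h1 => hnot (by rw [← h1]; exact h)
          rw [Function.update_of_ne hne1]
          exact hκ2 i h j h' hij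

theorem ram : S_RAM := by
  intro χ h
  obtain ⟨M, hM⟩ := ram_end χ (χ * h + 1)
  refine ⟨M, ?_⟩
  intro C _ s col W hs hW hcol
  obtain ⟨t, ht, htc, κ, hκ1, hκ2⟩ := hM C s col W hs hW hcol
  obtain ⟨γ, _, hγc⟩ := exists_lt_card_fiber_of_mul_lt_card_of_maps_to (s := t)
    (t := W) (f := κ) (n := h) hκ1 (by
      rw [htc]
      have : W.card * h ≤ χ * h := Nat.mul_le_mul_right h hW
      omega)
  refine ⟨t.filter fun i => κ i = γ, fun i hi => ht (mem_filter.mp hi).1, hγc.le, γ, ?_⟩
  intro i hi j hj hij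
  rw [hκ2 i (mem_filter.mp hi).1 j (mem_filter.mp hj).1 hij]
  exact (mem_filter.mp hi).2

end Pool.Agent.Helper76.VA
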