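import Pool.Agent.Helper76.VA.Stm

/-!
# Module RED (helper40)
-/

set_option autoImplicit false

namespace Pool.Agent.Helper76.VA

open MvPolynomial

theorem red_eval {L : Type} [Field L] [CharZero L] {n : ℕ} (P : MvPolynomial (Fin n) L)
    (ℓ : L →ₗ[ℚ] ℚ) (z : Fin n → ℤ) :
    ℓ (eval (fun i => (z i : L)) P) =
      ∑ ν ∈ P.support, ℓ (coeff ν P) * ((∏ i, z i ^ ν i : ℤ) : ℚ) := by
  rw [eval_eq', map_sum]
  refine Finset.sum_congr rfl fun ν _ => ?_
  have h : coeff ν P * ∏ i, (z i : L) ^ ν i = ((∏ i, z i ^ ν i : ℤ) : ℚ) • coeff ν P := by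
    rw [Algebra.smul_def, mul_comm]
    congr 1
    simp
  rw [h, map_smul, smul_eq_mul, mul_comm]

theorem red_int {σ : Type*} (s : Finset σ) (q : σ → ℚ) :
    ∃ (N : ℕ) (a : σ → ℤ), N ≠ 0 ∧ ∀ ν ∈ s, (a ν : ℚ) = N * q ν := by
  classical
  refine ⟨∏ ν ∈ s, (q ν).den, fun ν => ((∏ ν ∈ s, (q ν).den : ℕ) / (q ν).den : ℕ) * (q ν).num,
    Finset.prod_ne_zero_iff.2 fun ν _ => (q ν).den_nz, fun ν hν => ?_⟩
  have hd : (q ν).den ∣ ∏ ν ∈ s, (q ν).den := Finset.dvd_prod_of_mem _ hν
  obtain ⟨k, hk⟩ := hd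
  have hdp : 0 < (q ν).den := (q ν).den_pos
  show (((((∏ ν ∈ s, (q ν).den : ℕ) / (q ν).den : ℕ) : ℤ) * (q ν).num : ℤ) : ℚ) = _
  rw [hk, Nat.mul_div_cancel_left _ hdp, Int.cast_mul, Int.cast_natCast, Nat.cast_mul,
    ← Rat.den_mul_eq_num]
  ring

theorem red_sub {L : Type} [Field L] {n : ℕ} (F : MvPolynomial (Fin (n + 1)) L)
    (w : Fin n → L) :
    eval w (aeval (Fin.snoc (α := fun _ => MvPolynomial (Fin n) L) (fun i => X i)
      (-∑ i, X i)) F) =
      eval (Fin.snoc (α := fun _ => L) w (-∑ i, w i)) F := by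
  induction F using MvPolynomial.induction_on with
  | C a => simp
  | add p q hp hq => simp only [map_add, hp, hq]
  | mul_X p i hp =>
    rw [map_mul, map_mul, map_mul, hp]
    congr 1
    rw [aeval_X, eval_X]
    refine Fin.lastCases ?_ (fun j => ?_) i
    · simp
    · simp

theorem red : S_RED := by
  classical
  intro L _ _ n F hn hw
  obtain ⟨w, hw0, hwF⟩ := hw
  set F' : MvPolynomial (Fin n) L :=
    aeval (Fin.snoc (α := fun _ => MvPolynomial (Fin n) L) (fun i => X i) (-∑ i, X i)) F with hF'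
  have hF0 : F' ≠ 0 := by
    intro h0
    apply hwF
    have h1 := red_sub F (fun i => w i.castSucc)
    rw [← hF', h0, map_zero] at h1
    rw [h1]
    congr 1
    congr 1
    funext i
    refine Fin.lastCases ?_ (fun j => ?_) i
    · rw [Fin.snoc_last]
      rw [Fin.sum_univ_castSucc] at hw0
      linear_combination hw0
    · rw [Fin.snoc_castSucc]
  have hS0 : (∑ i, X i : MvPolynomial (Fin n) L) ≠ 0 := by
    intro h0
    have h1 := congrArg (eval (Pi.single (⟨0, hn⟩ : Fin n) (1 : L))) h0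
    rw [map_sum, map_zero] at h1
    simp only [eval_X] at h1
    rw [Finset.sum_pi_single'] at h1
    simp at h1
  have hP0 : F' * (∑ i, X i) ≠ 0 := mul_ne_zero hF0 hS0
  set P := F' * (∑ i, X i) with hP
  obtain ⟨μ, hμ⟩ := MvPolynomial.ne_zero_iff.1 hP0
  obtain ⟨ℓ, hℓ⟩ : ∃ ℓ : L →ₗ[ℚ] ℚ, ℓ (coeff μ P) ≠ 0 := by
    by_contra h
    push Not at h
    exact hμ ((Module.forall_dual_apply_eq_zero_iff ℚ _).1 h)
  obtain ⟨N, a, hN, ha⟩ := red_int P.support fun ν => ℓ (coeff ν P)
  have hμs : μ ∈ P.support := mem_support_iff.2 hμ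
  refine ⟨∑ ν ∈ P.support, monomial ν (a ν), ?_, ?_⟩
  · refine MvPolynomial.ne_zero_iff.2 ⟨μ, ?_⟩
    rw [coeff_sum]
    simp only [coeff_monomial]
    rw [Finset.sum_ite_eq' P.support μ a, if_pos hμs]
    intro h0
    have h1 := ha μ hμs
    rw [h0, Int.cast_zero] at h1
    exact mul_ne_zero (by exact_mod_cast hN) hℓ h1.symm
  · intro z hz
    have hkey : eval (fun i => (z i : L)) P ≠ 0 := by
      intro h0
      apply hz
      have h1 := red_eval P ℓ z
      rw [h0, map_zero] at h1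
      have h2 : ((eval z (∑ ν ∈ P.support, monomial ν (a ν)) : ℤ) : ℚ) =
          N * ∑ ν ∈ P.support, ℓ (coeff ν P) * ((∏ i, z i ^ ν i : ℤ) : ℚ) := by
        rw [map_sum, Int.cast_sum, Finset.mul_sum]
        refine Finset.sum_congr rfl fun ν hν => ?_
        rw [eval_monomial, Int.cast_mul, ha ν hν, mul_assoc]
        congr 2
        rw [Finsupp.prod_fintype _ _ (fun i => pow_zero _)]
      rw [← h1, mul_zero] at h2
      exact_mod_cast h2
    rw [hP, map_mul] at hkey
    have hk1 := left_ne_zero_of_mul hkey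
    have hk2 := right_ne_zero_of_mul hkey
    constructor
    · intro h0
      apply hk2
      rw [map_sum]
      simp only [eval_X]
      exact_mod_cast h0
    · rw [hF', red_sub] at hk1
      convert hk1 using 2
      congr 1
      funext i
      refine Fin.lastCases ?_ (fun j => ?_) i
      · simp
      · simp

end Pool.Agent.Helper76.VA
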