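import Pool.Agent.Helper76.VA.Stm

set_option autoImplicit false

namespace Pool.Agent.Helper76.VA

open Finset

theorem res_class (q y X : ℕ) (c : ℤ) (hq : q.Prime) (hqy : q ≤ y) (hc : ¬ (q : ℤ) ∣ c) (r : ℕ) :
    ((U q y (X / q)).filter fun u => u % q = r).card ≤ (Uc q y X c).card := by
  classical
  have : Fact q.Prime := ⟨hq⟩
  by_cases hr : (r : ZMod q) = 0
  · -- the class is empty
    have : ((U q y (X / q)).filter fun u => u % q = r) = ∅ := by
      rw [filter_eq_empty_iff]
      intro u hu hur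
      rw [U, mem_filter, mem_Icc] at hu
      have h1 : q ∣ u := by
        rw [← ZMod.natCast_eq_zero_iff, ← ZMod.natCast_mod u q, hur, hr]
      exact (hu.2 q (Nat.mem_primeFactors.mpr ⟨hq, h1, by omega⟩)).2 rfl
    rw [this, card_empty]
    exact Nat.zero_le _
  · set w : ℕ := ((c : ZMod q) * (r : ZMod q)⁻¹).val with hw
    have hwq : w < q := ZMod.val_lt _
    have hwc : (w : ZMod q) = (c : ZMod q) * (r : ZMod q)⁻¹ := by
      rw [hw, ZMod.natCast_zmod_val]
    have hw0 : w ≠ 0 := by
      intro h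
      rw [h, Nat.cast_zero] at hwc
      rcases mul_eq_zero.mp hwc.symm with h1 | h1
      · exact hc ((ZMod.intCast_zmod_eq_zero_iff_dvd _ _).mp h1)
      · exact hr (inv_eq_zero.mp h1)
    refine card_le_card_of_injOn (fun u => w * u) ?_ ?_
    · intro u hu
      have hu' := mem_filter.mp hu
      obtain ⟨huU, hur⟩ := hu'
      rw [U, mem_filter, mem_Icc] at huU
      obtain ⟨⟨hu1, hu2⟩, hup⟩ := huU
      show w * u ∈ Uc q y X c
      rw [Uc, mem_filter, U, mem_filter, mem_Icc]
      refine ⟨⟨⟨Nat.mul_pos (Nat.pos_of_ne_zero hw0) hu1, ?_⟩, ?_⟩, ?_⟩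
      · calc w * u ≤ q * (X / q) := Nat.mul_le_mul hwq.le hu2
          _ ≤ X := Nat.mul_div_le X q
      · intro p hp
        rw [Nat.primeFactors_mul hw0 (by omega), mem_union] at hp
        rcases hp with hp | hp
        · have h1 := Nat.le_of_mem_primeFactors hp
          exact ⟨by omega, by omega⟩
        · exact hup p hp
      · rw [← ZMod.intCast_eq_intCast_iff]
        push_cast
        have h1 : (u : ZMod q) = r := by
          rw [← ZMod.natCast_mod u q, hur]
        rw [hwc, h1, mul_assoc, inv_mul_cancel₀ hr, mul_one]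
    · intro u _ v _ h
      exact Nat.eq_of_mul_eq_mul_left (Nat.pos_of_ne_zero hw0) h

theorem res : S_RES := by
  classical
  intro q y X c hq hqy hc
  have h1 : (U q y (X / q)).card = ∑ r ∈ range q, ((U q y (X / q)).filter fun u => u % q = r).card :=
    card_eq_sum_card_fiberwise fun u _ => mem_coe.mpr (mem_range.mpr (Nat.mod_lt u hq.pos))
  rw [h1]
  refine (sum_le_card_nsmul _ _ _ fun r _ => res_class q y X c hq hqy hc r).trans ?_
  rw [card_range, smul_eq_mul]

end Pool.Agent.Helper76.VA
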