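import Mathlib

/-!
# Statements of the modules (error term of the n-term abc inequality)
-/

set_option autoImplicit false

namespace Pool.Agent.Helper76.VA

open Finset

/-- the numbers `1 ≤ u ≤ X` all of whose prime factors are `≤ y` and different from `q` -/
def U (q y X : ℕ) : Finset ℕ :=
  (Icc 1 X).filter fun u => ∀ p ∈ u.primeFactors, p ≤ y ∧ p ≠ q

/-- the numbers `1 ≤ u ≤ X` of `U q y X` in the residue class of `c` modulo `q` -/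
def Uc (q y X : ℕ) (c : ℤ) : Finset ℕ :=
  (U q y X).filter fun u => (u : ℤ) ≡ c [ZMOD q]

/-- MODULE ENE: additive energy of `S`-units -/
def S_ENE : Prop := ∀ (S A B : Finset ℕ),
  (∀ a ∈ A, a ≠ 0 ∧ ∀ p, p.Prime → p ∣ a → p ∈ S) →
  (∀ a ∈ B, a ≠ 0 ∧ ∀ p, p.Prime → p ∣ a → p ∈ S) →
  (((A ×ˢ B) ×ˢ (A ×ˢ B)).filter
    (fun t : (ℕ × ℕ) × (ℕ × ℕ) => t.1.1 + t.1.2 = t.2.1 + t.2.2)).card ≤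
    36 ^ S.card * (A.card * B.card)

/-- MODULE SUM (from ENE): many pairs with distinct sums -/
def S_SUM : Prop := ∀ (S A B : Finset ℕ),
  (∀ a ∈ A, a ≠ 0 ∧ ∀ p, p.Prime → p ∣ a → p ∈ S) →
  (∀ a ∈ B, a ≠ 0 ∧ ∀ p, p.Prime → p ∣ a → p ∈ S) →
  ∃ T ⊆ A ×ˢ B, (∀ t ∈ T, ∀ t' ∈ T, t.1 + t.2 = t'.1 + t'.2 → t = t') ∧
    A.card * B.card ≤ 36 ^ S.card * T.card

/-- MODULE RES: every residue class prime to `q` contains many elements of `U` -/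
def S_RES : Prop := ∀ (q y X : ℕ) (c : ℤ), q.Prime → q ≤ y → ¬ (q : ℤ) ∣ c →
  (U q y (X / q)).card ≤ q * (Uc q y X c).card

/-- MODULE ANA: the choice of the parameters -/
def S_ANA : Prop := ∃ c : ℝ, 0 < c ∧ ∀ (q : ℕ) (C : ℝ), q.Prime → ∃ H₀ : ℝ, ∀ H : ℝ, H₀ ≤ H →
  ∃ y X : ℕ, q ≤ y ∧ 2 ≤ y ∧ 1 ≤ X ∧ Real.log X ≤ H - C ∧
    C + 2 * Real.log (U q y X).card ≤ Real.log X ∧
    c * (H ^ (2 / 3 : ℝ) / Real.log H) + Real.log (primorial y) +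
      (Nat.primeCounting y : ℝ) * Real.log 36 + C ≤ 2 * Real.log (U q y (X / q)).card

/-- MODULE POLY: approximate roots are clustered -/
def S_POLY : Prop := ∀ (q δ k ℓ : ℕ) (Q : Polynomial ℤ), q.Prime → Q.natDegree ≤ δ →
  (∃ i, ¬ (q : ℤ) ∣ Q.coeff i) → (ℓ - 1) * (δ + 1).choose 2 < k →
  ∀ x : Fin (δ + 1) → ℤ, (∀ j, (q : ℤ) ^ k ∣ Q.eval (x j)) →
    ∃ i j, i ≠ j ∧ (q : ℤ) ^ ℓ ∣ x i - x j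

/-- MODULE TREE -/
def S_TREE : Prop := ∀ (q n B k : ℕ) (s : Finset ℤ), q.Prime → 1 ≤ n → k ≤ B * n →
  q ^ B < s.card → (∀ x ∈ s, ∀ y ∈ s, x ≠ y → ¬ (q : ℤ) ^ k ∣ x - y) →
  ∃ x ∈ s, ∃ y ∈ s, ∃ z ∈ s, ∃ ν Δ : ℕ, 1 ≤ Δ ∧ Δ < n ∧ x ≠ y ∧ x ≠ z ∧ y ≠ z ∧
    padicValInt q (x - y) = ν ∧ padicValInt q (x - z) = ν ∧ padicValInt q (y - z) = ν + Δ

/-- MODULE RAM: Ramsey's theorem for pairs, with at most `χ` colours -/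
def S_RAM : Prop := ∀ χ h : ℕ, ∃ M : ℕ, ∀ (C : Type) [DecidableEq C] (s : Finset ℕ)
  (col : ℕ → ℕ → C) (W : Finset C), M ≤ s.card → W.card ≤ χ →
  (∀ i ∈ s, ∀ j ∈ s, i < j → col i j ∈ W) →
  ∃ t ⊆ s, h ≤ t.card ∧ ∃ γ : C, ∀ i ∈ t, ∀ j ∈ t, i < j → col i j = γ

/-- the elements `x` of `R` with `x.1 * r + x.2 * p` minimal -/
def edgeSet (R : Finset (ℕ × ℕ)) (p r : ℕ) : Finset (ℕ × ℕ) :=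
  R.filter fun x => ∀ x' ∈ R, x.1 * r + x.2 * p ≤ x'.1 * r + x'.2 * p

/-- the edge polynomial -/
noncomputable def edge (R : Finset (ℕ × ℕ)) (g : ℕ × ℕ → ℤ) (p r : ℕ) : Polynomial ℤ :=
  ∑ x ∈ edgeSet R p r, Polynomial.C (g x) * Polynomial.X ^ (x.2 / r)

/-- MODULE TIE: the Newton polygon argument for one pair: `A = q ^ ν A'`, `σ = q ^ κ σ'` -/
def S_TIE : Prop := ∀ (q δ : ℕ) (R : Finset (ℕ × ℕ)) (g : ℕ × ℕ → ℤ) (ν κ : ℕ) (A' σ' : ℤ),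
  q.Prime → (∀ x ∈ R, x.1 + x.2 ≤ δ) → R.Nonempty → (∀ x ∈ R, ¬ (q : ℤ) ∣ g x) →
  ¬ (q : ℤ) ∣ A' → ¬ (q : ℤ) ∣ σ' → 1 ≤ ν → ν < κ →
  ∑ x ∈ R, g x * (((q : ℤ) ^ ν * A') ^ x.1 * ((q : ℤ) ^ κ * σ') ^ x.2) = 0 →
  ∃ p r : ℕ, 1 ≤ r ∧ r < p ∧ p ≤ δ ∧ Nat.Coprime p r ∧ r * κ = p * ν ∧
    (edge R g p r).natDegree ≤ δ ∧ (∃ i, ¬ (q : ℤ) ∣ (edge R g p r).coeff i) ∧
    ∀ ϖ : ℤ, ϖ * A' ^ p ≡ σ' ^ r [ZMOD (q : ℤ) ^ (ν / r)] →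
      (q : ℤ) ^ (ν / r) ∣ (edge R g p r).eval ϖ

/-- MODULE TRI: three points of the same colour -/
def S_TRI : Prop := ∀ (q p r n Δ Δ' : ℕ) (α β φ ψ γ ω : ℤ), q.Prime → q ≠ 2 → ¬ q ∣ p → 1 ≤ p →
  1 ≤ Δ → Δ < n → Δ < Δ' →
  ¬ (q : ℤ) ∣ α → ¬ (q : ℤ) ∣ β → ¬ (q : ℤ) ∣ φ → ¬ (q : ℤ) ∣ ψ → ¬ (q : ℤ) ∣ γ →
  α - β = (q : ℤ) ^ Δ * γ → φ - ψ = (q : ℤ) ^ Δ' * ω →
  ¬ (φ ^ r * β ^ p ≡ ψ ^ r * α ^ p [ZMOD (q : ℤ) ^ n]) ∧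
  ¬ (φ ^ r * β ^ p ≡ -(ψ ^ r * α ^ p) [ZMOD (q : ℤ) ^ n])

/-- MODULE CORE (from POLY, TREE, RAM, TIE, TRI) -/
def S_CORE : Prop := ∀ (q δ : ℕ) (R : Finset (ℕ × ℕ)), q.Prime → q ≠ 2 → 1 ≤ δ → δ < q →
  (∀ x ∈ R, x.1 + x.2 ≤ δ) → (∃ e, (e, 0) ∈ R) →
  ∃ M k₀ : ℕ, ∀ k, k₀ ≤ k → ∀ (a s : Fin M → ℤ) (g : Fin M → ℕ × ℕ → ℤ),
    (∀ i, ∀ x ∈ R, ¬ (q : ℤ) ∣ g i x) →
    (∀ i j (ℓ : ℕ), ℓ ≤ k → (q : ℤ) ^ ℓ ∣ a i - a j → ∀ x ∈ R, (q : ℤ) ^ ℓ ∣ g i x - g j x) →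
    (∀ i j, i ≠ j → ¬ (q : ℤ) ^ k ∣ a i - a j) →
    (∀ i j, (q : ℤ) ^ k ∣ s i - s j) → (∀ i j, i ≠ j → s i ≠ s j) →
    ∃ i j, i ≠ j ∧ ∑ x ∈ R, g i x * ((a i - a j) ^ x.1 * (s i - s j) ^ x.2) ≠ 0

/-- MODULE GEN (from CORE): pairs `(a i, b i)` with congruent sums give points outside `G = 0` -/
def S_GEN : Prop := ∀ G : MvPolynomial (Fin 4) ℤ, G ≠ 0 →
  ∃ (q M k₀ : ℕ) (x₀ y₀ : ℤ), q.Prime ∧ q ≠ 2 ∧ ¬ (q : ℤ) ∣ x₀ ∧ ¬ (q : ℤ) ∣ y₀ ∧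
    ∀ k, k₀ ≤ k → ∀ (a b : Fin M → ℤ), (∀ i, a i ≡ x₀ [ZMOD q]) → (∀ i, b i ≡ y₀ [ZMOD q]) →
    (∀ i j, i ≠ j → ¬ (q : ℤ) ^ k ∣ a i - a j) →
    (∀ i j, (q : ℤ) ^ k ∣ (a i + b i) - (a j + b j)) →
    (∀ i j, i ≠ j → a i + b i ≠ a j + b j) →
    ∃ i j, i ≠ j ∧ MvPolynomial.eval ![a i, b i, -a j, -b j] G ≠ 0

/-- MODULE TWO: two congruent units -/
def S_TWO : Prop := ∀ g : MvPolynomial (Fin 2) ℤ, g ≠ 0 → ∃ D B : ℕ, ∀ Q : ℕ, B ≤ Q →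
  ∀ a a' : ℕ, 0 < a → 0 < a' → a ≠ a' → Nat.Coprime a Q → Nat.Coprime a' Q →
    (a : ℤ) ≡ a' [ZMOD Q] →
    ∃ e ≤ D, MvPolynomial.eval ![(2 : ℤ) ^ e * a, -((2 : ℤ) ^ e * a')] g ≠ 0

/-- MODULE FRE: free coordinates `T * 2 ^ e` -/
def S_FRE : Prop := ∀ (m f : ℕ) (G : MvPolynomial (Fin m ⊕ Fin f) ℤ), G ≠ 0 →
  ∃ g : MvPolynomial (Fin m) ℤ, g ≠ 0 ∧ ∃ D : ℕ, ∀ v : Fin m → ℤ,
    MvPolynomial.eval v g ≠ 0 → ∀ T : ℤ, T ≠ 0 →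
      ∃ e : Fin f → ℕ, (∀ i, e i ≤ D) ∧
        MvPolynomial.eval (Sum.elim v fun i => T * 2 ^ e i) G ≠ 0

/-- MODULE RED: from a polynomial over a field to one over `ℤ`, with nonzero last coordinate -/
def S_RED : Prop := ∀ (L : Type) [Field L] [CharZero L] (n : ℕ)
  (F : MvPolynomial (Fin (n + 1)) L), 1 ≤ n →
  (∃ w : Fin (n + 1) → L, ∑ i, w i = 0 ∧ MvPolynomial.eval w F ≠ 0) →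
  ∃ G : MvPolynomial (Fin n) ℤ, G ≠ 0 ∧ ∀ z : Fin n → ℤ, MvPolynomial.eval z G ≠ 0 →
    ∑ i, z i ≠ 0 ∧
    MvPolynomial.eval (fun i => ((Fin.snoc (α := fun _ => ℤ) z (-∑ i, z i) i : ℤ) : L)) F ≠ 0

end Pool.Agent.Helper76.VA
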