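import Pool.Agent.Helper76.VA.Stm
import Pool.Graph.R_seed8.W222.ABCD.NF

set_option autoImplicit false

namespace Pool.Agent.Helper76.VA

open Finset NumberField Pool.Agent.W222.ABCD

/-- MODULE HT: height and radical of a point with integral coordinates over a number field
(`height`, `rad` as in `Pool/Graph/R_seed8/W222/ABCD/NF.lean`, where `rad_le` is proved) -/
def S_HT : Prop := ∀ (K : Type) [Field K] [NumberField K] (n : ℕ) (z : Fin (n + 1) → ℤ),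
  (∀ i, z i ≠ 0) →
    (∀ X : ℕ, (∀ i, |z i| ≤ (X : ℤ)) → height (fun i => (z i : K)) ≤ Real.log X) ∧
    (∀ q k N : ℕ, q.Prime → N ≠ 0 →
      (∀ i : Fin n, ∀ p : ℕ, p.Prime → (p : ℤ) ∣ z i.castSucc → p ∣ N) →
      (q : ℤ) ^ k ∣ z (Fin.last n) → (∃ i, ¬ (q : ℤ) ∣ z i) →
      rad (fun i => (z i : K)) + k * Real.log q ≤
        height (fun i => (z i : K)) + Real.log N + Real.log q)

/-- the final statement -/
def S_FIN : Prop := ∃ c : ℝ, 0 < c ∧
  ∀ (K : Type) [Field K] [NumberField K] (n : ℕ), 5 ≤ n →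
  ∀ (L : Type) [Field L] [Algebra K L] (F : MvPolynomial (Fin n) L),
    (∃ w : Fin n → L, ∑ i, w i = 0 ∧ MvPolynomial.eval w F ≠ 0) →
    ∃ H₀ : ℝ, ∀ H : ℝ, H₀ ≤ H → ∃ z : Fin n → K, (∀ i, z i ≠ 0) ∧ ∑ i, z i = 0 ∧
      MvPolynomial.eval (fun i => algebraMap K L (z i)) F ≠ 0 ∧ height z ≤ H ∧
      rad z + c * (H ^ (2 / 3 : ℝ) / Real.log H) ≤ height z

end Pool.Agent.Helper76.VA
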