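import Pool.Agent.Helper76.VA.Stm

/-!
# Module SUM: many pairs of `S`-units with distinct sums (helper2)
-/

set_option autoImplicit false

namespace Pool.Agent.Helper76.VA

open Finset

/-- MODULE SUM (from ENE): many pairs with distinct sums -/
theorem sum (h : S_ENE) : S_SUM := by
  intro S A B hA hB
  classical
  have hE := h S A B hA hB
  set X : Finset (ℕ × ℕ) := A ×ˢ B with hX
  set f : ℕ × ℕ → ℕ := fun t => t.1 + t.2 with hf
  set Sg : Finset ℕ := X.image f with hSg
  obtain ⟨T, hTX, hinj, himg⟩ : ∃ T ⊆ X, Set.InjOn f T ∧ T.image f = Sg := by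
    obtain ⟨T, h1, h2, h3⟩ := Finset.exists_subset_injOn_image_eq_of_surjOn X Sg
      (by rw [hSg, coe_image]; exact Set.surjOn_image f X)
    exact ⟨T, h1, h2, h3⟩
  refine ⟨T, hTX, fun t ht t' ht' e => hinj ht ht' e, ?_⟩
  have hcard : T.card = Sg.card := by rw [← himg, card_image_of_injOn hinj]
  rw [hcard, ← card_product]
  -- Cauchy-Schwarz
  have h1 : X.card = ∑ z ∈ Sg, (X.filter fun x => f x = z).card :=
    card_eq_sum_card_fiberwise fun x hx => mem_coe.2 (mem_image_of_mem f (mem_coe.1 hx))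
  have h2 : ((X ×ˢ X).filter fun t => f t.1 = f t.2).card =
      ∑ z ∈ Sg, (X.filter fun x => f x = z).card ^ 2 := by
    rw [card_eq_sum_card_fiberwise (s := (X ×ˢ X).filter fun t => f t.1 = f t.2)
      (t := Sg) (f := fun t => f t.1) (fun t ht => by
        have ht' := mem_filter.1 (mem_coe.1 ht)
        exact mem_coe.2 (mem_image_of_mem f (mem_product.1 ht'.1).1))]
    refine sum_congr rfl fun z _ => ?_
    rw [sq, ← card_product]
    congr 1
    ext t
    simp only [mem_filter, mem_product]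
    constructor
    · rintro ⟨⟨⟨h1, h2⟩, h3⟩, h4⟩
      exact ⟨⟨h1, h4⟩, h2, by rw [← h3, h4]⟩
    · rintro ⟨⟨h1, h2⟩, h3, h4⟩
      exact ⟨⟨⟨h1, h3⟩, by rw [h2, h4]⟩, h2⟩
  have h3 : X.card ^ 2 ≤ Sg.card * ((X ×ˢ X).filter fun t => f t.1 = f t.2).card := by
    rw [h1, h2]
    exact sq_sum_le_card_mul_sum_sq
  rw [← card_product] at hE
  have h4 : X.card ^ 2 ≤ Sg.card * (36 ^ S.card * X.card) :=
    h3.trans (Nat.mul_le_mul_left _ hE)
  rcases Nat.eq_zero_or_pos X.card with h0 | h0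
  · rw [h0]
    exact Nat.zero_le _
  · refine Nat.le_of_mul_le_mul_left ?_ h0
    calc X.card * X.card = X.card ^ 2 := (sq _).symm
      _ ≤ _ := h4
      _ = _ := by ring

end Pool.Agent.Helper76.VA
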