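import Pool.Agent.Helper76.VA.Stm

set_option autoImplicit false

namespace Pool.Agent.Helper76.VA

open Finset

theorem tie_dvd {q : ℕ} (hq : q.Prime) {m : ℕ} {a b : ℤ} (ha : ¬ (q : ℤ) ∣ a)
    (h : (q : ℤ) ^ m ∣ a * b) : (q : ℤ) ^ m ∣ b := by
  have h1 : IsCoprime (q : ℤ) a := ((Nat.prime_iff_prime_int.1 hq).coprime_iff_not_dvd).2 ha
  exact (h1.pow_left (m := m)).dvd_of_dvd_mul_left h

theorem tie_term (Q A S : ℤ) (ν κ e l : ℕ) (g : ℤ) :
    g * ((Q ^ ν * A) ^ e * (Q ^ κ * S) ^ l) = Q ^ (e * ν + l * κ) * (g * (A ^ e * S ^ l)) := by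
  rw [mul_pow, mul_pow, ← pow_mul, ← pow_mul, pow_add, mul_comm ν e, mul_comm κ l]
  ring

theorem tie_aux (q δ : ℕ) (R : Finset (ℕ × ℕ)) (g : ℕ × ℕ → ℤ) (ν κ : ℕ) (A' σ' : ℤ)
    (hq : q.Prime) (hδ : ∀ x ∈ R, x.1 + x.2 ≤ δ) (hg : ∀ x ∈ R, ¬ (q : ℤ) ∣ g x)
    (hA : ¬ (q : ℤ) ∣ A') (hσ : ¬ (q : ℤ) ∣ σ') (hν : 1 ≤ ν) (hνκ : ν < κ)
    (hsum : ∑ x ∈ R, g x * (((q : ℤ) ^ ν * A') ^ x.1 * ((q : ℤ) ^ κ * σ') ^ x.2) = 0)
    (x y : ℕ × ℕ) (hx : x ∈ R) (hy : y ∈ R) (hlt : y.2 < x.2)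
    (hxy : x.1 * ν + x.2 * κ = y.1 * ν + y.2 * κ)
    (hmin : ∀ z ∈ R, x.1 * ν + x.2 * κ ≤ z.1 * ν + z.2 * κ) :
    ∃ p r : ℕ, 1 ≤ r ∧ r < p ∧ p ≤ δ ∧ Nat.Coprime p r ∧ r * κ = p * ν ∧
    (edge R g p r).natDegree ≤ δ ∧ (∃ i, ¬ (q : ℤ) ∣ (edge R g p r).coeff i) ∧
    ∀ ϖ : ℤ, ϖ * A' ^ p ≡ σ' ^ r [ZMOD (q : ℤ) ^ (ν / r)] →
      (q : ℤ) ^ (ν / r) ∣ (edge R g p r).eval ϖ := by
  classical
  have hqZ : Prime (q : ℤ) := Nat.prime_iff_prime_int.1 hq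
  obtain ⟨b, hb⟩ : ∃ b, x.2 = y.2 + b := ⟨x.2 - y.2, by omega⟩
  have hb1 : 1 ≤ b := by omega
  have hκ0 : 1 ≤ κ := by omega
  have hea : x.1 < y.1 := by
    by_contra hc
    rw [not_lt] at hc
    have h1 : y.1 * ν ≤ x.1 * ν := Nat.mul_le_mul_right _ hc
    have h2 : y.2 * κ < x.2 * κ := Nat.mul_lt_mul_of_pos_right hlt hκ0
    omega
  obtain ⟨a, ha⟩ : ∃ a, y.1 = x.1 + a := ⟨y.1 - x.1, by omega⟩
  have hab : a * ν = b * κ := by
    rw [hb, ha, add_mul, add_mul] at hxy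
    omega
  have hba : b < a := by
    by_contra hc
    rw [not_lt] at hc
    have h1 : a * ν ≤ b * ν := Nat.mul_le_mul_right _ hc
    have h2 : b * ν < b * κ := Nat.mul_lt_mul_of_pos_left hνκ hb1
    omega
  obtain ⟨d, hd⟩ : ∃ d, d = Nat.gcd a b := ⟨_, rfl⟩
  have hd0 : 0 < d := by rw [hd]; exact Nat.gcd_pos_of_pos_right _ hb1
  obtain ⟨p, hp⟩ : d ∣ a := hd ▸ Nat.gcd_dvd_left a b
  obtain ⟨r, hr⟩ : d ∣ b := hd ▸ Nat.gcd_dvd_right a b
  have hcop : Nat.Coprime p r := by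
    have h1 := Nat.coprime_div_gcd_div_gcd (m := a) (n := b) (by rw [← hd]; exact hd0)
    rw [← hd, hp, hr, Nat.mul_div_cancel_left _ hd0, Nat.mul_div_cancel_left _ hd0] at h1
    exact h1
  have hrp : r < p := by
    have h1 : d * r < d * p := by rw [← hp, ← hr]; exact hba
    exact Nat.lt_of_mul_lt_mul_left h1
  have hr1 : 1 ≤ r := by
    rcases Nat.eq_zero_or_pos r with h | h
    · rw [h, mul_zero] at hr
      omega
    · exact h
  have hpδ : p ≤ δ := by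
    have h1 : p ≤ a := by rw [hp]; exact Nat.le_mul_of_pos_left p hd0
    have h2 := hδ y hy
    omega
  have hrκ : r * κ = p * ν := by
    have h1 : d * (r * κ) = d * (p * ν) := by
      rw [← mul_assoc, ← mul_assoc, ← hp, ← hr]
      exact hab.symm
    exact Nat.eq_of_mul_eq_mul_left hd0 h1
  obtain ⟨n1, hn1⟩ : r ∣ ν := by
    have h1 : r ∣ p * ν := ⟨κ, hrκ.symm⟩
    exact (hcop.symm).dvd_of_dvd_mul_left h1
  have hκn : κ = p * n1 := by
    have h1 : r * κ = r * (p * n1) := by rw [hrκ, hn1]; ring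
    exact Nat.eq_of_mul_eq_mul_left hr1 h1
  have hn0 : 1 ≤ n1 := by
    rcases Nat.eq_zero_or_pos n1 with h | h
    · rw [h, mul_zero] at hn1
      omega
    · exact h
  have hdiv : ν / r = n1 := by rw [hn1]; exact Nat.mul_div_cancel_left _ hr1
  have hval : ∀ z : ℕ × ℕ, z.1 * ν + z.2 * κ = n1 * (z.1 * r + z.2 * p) := by
    intro z
    rw [hκn, hn1]
    ring
  have hmin' : ∀ z ∈ R, x.1 * r + x.2 * p ≤ z.1 * r + z.2 * p := by
    intro z hz
    have h1 := hmin z hz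
    rw [hval, hval] at h1
    exact Nat.le_of_mul_le_mul_left h1 hn0
  have hedge : ∀ z, z ∈ edgeSet R p r ↔ z ∈ R ∧ z.1 * r + z.2 * p = x.1 * r + x.2 * p := by
    intro z
    rw [edgeSet, mem_filter]
    constructor
    · rintro ⟨h1, h2⟩
      exact ⟨h1, le_antisymm (h2 x hx) (hmin' z h1)⟩
    · rintro ⟨h1, h2⟩
      refine ⟨h1, fun x' hx' => ?_⟩
      rw [h2]
      exact hmin' x' hx'
  have hxe : x ∈ edgeSet R p r := (hedge x).2 ⟨hx, rfl⟩
  -- residues of the second coordinates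
  have hmod : ∀ z ∈ edgeSet R p r, z.2 % r = x.2 % r := by
    intro z hz
    have h1 := ((hedge z).1 hz).2
    have h2 : z.2 * p ≡ x.2 * p [MOD r] := by
      have h3 : z.1 * r + z.2 * p ≡ x.1 * r + x.2 * p [MOD r] := by rw [h1]
      have h4 : z.1 * r + z.2 * p ≡ z.2 * p [MOD r] := by
        have := (Nat.modEq_zero_iff_dvd.2 (Dvd.intro_left z.1 rfl : r ∣ z.1 * r)).add_right (z.2 * p)
        simpa using this
      have h5 : x.1 * r + x.2 * p ≡ x.2 * p [MOD r] := by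
        have := (Nat.modEq_zero_iff_dvd.2 (Dvd.intro_left x.1 rfl : r ∣ x.1 * r)).add_right (x.2 * p)
        simpa using this
      exact h4.symm.trans (h3.trans h5)
    exact Nat.ModEq.cancel_right_of_coprime hcop.symm h2
  have hE : ∀ z ∈ edgeSet R p r, z.1 + z.2 / r * p = x.1 + x.2 / r * p := by
    intro z hz
    have h1 := ((hedge z).1 hz).2
    have h2 := hmod z hz
    have h3 := Nat.div_add_mod z.2 r
    have h4 := Nat.div_add_mod x.2 r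
    obtain ⟨t, ht⟩ : ∃ t, t = z.2 / r := ⟨_, rfl⟩
    obtain ⟨t', ht'⟩ : ∃ t', t' = x.2 / r := ⟨_, rfl⟩
    obtain ⟨ρ, hρ⟩ : ∃ ρ, ρ = x.2 % r := ⟨_, rfl⟩
    rw [h2, ← ht, ← hρ] at h3
    rw [← ht', ← hρ] at h4
    rw [← ht, ← ht']
    rw [← h3, ← h4] at h1
    have h5 : r * (z.1 + t * p) = r * (x.1 + t' * p) := by
      have e1 : z.1 * r + (r * t + ρ) * p = r * (z.1 + t * p) + ρ * p := by ring
      have e2 : x.1 * r + (r * t' + ρ) * p = r * (x.1 + t' * p) + ρ * p := by ring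
      rw [e1, e2] at h1
      omega
    exact Nat.eq_of_mul_eq_mul_left hr1 h5
  -- the edge terms
  have hsumE : (q : ℤ) ^ n1 ∣ ∑ z ∈ edgeSet R p r, g z * (A' ^ z.1 * σ' ^ z.2) := by
    have h1 : ∑ z ∈ R, (q : ℤ) ^ (n1 * (z.1 * r + z.2 * p)) * (g z * (A' ^ z.1 * σ' ^ z.2)) = 0 := by
      rw [← hsum]
      refine sum_congr rfl fun z _ => ?_
      rw [tie_term, hval]
    have hsub : edgeSet R p r ⊆ R := filter_subset _ _
    rw [← sum_sdiff hsub] at h1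
    have h2 : (q : ℤ) ^ (n1 * (x.1 * r + x.2 * p)) * (q : ℤ) ^ n1 ∣
        ∑ z ∈ R \ edgeSet R p r, (q : ℤ) ^ (n1 * (z.1 * r + z.2 * p)) *
          (g z * (A' ^ z.1 * σ' ^ z.2)) := by
      refine dvd_sum fun z hz => ?_
      rw [mem_sdiff] at hz
      have h3 : x.1 * r + x.2 * p + 1 ≤ z.1 * r + z.2 * p := by
        have h4 := hmin' z hz.1
        have h5 : z.1 * r + z.2 * p ≠ x.1 * r + x.2 * p := fun h => hz.2 ((hedge z).2 ⟨hz.1, h⟩)
        omega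
      rw [← pow_add]
      refine Dvd.dvd.mul_right (pow_dvd_pow _ ?_) _
      calc n1 * (x.1 * r + x.2 * p) + n1 = n1 * (x.1 * r + x.2 * p + 1) := by ring
        _ ≤ n1 * (z.1 * r + z.2 * p) := Nat.mul_le_mul_left _ h3
    have h3 : ∑ z ∈ edgeSet R p r, (q : ℤ) ^ (n1 * (z.1 * r + z.2 * p)) *
          (g z * (A' ^ z.1 * σ' ^ z.2)) =
        (q : ℤ) ^ (n1 * (x.1 * r + x.2 * p)) * ∑ z ∈ edgeSet R p r, g z * (A' ^ z.1 * σ' ^ z.2) := by
      rw [mul_sum]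
      refine sum_congr rfl fun z hz => ?_
      rw [((hedge z).1 hz).2]
    rw [h3] at h1
    have h4 : (q : ℤ) ^ (n1 * (x.1 * r + x.2 * p)) * (q : ℤ) ^ n1 ∣
        (q : ℤ) ^ (n1 * (x.1 * r + x.2 * p)) *
          ∑ z ∈ edgeSet R p r, g z * (A' ^ z.1 * σ' ^ z.2) := by
      have h5 := eq_neg_of_add_eq_zero_right h1
      rw [h5]
      exact (dvd_neg).2 h2
    exact (mul_dvd_mul_iff_left (pow_ne_zero _ hqZ.ne_zero)).1 h4
  refine ⟨p, r, hr1, hrp, hpδ, hcop, hrκ, ?_, ⟨x.2 / r, ?_⟩, fun ϖ hϖ => ?_⟩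
  · refine Polynomial.natDegree_sum_le_of_forall_le _ _ fun z hz => ?_
    refine (Polynomial.natDegree_C_mul_X_pow_le _ _).trans ?_
    have h1 := hδ z ((hedge z).1 hz).1
    have h2 := Nat.div_le_self z.2 r
    omega
  · have h1 : (edge R g p r).coeff (x.2 / r) = g x := by
      rw [edge, Polynomial.finsetSum_coeff, sum_eq_single_of_mem x hxe]
      · rw [Polynomial.coeff_C_mul_X_pow, if_pos rfl]
      · intro z hz hzx
        rw [Polynomial.coeff_C_mul_X_pow, if_neg]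
        intro h
        apply hzx
        have h1 := hE z hz
        have h2 := hmod z hz
        have h3 := Nat.div_add_mod z.2 r
        have h4 := Nat.div_add_mod x.2 r
        rw [← h] at h1
        rw [h2, ← h, h4] at h3
        exact Prod.ext (by omega) h3.symm
    rw [h1]
    exact hg x hx
  · rw [hdiv] at hϖ ⊢
    have h1 : ∑ z ∈ edgeSet R p r, g z * (A' ^ z.1 * σ' ^ z.2) ≡
        (A' ^ (x.1 + x.2 / r * p) * σ' ^ (x.2 % r)) * (edge R g p r).eval ϖ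
          [ZMOD (q : ℤ) ^ n1] := by
      rw [edge, Polynomial.eval_finsetSum, mul_sum]
      refine Int.ModEq.sum fun z hz => ?_
      rw [Polynomial.eval_mul, Polynomial.eval_C, Polynomial.eval_pow, Polynomial.eval_X]
      have h2 := hE z hz
      have h3 := hmod z hz
      have h4 := Nat.div_add_mod z.2 r
      have h5 : σ' ^ z.2 = (σ' ^ r) ^ (z.2 / r) * σ' ^ (x.2 % r) := by
        rw [← pow_mul, ← pow_add, ← h3, h4]
      have h6 : (σ' ^ r) ^ (z.2 / r) ≡ (ϖ * A' ^ p) ^ (z.2 / r) [ZMOD (q : ℤ) ^ n1] :=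
        (hϖ.symm).pow _
      have h7 : A' ^ (x.1 + x.2 / r * p) = A' ^ z.1 * (A' ^ p) ^ (z.2 / r) := by
        rw [← h2, pow_add, ← pow_mul, mul_comm p]
      rw [h5, h7]
      have h8 : A' ^ z.1 * (A' ^ p) ^ (z.2 / r) * σ' ^ (x.2 % r) * (g z * ϖ ^ (z.2 / r)) =
          g z * (A' ^ z.1 * ((ϖ * A' ^ p) ^ (z.2 / r) * σ' ^ (x.2 % r))) := by
        rw [mul_pow]
        ring
      rw [h8]
      exact ((h6.mul_right _).mul_left _).mul_left _
    have h2 : (q : ℤ) ^ n1 ∣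
        (A' ^ (x.1 + x.2 / r * p) * σ' ^ (x.2 % r)) * (edge R g p r).eval ϖ :=
      (Int.ModEq.dvd_iff h1).1 hsumE
    refine tie_dvd hq ?_ h2
    intro h
    rcases hqZ.dvd_or_dvd h with h | h
    · exact hA (hqZ.dvd_of_dvd_pow h)
    · exact hσ (hqZ.dvd_of_dvd_pow h)

theorem tie : S_TIE := by
  classical
  intro q δ R g ν κ A' σ' hq hδ hR hg hA hσ hν hνκ hsum
  have hqZ : Prime (q : ℤ) := Nat.prime_iff_prime_int.1 hq
  obtain ⟨x, hx, hmin⟩ := R.exists_min_image (fun x => x.1 * ν + x.2 * κ) hR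
  have h2 : ∃ y ∈ R, y ≠ x ∧ y.1 * ν + y.2 * κ = x.1 * ν + x.2 * κ := by
    by_contra hc
    push Not at hc
    have h3 : (q : ℤ) ^ (x.1 * ν + x.2 * κ) * q ∣
        g x * (((q : ℤ) ^ ν * A') ^ x.1 * ((q : ℤ) ^ κ * σ') ^ x.2) := by
      rw [← add_sum_erase R _ hx] at hsum
      rw [eq_neg_of_add_eq_zero_left hsum, dvd_neg]
      refine dvd_sum fun y hy => ?_
      rw [mem_erase] at hy
      have h4 := hmin y hy.2
      have h5 := hc y hy.2 hy.1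
      rw [tie_term, ← pow_succ]
      exact Dvd.dvd.mul_right (pow_dvd_pow _ (by omega)) _
    rw [tie_term] at h3
    have h4 : (q : ℤ) ∣ g x * (A' ^ x.1 * σ' ^ x.2) :=
      (mul_dvd_mul_iff_left (pow_ne_zero _ hqZ.ne_zero)).1 h3
    rcases hqZ.dvd_or_dvd h4 with h | h
    · exact hg x hx h
    · rcases hqZ.dvd_or_dvd h with h | h
      · exact hA (hqZ.dvd_of_dvd_pow h)
      · exact hσ (hqZ.dvd_of_dvd_pow h)
  obtain ⟨y, hy, hyx, hval⟩ := h2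
  rcases lt_trichotomy y.2 x.2 with h | h | h
  · exact tie_aux q δ R g ν κ A' σ' hq hδ hg hA hσ hν hνκ hsum x y hx hy h hval.symm hmin
  · exfalso
    rw [h] at hval
    have h1 : y.1 * ν = x.1 * ν := by omega
    exact hyx (Prod.ext (Nat.eq_of_mul_eq_mul_right hν h1) h)
  · refine tie_aux q δ R g ν κ A' σ' hq hδ hg hA hσ hν hνκ hsum y x hy hx h hval fun z hz => ?_
    rw [hval]
    exact hmin z hz

end Pool.Agent.Helper76.VA
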