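import Pool.Agent.Helper76.VA.Stm

set_option autoImplicit false
set_option linter.unusedVariables false

namespace Pool.Agent.Helper76.VA

open Finset

/-- a class with more than `q` subclasses -/
theorem tree_split (q n B k : ℕ) (s : Finset ℤ) (hq : q.Prime) (hkB : k ≤ B * n)
    (hs : q ^ B < s.card) (hk : ∀ x ∈ s, ∀ y ∈ s, x ≠ y → ¬ (q : ℤ) ^ k ∣ x - y) :
    ∃ (b : ℕ) (T : Finset ℤ), T ⊆ s ∧ q < T.card ∧
      (∀ x ∈ T, ∀ y ∈ T, (q : ℤ) ^ (b * n) ∣ x - y) ∧
      ∀ x ∈ T, ∀ y ∈ T, x ≠ y → ¬ (q : ℤ) ^ ((b + 1) * n) ∣ x - y := by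
  classical
  by_contra hcon
  push Not at hcon
  have hind : ∀ b : ℕ, (s.image fun x => x % (q : ℤ) ^ (b * n)).card ≤ q ^ b := by
    intro b
    induction b with
    | zero =>
      rw [pow_zero]
      refine Finset.card_le_one.2 ?_
      intro a ha a' ha'
      obtain ⟨x, -, rfl⟩ := mem_image.1 ha
      obtain ⟨y, -, rfl⟩ := mem_image.1 ha'
      simp
    | succ b ih =>
      set S := s.image fun x => x % (q : ℤ) ^ ((b + 1) * n) with hS
      have hd : (q : ℤ) ^ (b * n) ∣ (q : ℤ) ^ ((b + 1) * n) :=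
        pow_dvd_pow _ (Nat.mul_le_mul_right n (Nat.le_succ b))
      have h1 : S.image (fun x => x % (q : ℤ) ^ (b * n)) = s.image fun x => x % (q : ℤ) ^ (b * n) := by
        rw [hS, Finset.image_image]
        refine Finset.image_congr fun x _ => ?_
        simp only [Function.comp]
        exact Int.emod_emod_of_dvd x hd
      have h2 : S.card ≤ q * (S.image (fun x => x % (q : ℤ) ^ (b * n))).card := by
        refine Finset.card_le_mul_card_image S q fun a ha => ?_
        by_contra hc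
        push Not at hc
        set F := S.filter (fun x => x % (q : ℤ) ^ (b * n) = a) with hF
        have hch : ∀ y ∈ F, ∃ x ∈ s, x % (q : ℤ) ^ ((b + 1) * n) = y := by
          intro y hy
          exact mem_image.1 (mem_filter.1 hy).1
        choose! g hg1 hg2 using hch
        have hinj : Set.InjOn g (F : Set ℤ) := by
          intro y hy y' hy' hyy
          rw [← hg2 y hy, ← hg2 y' hy', hyy]
        obtain ⟨x, hx, y, hy, hxy, hdvd⟩ := hcon b (F.image g)
          (fun x hx => by obtain ⟨y, hy, rfl⟩ := mem_image.1 hx; exact hg1 y hy)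
          (by rw [Finset.card_image_of_injOn hinj]; exact hc)
          (fun x hx y hy => by
            obtain ⟨u, hu, rfl⟩ := mem_image.1 hx
            obtain ⟨v, hv, rfl⟩ := mem_image.1 hy
            have e1 : g u % (q : ℤ) ^ (b * n) = a := by
              rw [← Int.emod_emod_of_dvd (g u) hd, hg2 u hu]
              exact (mem_filter.1 hu).2
            have e2 : g v % (q : ℤ) ^ (b * n) = a := by
              rw [← Int.emod_emod_of_dvd (g v) hd, hg2 v hv]
              exact (mem_filter.1 hv).2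
            exact Int.ModEq.dvd (show g v ≡ g u [ZMOD _] from e2.trans e1.symm))
        obtain ⟨u, hu, rfl⟩ := mem_image.1 hx
        obtain ⟨v, hv, rfl⟩ := mem_image.1 hy
        apply hxy
        have e1 : g v ≡ g u [ZMOD (q : ℤ) ^ ((b + 1) * n)] := Int.modEq_iff_dvd.2 hdvd
        have e2 : v = u := by
          rw [← hg2 v hv, ← hg2 u hu]
          exact e1
        rw [e2]
      rw [h1] at h2
      calc S.card ≤ q * (s.image fun x => x % (q : ℤ) ^ (b * n)).card := h2
        _ ≤ q * q ^ b := Nat.mul_le_mul_left q ih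
        _ = q ^ (b + 1) := by ring
  have hB := hind B
  rw [Finset.card_image_of_injOn] at hB
  · omega
  · intro x hx y hy hxy
    by_contra hne
    apply hk x hx y hy hne
    have h1 : (q : ℤ) ^ (B * n) ∣ x - y :=
      Int.ModEq.dvd (show y ≡ x [ZMOD _] from Eq.symm hxy)
    exact (pow_dvd_pow _ hkB).trans h1

theorem tree : S_TREE := by
  classical
  intro q n B k s hq hn hkB hs hk
  have : Fact q.Prime := ⟨hq⟩
  obtain ⟨b, T, hTs, hTc, hlow, hup⟩ := tree_split q n B k s hq hkB hs hk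
  have hq2 := hq.two_le
  -- the pairs of different elements
  have hoff : T.offDiag.Nonempty := by
    obtain ⟨x, hx, y, hy, hxy⟩ := Finset.one_lt_card.1 (show 1 < T.card by omega)
    exact ⟨(x, y), Finset.mem_offDiag.2 ⟨hx, hy, hxy⟩⟩
  obtain ⟨t, ht, hmin⟩ := Finset.exists_min_image T.offDiag
    (fun t => padicValInt q (t.1 - t.2)) hoff
  obtain ⟨x₀, y₀⟩ := t
  obtain ⟨hx₀, hy₀, hne₀⟩ := Finset.mem_offDiag.1 ht
  set ν := padicValInt q (x₀ - y₀) with hν
  have hdν : ∀ x ∈ T, ∀ y ∈ T, (q : ℤ) ^ ν ∣ x - y := by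
    intro x hx y hy
    by_cases hxy : x = y
    · rw [hxy, sub_self]; exact dvd_zero _
    · exact (padicValInt_dvd_iff ν _).2 (Or.inr (hmin (x, y) (Finset.mem_offDiag.2 ⟨hx, hy, hxy⟩)))
  have hnν : ¬ (q : ℤ) ^ (ν + 1) ∣ x₀ - y₀ := by
    intro h
    rcases (padicValInt_dvd_iff (ν + 1) _).1 h with h | h
    · exact hne₀ (sub_eq_zero.1 h)
    · omega
  -- pigeonhole
  have hpig : ∃ y ∈ T, ∃ z ∈ T, y ≠ z ∧ (q : ℤ) ^ (ν + 1) ∣ y - z := by
    obtain ⟨y, hy, z, hz, hyz, he⟩ := Finset.exists_ne_map_eq_of_card_lt_of_maps_to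
      (s := T) (t := (univ : Finset (ZMod q)))
      (by rw [Finset.card_univ, ZMod.card]; exact hTc)
      (f := fun x => (((x - x₀) / (q : ℤ) ^ ν : ℤ) : ZMod q)) (fun x _ => mem_univ _)
    refine ⟨y, hy, z, hz, hyz, ?_⟩
    obtain ⟨u, hu⟩ := hdν y hy x₀ hx₀
    obtain ⟨v, hv⟩ := hdν z hz x₀ hx₀
    have hqν : ((q : ℤ) ^ ν) ≠ 0 := pow_ne_zero _ (by exact_mod_cast hq.ne_zero)
    rw [hu, hv, Int.mul_ediv_cancel_left _ hqν, Int.mul_ediv_cancel_left _ hqν,
      ZMod.intCast_eq_intCast_iff_dvd_sub] at he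
    have e : y - z = (q : ℤ) ^ ν * (u - v) := by linear_combination hu - hv
    rw [e, pow_succ]
    refine mul_dvd_mul_left _ ?_
    rw [← neg_sub]
    exact (dvd_neg).2 he
  obtain ⟨y, hy, z, hz, hyz, hdyz⟩ := hpig
  have hx : ∃ x ∈ T, ¬ (q : ℤ) ^ (ν + 1) ∣ x - y := by
    by_cases h : (q : ℤ) ^ (ν + 1) ∣ x₀ - y
    · refine ⟨y₀, hy₀, fun h' => hnν ?_⟩
      have := dvd_sub h h'
      rwa [sub_sub_sub_cancel_right] at this
    · exact ⟨x₀, hx₀, h⟩
  obtain ⟨x, hxT, hxy⟩ := hx
  have hxz : ¬ (q : ℤ) ^ (ν + 1) ∣ x - z := by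
    intro h
    apply hxy
    have := dvd_sub h hdyz
    rwa [sub_sub_sub_cancel_right] at this
  have hxy' : x ≠ y := by
    rintro rfl
    rw [sub_self] at hxy
    exact hxy (dvd_zero _)
  have hxz' : x ≠ z := by
    rintro rfl
    rw [sub_self] at hxz
    exact hxz (dvd_zero _)
  have hval : ∀ w ∈ T, x ≠ w → ¬ (q : ℤ) ^ (ν + 1) ∣ x - w → padicValInt q (x - w) = ν := by
    intro w hw hne hnd
    refine le_antisymm ?_ ?_
    · by_contra hc
      push Not at hc
      exact hnd ((padicValInt_dvd_iff (ν + 1) _).2 (Or.inr hc))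
    · rcases (padicValInt_dvd_iff ν _).1 (hdν x hxT w hw) with h | h
      · exact absurd (sub_eq_zero.1 h) hne
      · exact h
  have hyz1 : ν + 1 ≤ padicValInt q (y - z) := by
    rcases (padicValInt_dvd_iff (ν + 1) _).1 hdyz with h | h
    · exact absurd (sub_eq_zero.1 h) hyz
    · exact h
  have hνb : b * n ≤ ν := by
    rcases (padicValInt_dvd_iff (b * n) _).1 (hlow x₀ hx₀ y₀ hy₀) with h | h
    · exact absurd (sub_eq_zero.1 h) hne₀
    · exact h
  have hyz2 : padicValInt q (y - z) < (b + 1) * n := by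
    by_contra hc
    push Not at hc
    exact hup y hy z hz hyz ((padicValInt_dvd_iff _ _).2 (Or.inr hc))
  have hbn : (b + 1) * n = b * n + n := by ring
  refine ⟨x, hTs hxT, y, hTs hy, z, hTs hz, ν, padicValInt q (y - z) - ν, by omega, by omega,
    hxy', hxz', hyz, hval y hy hxy' hxy, hval z hz hxz' hxz, by omega⟩

end Pool.Agent.Helper76.VA
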