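import Pool.Agent.Helper76.VA.Stm

set_option autoImplicit false

namespace Pool.Agent.Helper76.VA

open Finset

theorem tri_aux {q : ℕ} (hq : q.Prime) {m : ℕ} {a b : ℤ} (ha : ¬ (q : ℤ) ∣ a)
    (h : (q : ℤ) ^ m ∣ a * b) : (q : ℤ) ^ m ∣ b := by
  have h1 : IsCoprime (q : ℤ) a := ((Nat.prime_iff_prime_int.1 hq).coprime_iff_not_dvd).2 ha
  exact (h1.pow_left (m := m)).dvd_of_dvd_mul_left h

theorem tri : S_TRI := by
  intro q p r n Δ Δ' α β φ ψ γ ω hq hq2 hqp hp hΔ hΔn hΔΔ hα hβ hφ hψ hγ hαβ hφψ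
  have hqZ : Prime (q : ℤ) := Nat.prime_iff_prime_int.1 hq
  have hΔn' : (q : ℤ) ^ (Δ + 1) ∣ (q : ℤ) ^ n := pow_dvd_pow _ hΔn
  have hφψ' : (q : ℤ) ^ (Δ + 1) ∣ φ ^ r - ψ ^ r := by
    refine dvd_trans ?_ (sub_dvd_pow_sub_pow φ ψ r)
    rw [hφψ]
    exact Dvd.dvd.mul_right (pow_dvd_pow _ hΔΔ) _
  have hψr : ¬ (q : ℤ) ∣ ψ ^ r := fun h => hψ (hqZ.dvd_of_dvd_pow h)
  have hqab : (q : ℤ) ∣ α - β := by
    rw [hαβ]
    exact Dvd.dvd.mul_right (dvd_pow_self _ (by omega)) _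
  constructor
  · intro h
    have h1 : (q : ℤ) ^ (Δ + 1) ∣ ψ ^ r * α ^ p - φ ^ r * β ^ p := hΔn'.trans h.dvd
    have h2 : (q : ℤ) ^ (Δ + 1) ∣ ψ ^ r * (α ^ p - β ^ p) := by
      have h3 : ψ ^ r * (α ^ p - β ^ p) =
          (ψ ^ r * α ^ p - φ ^ r * β ^ p) + (φ ^ r - ψ ^ r) * β ^ p := by ring
      rw [h3]
      exact dvd_add h1 (Dvd.dvd.mul_right hφψ' _)
    have h4 := tri_aux hq hψr h2
    rw [← (Commute.all α β).geom_sum₂_mul, hαβ] at h4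
    have h5 : (q : ℤ) ^ Δ * (q : ℤ) ∣
        (q : ℤ) ^ Δ * ((∑ i ∈ range p, α ^ i * β ^ (p - 1 - i)) * γ) := by
      rw [← pow_succ]
      convert h4 using 1
      ring
    have h6 : (q : ℤ) ∣ (∑ i ∈ range p, α ^ i * β ^ (p - 1 - i)) * γ :=
      (mul_dvd_mul_iff_left (pow_ne_zero _ hqZ.ne_zero)).1 h5
    rcases hqZ.dvd_or_dvd h6 with h7 | h7
    · rw [dvd_geom_sum₂_iff_of_dvd_sub hqab] at h7
      rcases hqZ.dvd_or_dvd h7 with h8 | h8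
      · exact hqp (Int.natCast_dvd_natCast.1 h8)
      · exact hβ (hqZ.dvd_of_dvd_pow h8)
    · exact hγ h7
  · intro h
    have h1 : (q : ℤ) ^ (Δ + 1) ∣ -(ψ ^ r * α ^ p) - φ ^ r * β ^ p := hΔn'.trans h.dvd
    have h2 : (q : ℤ) ^ (Δ + 1) ∣ ψ ^ r * (α ^ p + β ^ p) := by
      have h3 : ψ ^ r * (α ^ p + β ^ p) =
          -(-(ψ ^ r * α ^ p) - φ ^ r * β ^ p) - (φ ^ r - ψ ^ r) * β ^ p := by ring
      rw [h3]
      exact dvd_sub ((dvd_neg).2 h1) (Dvd.dvd.mul_right hφψ' _)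
    have h4 := tri_aux hq hψr h2
    have h5 : (q : ℤ) ∣ α ^ p + β ^ p := dvd_trans (dvd_pow_self _ (by omega)) h4
    have h6 : (q : ℤ) ∣ α ^ p - β ^ p := hqab.trans (sub_dvd_pow_sub_pow α β p)
    have h7 : (q : ℤ) ∣ 2 * β ^ p := by
      have : 2 * β ^ p = (α ^ p + β ^ p) - (α ^ p - β ^ p) := by ring
      rw [this]
      exact dvd_sub h5 h6
    rcases hqZ.dvd_or_dvd h7 with h8 | h8
    · have h9 : q ∣ 2 := by exact_mod_cast h8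
      rcases (Nat.dvd_prime Nat.prime_two).1 h9 with h10 | h10
      · exact hq.one_lt.ne' h10
      · exact hq2 h10
    · exact hβ (hqZ.dvd_of_dvd_pow h8)

end Pool.Agent.Helper76.VA
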