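import Pool.Agent.Helper76.VA.Stm

set_option autoImplicit false

namespace Pool.Agent.Helper76.VA

open Finset

/-- the homogeneous part of degree `j` in one variable -/
noncomputable def twoq (g : MvPolynomial (Fin 2) ℤ) (j : ℕ) : Polynomial ℤ :=
  ∑ m ∈ g.support.filter (fun m => m 0 + m 1 = j),
    Polynomial.C (g.coeff m * (-1) ^ m 1) * Polynomial.X ^ m 0

theorem twoq_coeff (g : MvPolynomial (Fin 2) ℤ) (j k : ℕ) :
    (twoq g j).coeff k = ∑ m ∈ g.support.filter (fun m => m 0 + m 1 = j),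
      if k = m 0 then g.coeff m * (-1) ^ m 1 else 0 := by
  unfold twoq
  rw [Polynomial.finsetSum_coeff]
  refine sum_congr rfl fun m _ => ?_
  rw [Polynomial.coeff_C_mul, Polynomial.coeff_X_pow]
  split_ifs <;> simp

theorem twoq_bd (g : MvPolynomial (Fin 2) ℤ) (j k : ℕ) :
    ((twoq g j).coeff k).natAbs ≤ ∑ m ∈ g.support, (g.coeff m).natAbs := by
  rw [twoq_coeff]
  have h1 : (∑ m ∈ g.support.filter (fun m => m 0 + m 1 = j),
      if k = m 0 then g.coeff m * (-1) ^ m 1 else 0).natAbs ≤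
      ∑ m ∈ g.support.filter (fun m => m 0 + m 1 = j),
        (if k = m 0 then g.coeff m * (-1) ^ m 1 else 0).natAbs := Int.natAbs_sum_le _ _
  refine h1.trans ?_
  have h2 : ∀ m ∈ g.support.filter (fun m => m 0 + m 1 = j),
      (if k = m 0 then g.coeff m * (-1) ^ m 1 else 0).natAbs ≤ (g.coeff m).natAbs := by
    intro m _
    split_ifs
    · rw [Int.natAbs_mul, Int.natAbs_pow]
      simp
    · simp
  exact (sum_le_sum h2).trans (sum_le_sum_of_subset (filter_subset _ _))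

theorem twoq_ne (g : MvPolynomial (Fin 2) ℤ) (m : Fin 2 →₀ ℕ) (hm : m ∈ g.support) :
    twoq g (m 0 + m 1) ≠ 0 := by
  intro h
  have h1 := twoq_coeff g (m 0 + m 1) (m 0)
  rw [h, Polynomial.coeff_zero, sum_eq_single m] at h1
  · rw [if_pos rfl] at h1
    have h2 := MvPolynomial.mem_support_iff.mp hm
    have h3 : ((-1 : ℤ)) ^ m 1 ≠ 0 := pow_ne_zero _ (by norm_num)
    exact mul_ne_zero h2 h3 h1.symm
  · intro m' hm' hne
    rw [mem_filter] at hm'
    rw [if_neg]
    intro h2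
    apply hne
    ext i
    fin_cases i
    · exact h2.symm
    · show m' 1 = m 1
      have := hm'.2
      omega
  · intro h2
    exact absurd (mem_filter.mpr (⟨hm, rfl⟩ : m ∈ g.support ∧ m 0 + m 1 = m 0 + m 1)) h2

/-- the polynomial in the scaling -/
noncomputable def twop (g : MvPolynomial (Fin 2) ℤ) (a a' : ℤ) : Polynomial ℤ :=
  ∑ m ∈ g.support, Polynomial.C (g.coeff m * (a ^ m 0 * (-a') ^ m 1)) * Polynomial.X ^ (m 0 + m 1)

theorem twop_eval (g : MvPolynomial (Fin 2) ℤ) (a a' t : ℤ) :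
    (twop g a a').eval t = MvPolynomial.eval ![t * a, -(t * a')] g := by
  unfold twop
  rw [Polynomial.eval_finsetSum, MvPolynomial.eval_eq']
  refine sum_congr rfl fun m _ => ?_
  rw [Fin.prod_univ_two, Polynomial.eval_mul, Polynomial.eval_C, Polynomial.eval_pow,
    Polynomial.eval_X]
  show g.coeff m * (a ^ m 0 * (-a') ^ m 1) * t ^ (m 0 + m 1) =
    g.coeff m * ((t * a) ^ m 0 * (-(t * a')) ^ m 1)
  have h : -(t * a') = t * -a' := by ring
  rw [h, mul_pow, mul_pow, pow_add]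
  ring

theorem twop_deg (g : MvPolynomial (Fin 2) ℤ) (a a' : ℤ) :
    (twop g a a').natDegree ≤ g.totalDegree := by
  unfold twop
  refine Polynomial.natDegree_sum_le_of_forall_le _ _ fun m hm => ?_
  refine (Polynomial.natDegree_C_mul_X_pow_le _ _).trans ?_
  have h := MvPolynomial.le_totalDegree hm
  rw [Finsupp.sum_fintype _ _ (fun _ => rfl), Fin.sum_univ_two] at h
  exact h

theorem twop_coeff (g : MvPolynomial (Fin 2) ℤ) (a a' : ℤ) (j : ℕ) :
    (twop g a a').coeff j = ∑ m ∈ g.support.filter (fun m => m 0 + m 1 = j),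
      g.coeff m * (a ^ m 0 * (-a') ^ m 1) := by
  unfold twop
  rw [Polynomial.finsetSum_coeff, sum_filter]
  refine sum_congr rfl fun m _ => ?_
  rw [Polynomial.coeff_C_mul, Polynomial.coeff_X_pow]
  by_cases h : m 0 + m 1 = j
  · rw [if_pos h.symm, if_pos h, mul_one]
  · rw [if_neg (Ne.symm h), if_neg h, mul_zero]

theorem twoq_root (g : MvPolynomial (Fin 2) ℤ) (a a' : ℤ) (ha' : a' ≠ 0) (j : ℕ)
    (h : ∑ m ∈ g.support.filter (fun m => m 0 + m 1 = j),
      g.coeff m * (a ^ m 0 * (-a') ^ m 1) = 0) :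
    Polynomial.aeval ((a : ℚ) / a') (twoq g j) = 0 := by
  have ha : (a' : ℚ) ≠ 0 := by exact_mod_cast ha'
  have h1 : (a' : ℚ) ^ j * Polynomial.aeval ((a : ℚ) / a') (twoq g j) = 0 := by
    unfold twoq
    rw [map_sum, mul_sum]
    have h2 : ∀ m ∈ g.support.filter (fun m => m 0 + m 1 = j),
        (a' : ℚ) ^ j * Polynomial.aeval ((a : ℚ) / a')
          (Polynomial.C (g.coeff m * (-1) ^ m 1) * Polynomial.X ^ m 0 : Polynomial ℤ) =
        ((g.coeff m * (a ^ m 0 * (-a') ^ m 1) : ℤ) : ℚ) := by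
      intro m hm
      rw [mem_filter] at hm
      rw [map_mul, Polynomial.aeval_C, eq_intCast (algebraMap ℤ ℚ), map_pow, Polynomial.aeval_X,
        ← hm.2, pow_add]
      push_cast
      rw [div_pow, neg_pow (a' : ℚ) (m 1)]
      field_simp
    rw [sum_congr rfl h2, ← Int.cast_sum, h, Int.cast_zero]
  exact (mul_eq_zero.mp h1).resolve_left (pow_ne_zero _ ha)

theorem two : S_TWO := by
  intro g hg
  obtain ⟨m, hm⟩ := MvPolynomial.support_nonempty.mpr hg
  set B₀ : ℕ := ∑ m ∈ g.support, (g.coeff m).natAbs with hB₀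
  refine ⟨g.totalDegree, B₀ + 1, ?_⟩
  intro Q hQ a a' ha ha' hne hcop hcop' hcong
  by_contra hcon
  push Not at hcon
  -- all homogeneous parts vanish
  have hp : twop g a a' = 0 := by
    refine Polynomial.eq_zero_of_natDegree_lt_card_of_eval_eq_zero' (twop g a a')
      ((range (g.totalDegree + 1)).image fun e => (2 : ℤ) ^ e) ?_ ?_
    · intro i hi
      obtain ⟨e, he, rfl⟩ := mem_image.mp hi
      rw [twop_eval]
      exact hcon e (Nat.lt_succ_iff.mp (mem_range.mp he))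
    · rw [card_image_of_injective _ (Int.pow_right_injective (by norm_num)), card_range]
      exact Nat.lt_succ_of_le (twop_deg g a a')
  have hj := twop_coeff g a a' (m 0 + m 1)
  rw [hp, Polynomial.coeff_zero] at hj
  have ha'0 : (a' : ℤ) ≠ 0 := by exact_mod_cast ha'.ne'
  have hroot := twoq_root g a a' ha'0 (m 0 + m 1) hj.symm
  set q := twoq g (m 0 + m 1) with hq
  have hq0 : q ≠ 0 := twoq_ne g m hm
  -- lowest terms
  set d := Nat.gcd a a' with hd
  have hd0 : 0 < d := Nat.gcd_pos_of_pos_left _ ha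
  obtain ⟨α, hα⟩ : d ∣ a := Nat.gcd_dvd_left a a'
  obtain ⟨α', hα'⟩ : d ∣ a' := Nat.gcd_dvd_right a a'
  have hco : Nat.Coprime α α' := by
    have h1 := Nat.coprime_div_gcd_div_gcd (m := a) (n := a') hd0
    rw [← hd] at h1
    have h2 : a / d = α := by rw [hα, Nat.mul_div_cancel_left _ hd0]
    have h3 : a' / d = α' := by rw [hα', Nat.mul_div_cancel_left _ hd0]
    rwa [h2, h3] at h1
  have hα0 : 0 < α := by
    rcases Nat.eq_zero_or_pos α with h | h
    · rw [h, mul_zero] at hα; omega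
    · exact h
  have hα'0 : 0 < α' := by
    rcases Nat.eq_zero_or_pos α' with h | h
    · rw [h, mul_zero] at hα'; omega
    · exact h
  have hr : ((a : ℤ) : ℚ) / ((a' : ℤ) : ℚ) = ((α : ℤ) : ℚ) / ((α' : ℤ) : ℚ) := by
    have h1 : (a : ℚ) = d * α := by exact_mod_cast hα
    have h2 : (a' : ℚ) = d * α' := by exact_mod_cast hα'
    have h3 : (d : ℚ) ≠ 0 := by exact_mod_cast hd0.ne'
    push_cast
    rw [h1, h2, mul_div_mul_left _ _ h3]
  rw [hr] at hroot
  have hcoZ : IsCoprime (α : ℤ) (α' : ℤ) := Nat.isCoprime_iff_coprime.mpr hco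
  -- the denominator
  have hden : ∀ (p : Polynomial ℤ) (u v : ℕ), 0 < v → Nat.Coprime u v → p ≠ 0 →
      Polynomial.aeval (((u : ℤ) : ℚ) / ((v : ℤ) : ℚ)) p = 0 → (v : ℤ) ∣ p.leadingCoeff := by
    intro p u v hv huv _ hp0
    have h1 := den_dvd_of_is_root hp0
    have h2 : ((((u : ℤ) : ℚ) / ((v : ℤ) : ℚ)).den : ℤ) = v :=
      Rat.den_div_eq_of_coprime (by exact_mod_cast hv) (by simpa using huv)
    have h3 := Rat.isFractionRingDen (((u : ℤ) : ℚ) / ((v : ℤ) : ℚ))
    rw [← h2, ← h3]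
    exact Int.natAbs_dvd.mpr h1
  have hle : ∀ (v : ℕ) (z : ℤ), z ≠ 0 → (v : ℤ) ∣ z → v ≤ z.natAbs := by
    intro v z hz hv
    exact Nat.le_of_dvd (Int.natAbs_pos.mpr hz) (Int.natCast_dvd.mp hv)
  have h1 : α' ≤ B₀ := by
    refine (hle α' q.leadingCoeff (Polynomial.leadingCoeff_ne_zero.mpr hq0)
      (hden q α α' hα'0 hco hq0 hroot)).trans ?_
    exact twoq_bd g _ _
  have h2 : α ≤ B₀ := by
    have hrev : Polynomial.aeval (((α' : ℤ) : ℚ) / ((α : ℤ) : ℚ)) q.reverse = 0 := by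
      have h3 : ((α' : ℤ) : ℚ) / ((α : ℤ) : ℚ) = (((α : ℤ) : ℚ) / ((α' : ℤ) : ℚ))⁻¹ := by
        rw [inv_div]
      rw [h3, Polynomial.aeval_def]
      have hne0 : ((α : ℤ) : ℚ) / ((α' : ℤ) : ℚ) ≠ 0 := by
        have e1 : ((α : ℤ) : ℚ) ≠ 0 := by exact_mod_cast hα0.ne'
        have e2 : ((α' : ℤ) : ℚ) ≠ 0 := by exact_mod_cast hα'0.ne'
        exact div_ne_zero e1 e2
      let _ : Invertible (((α : ℤ) : ℚ) / ((α' : ℤ) : ℚ)) := invertibleOfNonzero hne0
      rw [← invOf_eq_inv, Polynomial.eval₂_reverse_eq_zero_iff]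
      exact hroot
    have hr0 : q.reverse ≠ 0 := by
      rw [Ne, Polynomial.reverse_eq_zero]; exact hq0
    have h4 := hle α q.reverse.leadingCoeff (Polynomial.leadingCoeff_ne_zero.mpr hr0)
      (hden q.reverse α' α hα0 hco.symm hr0 hrev)
    rw [Polynomial.reverse_leadingCoeff] at h4
    exact h4.trans (twoq_bd g _ _)
  -- the congruence
  have hdQ : Nat.Coprime d Q := Nat.Coprime.coprime_dvd_left (Nat.gcd_dvd_left a a') hcop
  have hQd : (Q : ℤ) ∣ (α : ℤ) - α' := by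
    have h3 : (Q : ℤ) ∣ (a : ℤ) - a' := (Int.modEq_iff_dvd.mp hcong.symm)
    have h4 : (a : ℤ) - a' = d * ((α : ℤ) - α') := by
      have e1 : (a : ℤ) = d * α := by exact_mod_cast hα
      have e2 : (a' : ℤ) = d * α' := by exact_mod_cast hα'
      rw [e1, e2]; ring
    rw [h4] at h3
    exact (IsCoprime.dvd_of_dvd_mul_left (Nat.isCoprime_iff_coprime.mpr hdQ.symm) h3)
  have hneα : (α : ℤ) - α' ≠ 0 := by
    intro h3
    apply hne
    have : α = α' := by omega
    rw [hα, hα', this]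
  have h5 := hle Q _ hneα hQd
  omega

end Pool.Agent.Helper76.VA
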